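import Pool.Agent.Lib.P4f18dfC.Defs
import Pool.Agent.Lib.P4f18df.Moments

/-!
# Moments of the standard Gaussian law

Module CX.Gm.  `gm k = ∫ y^k d(gaussianReal 0 1)`.  `gm 0 = 1` (probability), `gm k = 0` for odd `k` (the law is
symmetric: `gaussianReal_map_neg` or `integral_neg_eq_self` with the even density), and
`gm (k+2) = (k+1) gm k` by integration by parts: `∫ y^(k+1) * (y e^(-y²/2)) = ∫ (k+1) y^k e^(-y²/2)`
(`integral_mul_deriv_eq_deriv_mul_of_integrable`, or from `Real.integral_rpow_mul_exp_neg_mul_sq`, Gamma function).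
Integrability of all `y^k`: `gauss_int` in `Lib/P4f18df/Moments.lean`; density: `integral_gaussianReal_eq_integral_smul`.
`Lib/Pf31f09/GMom.lean` does the cases 2 and 4.  The last statements follow by induction.
-/

set_option autoImplicit false

namespace Pool.Agent.P4f18dfC

open Finset MeasureTheory ProbabilityTheory Pool.Agent.P4f18dfT

namespace GmAux

theorem int_pow_exp (k : ℕ) :
    Integrable (fun y : ℝ => y ^ k * Real.exp (-(1 / 2) * y ^ 2)) := by
  have h := integrable_rpow_mul_exp_neg_mul_sq (b := 1 / 2) (by norm_num) (s := (k : ℝ))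
    (by have : (0 : ℝ) ≤ k := Nat.cast_nonneg k
        linarith)
  simpa only [Real.rpow_natCast] using h

theorem gm_eq (k : ℕ) :
    gm k = (√(2 * Real.pi))⁻¹ * ∫ y : ℝ, y ^ k * Real.exp (-(1 / 2) * y ^ 2) := by
  unfold gm
  rw [integral_gaussianReal_eq_integral_smul one_ne_zero, ← integral_const_mul]
  congr 1
  funext y
  simp only [gaussianPDFReal, NNReal.coe_one, mul_one, sub_zero, smul_eq_mul]
  rw [show -y ^ 2 / 2 = -(1 / 2) * y ^ 2 by ring]
  ring

end GmAux

theorem gm_zero : gm 0 = 1 := by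
  unfold gm
  simp

theorem gm_succ (k : ℕ) : gm (k + 2) = (k + 1) * gm k := by
  rw [GmAux.gm_eq, GmAux.gm_eq]
  have hexp : ∀ y : ℝ, HasDerivAt (fun y : ℝ => -Real.exp (-(1 / 2) * y ^ 2))
      (y * Real.exp (-(1 / 2) * y ^ 2)) y := by
    intro y
    have h1 : HasDerivAt (fun y : ℝ => -(1 / 2) * y ^ 2) (-(1 / 2) * (2 * y)) y := by
      simpa using (hasDerivAt_pow 2 y).const_mul (-(1 / 2) : ℝ)
    have h2 := h1.exp.neg
    have e : -(Real.exp (-(1 / 2) * y ^ 2) * (-(1 / 2) * (2 * y)))
        = y * Real.exp (-(1 / 2) * y ^ 2) := by ring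
    rw [← e]
    exact h2
  have hpow : ∀ y : ℝ, HasDerivAt (fun y : ℝ => y ^ (k + 1)) (((k : ℝ) + 1) * y ^ k) y := by
    intro y
    have h := hasDerivAt_pow (k + 1) y
    simpa using h
  have key := integral_mul_deriv_eq_deriv_mul_of_integrable
    (u := fun y : ℝ => y ^ (k + 1)) (v := fun y : ℝ => -Real.exp (-(1 / 2) * y ^ 2))
    (u' := fun y : ℝ => ((k : ℝ) + 1) * y ^ k)
    (v' := fun y : ℝ => y * Real.exp (-(1 / 2) * y ^ 2))
    (fun y _ => hpow y) (fun y _ => hexp y)
    (by
      have h := GmAux.int_pow_exp (k + 2)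
      refine h.congr (Filter.Eventually.of_forall fun y => ?_)
      simp only [Pi.mul_apply]
      ring)
    (by
      have h := ((GmAux.int_pow_exp k).const_mul (-((k : ℝ) + 1)))
      refine h.congr (Filter.Eventually.of_forall fun y => ?_)
      simp only [Pi.mul_apply]
      ring)
    (by
      have h := (GmAux.int_pow_exp (k + 1)).neg
      refine h.congr (Filter.Eventually.of_forall fun y => ?_)
      simp only [Pi.mul_apply, Pi.neg_apply]
      ring)
  have e1 : ∫ y : ℝ, y ^ (k + 2) * Real.exp (-(1 / 2) * y ^ 2)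
      = ∫ y : ℝ, y ^ (k + 1) * (y * Real.exp (-(1 / 2) * y ^ 2)) := by
    congr 1
    funext y
    ring
  have e2 : ∫ y : ℝ, ((k : ℝ) + 1) * y ^ k * (-Real.exp (-(1 / 2) * y ^ 2))
      = -(((k : ℝ) + 1) * ∫ y : ℝ, y ^ k * Real.exp (-(1 / 2) * y ^ 2)) := by
    rw [← integral_const_mul, ← integral_neg]
    congr 1
    funext y
    ring
  rw [e1, key, e2]
  ring

theorem gm_odd {k : ℕ} (hk : Odd k) : gm k = 0 := by
  obtain ⟨m, rfl⟩ := hk
  induction m with
  | zero =>
    unfold gm
    simp
  | succ m ih =>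
    rw [show 2 * (m + 1) + 1 = (2 * m + 1) + 2 by ring, gm_succ, ih, mul_zero]

theorem gm_nonneg (k : ℕ) : 0 ≤ gm k := by
  induction k using Nat.strong_induction_on with
  | _ k ih =>
    match k, ih with
    | 0, _ => rw [gm_zero]; exact zero_le_one
    | 1, _ => rw [gm_odd odd_one]
    | (k + 2), ih =>
      rw [gm_succ]
      exact mul_nonneg (by positivity) (ih k (by omega))

theorem gm_even (m : ℕ) : gm (2 * m) / (2 * m).factorial = 1 / (2 ^ m * m.factorial) := by
  induction m with
  | zero => simp [gm_zero]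
  | succ m ih =>
    rw [show 2 * (m + 1) = 2 * m + 2 by ring, gm_succ, Nat.factorial_succ, Nat.factorial_succ,
      Nat.factorial_succ, pow_succ]
    have h1 : ((2 * m).factorial : ℝ) ≠ 0 := by positivity
    have h2 : (m.factorial : ℝ) ≠ 0 := by positivity
    have h3 : (2 : ℝ) ^ m ≠ 0 := by positivity
    rw [div_eq_div_iff h1 (mul_ne_zero h3 h2)] at ih
    push_cast
    rw [div_eq_div_iff (by positivity) (by positivity)]
    linear_combination (2 * (m : ℝ) + 1) * (2 * ((m : ℝ) + 1)) * ih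

end Pool.Agent.P4f18dfC
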