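import Pool.Agent.Lib.P4f18dfC.Defs
import Pool.Agent.Lib.P4f18dfC.Gm

/-!
# Moments of Rademacher sums with bounded coefficients

Module CX.Rad.  `Rm k A c = av A (fun U => (∑_{v ∈ A} sg U v * c v)^k)` (average over all `U ⊆ A`, i.e. independent
signs `sg U v`, `Lib/P4f18df/Cube.lean`).

`even_part`: expand `(∑ c n)^k = ∑_{t ∈ piFinset} ∏ c (t i)` and split into `ntr k A` and the tuples with all
multiplicities even; for the second part, the same expansion of `(∑ sg U v c v)^k` gives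
`av A (∏ sg U (t i)) = 1` for even tuples and `0` for `t ∈ ntr k A`.

`Rm_odd`: no even tuple if `k` is odd.

`Rm_even`: induction on `l`, and for given `l` induction over `A`: with `D_l(A) = Rm (2l) A c - gm (2l) s(A)^l`,
`D_l(A ∪ {v}) - D_l(A) = C(2l,2) c_v^2 D_{l-1}(A) + O(h^(l-2))`.
-/

set_option autoImplicit false

namespace Pool.Agent.P4f18dfC

open Finset Pool.Agent.P4f18df Pool.Agent.P4f18dfT

private lemma rad_pow_expand (k : ℕ) (A : Finset ℕ) (f : ℕ → ℝ) :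
    (∑ n ∈ A, f n) ^ k = ∑ t ∈ Fintype.piFinset (fun _ : Fin k => A), ∏ i, f (t i) := by
  rw [← Finset.prod_univ_sum]; simp

private lemma rad_av_even (k : ℕ) (A : Finset ℕ) (t : Fin k → ℕ) (ht : ∀ i, t i ∈ A)
    (hev : ∀ v ∈ A, Even (univ.filter (fun i => t i = v)).card) :
    av A (fun U => ∏ i, sg U (t i)) = 1 := by
  rw [av_congr (fun U _ => prod_eq_one_of_even (sg U) (fun n _ => sg_sq U n) t ht hev), av_const]

private lemma rad_av_ntr (k : ℕ) (A : Finset ℕ) (t : Fin k → ℕ) (ht : ∀ i, t i ∈ A)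
    (hev : ¬ ∀ v ∈ A, Even (univ.filter (fun i => t i = v)).card) :
    av A (fun U => ∏ i, sg U (t i)) = 0 := by
  by_contra hne
  have e : ∀ U, ∏ i, sg U (t i) = ∏ i ∈ (univ : Finset (Fin k)), chi {t i} U := by
    intro U
    apply Finset.prod_congr rfl; intro i _
    simp [chi]
  rw [av_congr (fun U _ => e U)] at hne
  apply hev
  intro v _
  have := even_of_av_prod_chi_ne univ (fun i : Fin k => ({t i} : Finset ℕ)) A
    (fun l _ => by simpa using ht l) hne v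
  simp only [Finset.mem_singleton] at this
  rw [show (univ.filter (fun i => t i = v)) = univ.filter (fun i => v = t i) from by
    ext i; simp [eq_comm]]
  exact this

private lemma rad_Rm_eq (k : ℕ) (A : Finset ℕ) (c : ℕ → ℝ) :
    Rm k A c = ∑ t ∈ (Fintype.piFinset (fun _ : Fin k => A)).filter
      (fun t => ∀ v ∈ A, Even (univ.filter (fun i => t i = v)).card), ∏ i, c (t i) := by
  unfold Rm
  have h1 : ∀ U : Finset ℕ, (∑ v ∈ A, sg U v * c v) ^ k =
      ∑ t ∈ Fintype.piFinset (fun _ : Fin k => A), (∏ i, c (t i)) * ∏ i, sg U (t i) := by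
    intro U
    rw [rad_pow_expand]
    apply Finset.sum_congr rfl
    intro t _
    rw [Finset.prod_mul_distrib, mul_comm]
  rw [av_congr (fun U _ => h1 U), av_sum, Finset.sum_filter]
  apply Finset.sum_congr rfl
  intro t ht
  rw [Fintype.mem_piFinset] at ht
  rw [av_const_mul]
  split_ifs with hev
  · rw [rad_av_even k A t ht hev, mul_one]
  · rw [rad_av_ntr k A t ht hev, mul_zero]

theorem even_part (k : ℕ) (A : Finset ℕ) (c : ℕ → ℝ) :
    (∑ n ∈ A, c n) ^ k = Rm k A c + ∑ t ∈ ntr k A, ∏ i, c (t i) := by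
  rw [rad_pow_expand, rad_Rm_eq, ntr, Finset.sum_filter_add_sum_filter_not]

theorem Rm_odd {k : ℕ} (hk : Odd k) (A : Finset ℕ) (c : ℕ → ℝ) : Rm k A c = 0 := by
  rw [rad_Rm_eq]
  apply Finset.sum_eq_zero
  intro t ht
  exfalso
  rw [Finset.mem_filter, Fintype.mem_piFinset] at ht
  obtain ⟨ht, hev⟩ := ht
  have h1 : (univ : Finset (Fin k)).card = ∑ v ∈ A, (univ.filter (fun i => t i = v)).card :=
    Finset.card_eq_sum_card_fiberwise (fun i _ => ht i)
  rw [Finset.card_univ, Fintype.card_fin] at h1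
  have h2 : Even k := by
    rw [h1]
    exact Finset.even_sum _ (fun v hv => hev v hv)
  exact (Nat.not_even_iff_odd.2 hk) h2

private lemma rad_sum_even (f : ℕ → ℝ) (hf : ∀ m, Odd m → f m = 0) (l : ℕ) :
    ∑ m ∈ range (2 * l + 1), f m = ∑ j ∈ range (l + 1), f (2 * j) := by
  induction l with
  | zero => simp
  | succ l ih =>
    rw [show 2 * (l + 1) + 1 = (2 * l + 1) + 1 + 1 by ring, Finset.sum_range_succ,
      Finset.sum_range_succ, ih, Finset.sum_range_succ _ (l + 1),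
      hf (2 * l + 1) ⟨l, rfl⟩, show 2 * l + 1 + 1 = 2 * (l + 1) by ring]
    ring

private lemma rad_avg_pow (Y c : ℝ) (l : ℕ) :
    ((c + Y) ^ (2 * l) + (-c + Y) ^ (2 * l)) / 2 =
      ∑ j ∈ range (l + 1), ((2 * l).choose (2 * j) : ℝ) * c ^ (2 * j) * Y ^ (2 * l - 2 * j) := by
  have h1 : ((c + Y) ^ (2 * l) + (-c + Y) ^ (2 * l)) / 2 =
      ∑ m ∈ range (2 * l + 1), ((2 * l).choose m : ℝ) * ((c ^ m + (-c) ^ m) / 2) *
        Y ^ (2 * l - m) := by
    rw [add_pow, add_pow, ← Finset.sum_add_distrib, Finset.sum_div]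
    apply Finset.sum_congr rfl
    intro m _
    ring
  rw [h1, rad_sum_even (fun m => ((2 * l).choose m : ℝ) * ((c ^ m + (-c) ^ m) / 2) *
    Y ^ (2 * l - m)) (fun m hm => by simp only [hm.neg_pow]; ring) l]
  apply Finset.sum_congr rfl
  intro j _
  have : Even (2 * j) := even_two_mul j
  rw [this.neg_pow]
  ring

private lemma rad_Rm_insert (l : ℕ) (A : Finset ℕ) (v : ℕ) (hv : v ∉ A) (c : ℕ → ℝ) :
    Rm (2 * l) (insert v A) c =
      ∑ j ∈ range (l + 1), ((2 * l).choose (2 * j) : ℝ) * c v ^ (2 * j) *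
        Rm (2 * (l - j)) A c := by
  unfold Rm
  rw [av_insert hv]
  have e1 : av A (fun U => (∑ w ∈ insert v A, sg U w * c w) ^ (2 * l)) =
      av A (fun U => (c v + ∑ w ∈ A, sg U w * c w) ^ (2 * l)) := by
    apply av_congr
    intro U hU
    rw [Finset.sum_insert hv]
    have : v ∉ U := fun h => hv (hU h)
    simp [sg, this]
  have e2 : av A (fun U => (∑ w ∈ insert v A, sg (insert v U) w * c w) ^ (2 * l)) =
      av A (fun U => (-c v + ∑ w ∈ A, sg U w * c w) ^ (2 * l)) := by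
    apply av_congr
    intro U hU
    rw [Finset.sum_insert hv]
    congr 2
    · simp [sg]
    · apply Finset.sum_congr rfl
      intro w hw
      rw [sg_insert_of_ne (fun h : w = v => hv (h ▸ hw))]
  rw [e1, e2, ← av_add]
  have e3 : av A (fun U => (c v + ∑ w ∈ A, sg U w * c w) ^ (2 * l) +
      (-c v + ∑ w ∈ A, sg U w * c w) ^ (2 * l)) / 2 =
      av A (fun U => ∑ j ∈ range (l + 1), (((2 * l).choose (2 * j) : ℝ) * c v ^ (2 * j)) *
        (∑ w ∈ A, sg U w * c w) ^ (2 * (l - j))) := by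
    rw [div_eq_mul_inv, mul_comm, ← av_const_mul]
    apply av_congr
    intro U _
    rw [inv_mul_eq_div, rad_avg_pow]
    apply Finset.sum_congr rfl
    intro j _
    rw [← Nat.mul_sub]
  rw [e3, av_sum]
  apply Finset.sum_congr rfl
  intro j _
  rw [av_const_mul]

/-- the error term -/
private noncomputable def radD (l : ℕ) (A : Finset ℕ) (c : ℕ → ℝ) : ℝ :=
  Rm (2 * l) A c - gm (2 * l) * (∑ n ∈ A, c n ^ 2) ^ l

private lemma rad_gm_two (l : ℕ) :
    gm (2 * (l + 1)) * (l + 1) = ((2 * (l + 1)).choose (2 * 1) : ℝ) * gm (2 * l) := by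
  rw [show 2 * (l + 1) = 2 * l + 2 by ring, gm_succ, mul_one, Nat.choose_two_right]
  have h : ((2 * l + 2) * (2 * l + 2 - 1) / 2 : ℕ) = (l + 1) * (2 * l + 1) := by
    rw [show (2 * l + 2) * (2 * l + 2 - 1) = 2 * ((l + 1) * (2 * l + 1)) by
      rw [show 2 * l + 2 - 1 = 2 * l + 1 by omega]; ring]
    rw [Nat.mul_div_cancel_left _ (by norm_num)]
  rw [h]
  push_cast
  ring

private lemma rad_step (l : ℕ) (A : Finset ℕ) (v : ℕ) (hv : v ∉ A) (c : ℕ → ℝ) :
    radD (l + 1) (insert v A) c = radD (l + 1) A c +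
      ((2 * (l + 1)).choose (2 * 1) : ℝ) * c v ^ 2 * radD l A c +
      ((∑ j ∈ range l, ((2 * (l + 1)).choose (2 * (j + 2)) : ℝ) * c v ^ (2 * (j + 2)) *
        Rm (2 * (l + 1 - (j + 2))) A c) -
      gm (2 * (l + 1)) * ∑ j ∈ range l, ((l + 1).choose (j + 2) : ℝ) * (c v ^ 2) ^ (j + 2) *
        (∑ n ∈ A, c n ^ 2) ^ (l + 1 - (j + 2))) := by
  unfold radD
  rw [rad_Rm_insert (l + 1) A v hv c, Finset.sum_insert hv]
  set s := ∑ n ∈ A, c n ^ 2 with hs
  have h1 : (c v ^ 2 + s) ^ (l + 1) = s ^ (l + 1) + (l + 1) * c v ^ 2 * s ^ l +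
      ∑ j ∈ range l, ((l + 1).choose (j + 2) : ℝ) * (c v ^ 2) ^ (j + 2) *
        s ^ (l + 1 - (j + 2)) := by
    rw [add_pow, Finset.sum_range_succ', Finset.sum_range_succ']
    have : ∀ j, (c v ^ 2) ^ (j + 1 + 1) * s ^ (l + 1 - (j + 1 + 1)) *
        ((l + 1).choose (j + 1 + 1) : ℝ) = ((l + 1).choose (j + 2) : ℝ) * (c v ^ 2) ^ (j + 2) *
        s ^ (l + 1 - (j + 2)) := fun j => by ring
    rw [Finset.sum_congr rfl (fun j _ => this j)]
    simp
    ring
  have h2 : ∑ j ∈ range (l + 1 + 1), ((2 * (l + 1)).choose (2 * j) : ℝ) * c v ^ (2 * j) *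
      Rm (2 * (l + 1 - j)) A c = Rm (2 * (l + 1)) A c +
      ((2 * (l + 1)).choose (2 * 1) : ℝ) * c v ^ 2 * Rm (2 * l) A c +
      ∑ j ∈ range l, ((2 * (l + 1)).choose (2 * (j + 2)) : ℝ) * c v ^ (2 * (j + 2)) *
        Rm (2 * (l + 1 - (j + 2))) A c := by
    rw [Finset.sum_range_succ', Finset.sum_range_succ']
    have e1 : ((2 * (l + 1)).choose (2 * 0) : ℝ) * c v ^ (2 * 0) * Rm (2 * (l + 1 - 0)) A c =
        Rm (2 * (l + 1)) A c := by simp
    have e2 : ((2 * (l + 1)).choose (2 * (0 + 1)) : ℝ) * c v ^ (2 * (0 + 1)) *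
        Rm (2 * (l + 1 - (0 + 1))) A c =
        ((2 * (l + 1)).choose (2 * 1) : ℝ) * c v ^ 2 * Rm (2 * l) A c := by
      simp
    rw [e1, e2]
    ring
  rw [h1, h2]
  have h3 := rad_gm_two l
  linear_combination (-(c v ^ 2 * s ^ l)) * h3

private lemma rad_D_zero (A : Finset ℕ) (c : ℕ → ℝ) : radD 0 A c = 0 := by
  unfold radD Rm
  simp [gm_zero, av_const]

private lemma rad_D_empty (l : ℕ) (c : ℕ → ℝ) : radD (l + 1) ∅ c = 0 := by
  unfold radD Rm
  simp [av]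

private lemma rad_s_le {A : Finset ℕ} {c : ℕ → ℝ} (hc : ∀ n, |c n| ≤ 2) {h : ℕ}
    (hA : A.card ≤ h) : ∑ n ∈ A, c n ^ 2 ≤ 4 * h := by
  have h1 : ∑ n ∈ A, c n ^ 2 ≤ ∑ n ∈ A, (4 : ℝ) := by
    apply Finset.sum_le_sum
    intro n _
    have := hc n
    rw [← sq_abs]
    nlinarith [abs_nonneg (c n)]
  rw [Finset.sum_const, nsmul_eq_mul] at h1
  have h2 : (A.card : ℝ) ≤ h := by exact_mod_cast hA
  linarith

private lemma rad_c_pow {x : ℝ} (hx : |x| ≤ 2) (j : ℕ) : |x ^ (2 * j)| ≤ 4 ^ j := by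
  rw [abs_pow, pow_mul]
  apply pow_le_pow_left₀ (by positivity)
  nlinarith [abs_nonneg x]

private lemma rad_Rm_bound {m : ℕ} {A : Finset ℕ} {c : ℕ → ℝ} (hc : ∀ n, |c n| ≤ 2) {h : ℕ}
    (hh : 1 ≤ h) (hA : A.card ≤ h) {C : ℝ} (hC0 : 0 ≤ C)
    (hC : |radD m A c| ≤ C * (h : ℝ) ^ m / h) :
    |Rm (2 * m) A c| ≤ (C + gm (2 * m) * 4 ^ m) * (h : ℝ) ^ m := by
  have hh' : (1 : ℝ) ≤ h := by exact_mod_cast hh
  have h1 : Rm (2 * m) A c = radD m A c + gm (2 * m) * (∑ n ∈ A, c n ^ 2) ^ m := by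
    unfold radD; ring
  have hs0 : 0 ≤ ∑ n ∈ A, c n ^ 2 := Finset.sum_nonneg (fun n _ => sq_nonneg _)
  have hg := gm_nonneg (2 * m)
  have h2 : |gm (2 * m) * (∑ n ∈ A, c n ^ 2) ^ m| ≤ gm (2 * m) * (4 ^ m * (h : ℝ) ^ m) := by
    rw [abs_of_nonneg (by positivity), ← mul_pow]
    gcongr
    exact rad_s_le hc hA
  have h3 : C * (h : ℝ) ^ m / h ≤ C * (h : ℝ) ^ m := by
    apply div_le_self (by positivity) hh'
  rw [h1]
  calc _ ≤ |radD m A c| + |gm (2 * m) * (∑ n ∈ A, c n ^ 2) ^ m| := abs_add_le _ _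
    _ ≤ C * (h : ℝ) ^ m + gm (2 * m) * (4 ^ m * (h : ℝ) ^ m) := add_le_add (hC.trans h3) h2
    _ = _ := by ring

private lemma rad_main (l : ℕ) : ∃ C : ℝ, 0 ≤ C ∧ ∀ (A : Finset ℕ) (c : ℕ → ℝ),
    (∀ n, |c n| ≤ 2) → ∀ h : ℕ, 1 ≤ h → A.card ≤ h → |radD l A c| ≤ C * (h : ℝ) ^ l / h := by
  induction l using Nat.strong_induction_on with
  | _ l ih =>
  rcases l with _ | l
  · exact ⟨0, le_rfl, fun A c _ h _ _ => by rw [rad_D_zero]; simp⟩
  have ih' : ∀ m, ∃ C : ℝ, 0 ≤ C ∧ (m ≤ l → ∀ (A : Finset ℕ) (c : ℕ → ℝ),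
      (∀ n, |c n| ≤ 2) → ∀ h : ℕ, 1 ≤ h → A.card ≤ h →
        |radD m A c| ≤ C * (h : ℝ) ^ m / h) := by
    intro m
    by_cases hm : m ≤ l
    · obtain ⟨C, h1, h2⟩ := ih m (by omega)
      exact ⟨C, h1, fun _ => h2⟩
    · exact ⟨0, le_rfl, fun h => absurd h hm⟩
  choose C hC0 hC using ih'
  set K : ℝ := ((2 * (l + 1)).choose (2 * 1) : ℝ) * 4 * C l +
    (∑ j ∈ range l, ((2 * (l + 1)).choose (2 * (j + 2)) : ℝ) * 4 ^ (j + 2) *
      (C (l + 1 - (j + 2)) + gm (2 * (l + 1 - (j + 2))) * 4 ^ (l + 1 - (j + 2)))) +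
    gm (2 * (l + 1)) * ∑ j ∈ range l, ((l + 1).choose (j + 2) : ℝ) * 4 ^ (j + 2) *
      4 ^ (l + 1 - (j + 2)) with hK
  have hK0 : 0 ≤ K := by
    have h1 := hC0 l
    have h2 : 0 ≤ ∑ j ∈ range l, ((2 * (l + 1)).choose (2 * (j + 2)) : ℝ) * 4 ^ (j + 2) *
      (C (l + 1 - (j + 2)) + gm (2 * (l + 1 - (j + 2))) * 4 ^ (l + 1 - (j + 2))) := by
      apply Finset.sum_nonneg
      intro j _
      have := hC0 (l + 1 - (j + 2))
      have := gm_nonneg (2 * (l + 1 - (j + 2)))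
      positivity
    have h3 := gm_nonneg (2 * (l + 1))
    have h4 : 0 ≤ ∑ j ∈ range l, ((l + 1).choose (j + 2) : ℝ) * 4 ^ (j + 2) *
      4 ^ (l + 1 - (j + 2)) := Finset.sum_nonneg (fun j _ => by positivity)
    rw [hK]
    positivity
  refine ⟨K, hK0, fun A c hc h hh hA => ?_⟩
  have hh' : (1 : ℝ) ≤ h := by exact_mod_cast hh
  set X : ℝ := (h : ℝ) ^ (l + 1) / h / h with hX
  have hX0 : 0 ≤ X := by positivity
  have hXa : (h : ℝ) ^ l / h = X := by
    rw [hX, pow_succ]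
    field_simp
  have hXb : ∀ j ∈ range l, (h : ℝ) ^ (l + 1 - (j + 2)) ≤ X := by
    intro j hj
    rw [Finset.mem_range] at hj
    rw [hX, le_div_iff₀ (by linarith), le_div_iff₀ (by linarith), mul_assoc, ← sq, ← pow_add]
    exact pow_le_pow_right₀ hh' (by omega)
  have key : ∀ A : Finset ℕ, A.card ≤ h → |radD (l + 1) A c| ≤ A.card * (K * X) := by
    intro A
    induction A using Finset.induction_on with
    | empty => intro _; rw [rad_D_empty]; simp
    | insert v A hv ihA =>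
      intro hcard
      rw [Finset.card_insert_of_notMem hv] at hcard ⊢
      have hA' : A.card ≤ h := by omega
      have hi := ihA hA'
      have t1 : |((2 * (l + 1)).choose (2 * 1) : ℝ) * c v ^ 2 * radD l A c| ≤
          ((2 * (l + 1)).choose (2 * 1) : ℝ) * 4 * C l * X := by
        rw [abs_mul, abs_mul, Nat.abs_cast]
        have h1 : |c v ^ 2| ≤ 4 := by
          have := rad_c_pow (hc v) 1
          simpa using this
        have h2 : |radD l A c| ≤ C l * X := by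
          have := hC l le_rfl A c hc h hh hA'
          rw [mul_div_assoc, hXa] at this
          exact this
        calc _ ≤ ((2 * (l + 1)).choose (2 * 1) : ℝ) * 4 * (C l * X) := by gcongr
          _ = _ := by ring
      have t2 : |∑ j ∈ range l, ((2 * (l + 1)).choose (2 * (j + 2)) : ℝ) * c v ^ (2 * (j + 2)) *
          Rm (2 * (l + 1 - (j + 2))) A c| ≤
          (∑ j ∈ range l, ((2 * (l + 1)).choose (2 * (j + 2)) : ℝ) * 4 ^ (j + 2) *
          (C (l + 1 - (j + 2)) + gm (2 * (l + 1 - (j + 2))) * 4 ^ (l + 1 - (j + 2)))) * X := by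
        rw [Finset.sum_mul]
        refine (Finset.abs_sum_le_sum_abs _ _).trans (Finset.sum_le_sum (fun j hj => ?_))
        have hj' := Finset.mem_range.1 hj
        rw [abs_mul, abs_mul, Nat.abs_cast]
        have h1 := rad_c_pow (hc v) (j + 2)
        have h2 := rad_Rm_bound hc hh hA' (hC0 (l + 1 - (j + 2)))
          (hC (l + 1 - (j + 2)) (by omega) A c hc h hh hA')
        have h3 := hXb j hj
        have h4 : 0 ≤ C (l + 1 - (j + 2)) + gm (2 * (l + 1 - (j + 2))) * 4 ^ (l + 1 - (j + 2)) := by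
          have := hC0 (l + 1 - (j + 2))
          have := gm_nonneg (2 * (l + 1 - (j + 2)))
          positivity
        have h5 : |Rm (2 * (l + 1 - (j + 2))) A c| ≤
            (C (l + 1 - (j + 2)) + gm (2 * (l + 1 - (j + 2))) * 4 ^ (l + 1 - (j + 2))) * X :=
          h2.trans (mul_le_mul_of_nonneg_left h3 h4)
        calc _ ≤ ((2 * (l + 1)).choose (2 * (j + 2)) : ℝ) * 4 ^ (j + 2) *
            ((C (l + 1 - (j + 2)) + gm (2 * (l + 1 - (j + 2))) * 4 ^ (l + 1 - (j + 2))) * X) := by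
              gcongr
          _ = _ := by ring
      have t3 : |gm (2 * (l + 1)) * ∑ j ∈ range l, ((l + 1).choose (j + 2) : ℝ) *
          (c v ^ 2) ^ (j + 2) * (∑ n ∈ A, c n ^ 2) ^ (l + 1 - (j + 2))| ≤
          (gm (2 * (l + 1)) * ∑ j ∈ range l, ((l + 1).choose (j + 2) : ℝ) * 4 ^ (j + 2) *
          4 ^ (l + 1 - (j + 2))) * X := by
        rw [abs_mul, abs_of_nonneg (gm_nonneg _), mul_assoc, Finset.sum_mul]
        apply mul_le_mul_of_nonneg_left _ (gm_nonneg _)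
        refine (Finset.abs_sum_le_sum_abs _ _).trans (Finset.sum_le_sum (fun j hj => ?_))
        have hs0 : 0 ≤ ∑ n ∈ A, c n ^ 2 := Finset.sum_nonneg (fun n _ => sq_nonneg _)
        rw [abs_mul, abs_mul, Nat.abs_cast, abs_of_nonneg (pow_nonneg hs0 _)]
        have h1 : |(c v ^ 2) ^ (j + 2)| ≤ 4 ^ (j + 2) := by
          have := rad_c_pow (hc v) (j + 2)
          rwa [pow_mul] at this
        have h2 : (∑ n ∈ A, c n ^ 2) ^ (l + 1 - (j + 2)) ≤ 4 ^ (l + 1 - (j + 2)) * X := by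
          calc _ ≤ (4 * (h : ℝ)) ^ (l + 1 - (j + 2)) := pow_le_pow_left₀ hs0 (rad_s_le hc hA') _
            _ = 4 ^ (l + 1 - (j + 2)) * (h : ℝ) ^ (l + 1 - (j + 2)) := mul_pow _ _ _
            _ ≤ _ := mul_le_mul_of_nonneg_left (hXb j hj) (by positivity)
        calc _ ≤ ((l + 1).choose (j + 2) : ℝ) * 4 ^ (j + 2) * (4 ^ (l + 1 - (j + 2)) * X) := by
              gcongr
          _ = _ := by ring
      rw [rad_step l A v hv c]
      refine (abs_add_le _ _).trans ?_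
      refine (add_le_add (abs_add_le _ _) (abs_sub _ _)).trans ?_
      refine (add_le_add (add_le_add hi t1) (add_le_add t2 t3)).trans (le_of_eq ?_)
      have hcc : ((A.card + 1 : ℕ) : ℝ) = A.card + 1 := by push_cast; ring
      have hKX : K * X = ((2 * (l + 1)).choose (2 * 1) : ℝ) * 4 * C l * X +
          ((∑ j ∈ range l, ((2 * (l + 1)).choose (2 * (j + 2)) : ℝ) * 4 ^ (j + 2) *
          (C (l + 1 - (j + 2)) + gm (2 * (l + 1 - (j + 2))) * 4 ^ (l + 1 - (j + 2)))) * X +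
          (gm (2 * (l + 1)) * ∑ j ∈ range l, ((l + 1).choose (j + 2) : ℝ) * 4 ^ (j + 2) *
          4 ^ (l + 1 - (j + 2))) * X) := by
        rw [hK, add_mul, add_mul]
        exact add_assoc _ _ _
      rw [hcc, add_assoc, ← hKX]
      ring
  have hfin := key A hA
  have hcard : (A.card : ℝ) ≤ h := by exact_mod_cast hA
  calc |radD (l + 1) A c| ≤ A.card * (K * X) := hfin
    _ ≤ h * (K * X) := by gcongr
    _ = K * (h : ℝ) ^ (l + 1) / h := by
        rw [hX]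
        field_simp

theorem Rm_even (l : ℕ) : ∃ C : ℝ, 0 ≤ C ∧ ∀ (A : Finset ℕ) (c : ℕ → ℝ), (∀ n, |c n| ≤ 2) →
    ∀ h : ℕ, 1 ≤ h → A.card ≤ h →
      |Rm (2 * l) A c - gm (2 * l) * (∑ n ∈ A, c n ^ 2) ^ l| ≤ C * (h : ℝ) ^ l / h :=
  rad_main l

end Pool.Agent.P4f18dfC
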