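import Pool.Agent.Lib.P4f18dfT.Defs
import Mathlib.NumberTheory.DirichletCharacter.Orthogonality

/-!
# Complex twists of the Möbius function: definitions
-/

set_option autoImplicit false

namespace Pool.Agent.P4f18dfC

open Finset Pool.Agent.P4f18df Pool.Agent.P4f18dfT
open scoped ComplexConjugate

/-- the Möbius function as a real function -/
noncomputable def mu (n : ℕ) : ℝ := (ArithmeticFunction.moebius n : ℝ)

/-- unimodular version of a character: value `1` at the multiples of the modulus -/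
noncomputable def xc {p : ℕ} (χ : DirichletCharacter ℂ p) (n : ℕ) : ℂ :=
  if p ∣ n then 1 else χ (n : ZMod p)

/-- a factor of a mixed product: `g` at the places of `S`, the conjugate of `g` at the others -/
noncomputable def mixf (g : ℕ → ℂ) {k : ℕ} (S : Finset (Fin k)) (i : Fin k) (n : ℕ) : ℂ :=
  if i ∈ S then g n else conj (g n)

/-- mixed nontrivial moments: the average over `a ∈ (N, 2N]` of the sum of
`∏ w (t i) * (g (t i) or its conjugate)` over the tuples `t` of squarefree numbers of `(a, a + h]` in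
which some value occurs an odd number of times -/
noncomputable def DE (g : ℕ → ℂ) (w : ℕ → ℝ) (k : ℕ) (S : Finset (Fin k)) (N h : ℕ) : ℂ :=
  (∑ a ∈ Ioc N (2 * N), ∑ t ∈ ntr k (Q h a), ∏ i, ((w (t i) : ℂ) * mixf g S i (t i))) / N

/-- `g` behaves at scale `N`, length `h` like a random function for all moments up to `K` -/
def GoodC (K : ℕ) (g : ℕ → ℂ) (N h : ℕ) : Prop :=
  (∀ k ∈ Icc 1 K, ∀ S : Finset (Fin k), ‖DE g mu k S N h‖ ≤ (1 / K : ℝ) * (Real.sqrt h) ^ k) ∧
    ‖DE (fun n => g n ^ 2) (fun _ => 1) 2 {0} N h‖ ≤ (1 / K : ℝ) * h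

/-- the real function `√2 Re (u μ(n) g(n))` -/
noncomputable def cu (g : ℕ → ℂ) (u : ℂ) (n : ℕ) : ℝ := Real.sqrt 2 * (mu n * (u * g n).re)

/-- nontrivial moments of a real function -/
noncomputable def Dg (c : ℕ → ℝ) (k N h : ℕ) : ℝ :=
  (∑ a ∈ Ioc N (2 * N), ∑ t ∈ ntr k (Ioc a (a + h)), ∏ i, c (t i)) / N

/-- local second moments -/
noncomputable def s2 (c : ℕ → ℝ) (h a : ℕ) : ℝ := ∑ n ∈ Ioc a (a + h), c n ^ 2

/-- moments of the sum of independent signs with the coefficients `c v`, `v ∈ A` -/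
noncomputable def Rm (k : ℕ) (A : Finset ℕ) (c : ℕ → ℝ) : ℝ :=
  av A (fun U => (∑ v ∈ A, sg U v * c v) ^ k)

/-- discrete normalised moments -/
noncomputable def Mg (c : ℕ → ℝ) (k N h : ℕ) : ℝ :=
  (∑ a ∈ Ioc N (2 * N), (Wd c h a) ^ k) / N / (Real.sqrt (h * c2)) ^ k

/-- the condition on a real function used for the law -/
def GoodR (K : ℕ) (c : ℕ → ℝ) (N h : ℕ) : Prop :=
  (∀ k ∈ Icc 1 K, |Dg c k N h| ≤ (1 / K : ℝ) * (Real.sqrt h) ^ k) ∧
    (∑ a ∈ Ioc N (2 * N), |s2 c h a - h * c2|) / N ≤ (1 / K : ℝ) * h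

end Pool.Agent.P4f18dfC
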