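import Pool.Agent.Lib.P4f18dfC.Defs
import Pool.Agent.Lib.P4f18df.Asym

/-!
# Character moments are bounded by Rademacher moments

Module CX.Cmp.
`orth`: orthogonality of the characters modulo a prime (`DirichletCharacter.sum_char_inv_mul_char_eq`; `χ(v)⁻¹ = conj χ(v)` since
`χ(v)` is a root of unity).

`char_mom`: `k ≥ 1`, `j ≥ 1`, so `3 N < p` and `xc χ n = χ n`, `p ∤ n` for `0 < n ≤ 3N`; all entries `n` of the tuples
satisfy `N < n ≤ 3N` and are squarefree (`good_Q`).  Write `DE^j = N^(-j) ∑_τ c_τ χ(u_τ)^e conj χ(v_τ)^e`, `τ` ranging over the `j`-tuples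
`(a_i, t_i)_{i<j}` with `a_i ∈ Ioc N (2N)`, `t_i ∈ ntr k (Q h a_i)`, `|c_τ| ≤ 1`, `u_τ` = product of the entries with index in `S`,
`v_τ` = product of the others.  Then `‖DE‖^(2j) = DE^j conj (DE^j)` and, summing over `χ`,
`∑_χ ‖DE‖^(2j) = (p-1) N^(-2j) ∑_{τ,σ : (u_τ v_σ)^e ≡ (v_τ u_σ)^e mod p} c_τ c_σ`
`≤ p N^(-2j) #{(τ,σ) : u_τ v_σ = v_τ u_σ}`, because `(u_τ v_σ)^e ≤ (3N)^(e k j) < p`... (both sides: `u_τ v_σ` and `v_τ u_σ` are
products of at most `k j` entries EACH only if `|S|` is balanced; in general `u_τ v_σ` has `|S| j + (k-|S|) j = k j` factors: yes,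
exactly `k j` factors, the same for `v_τ u_σ`.)  If `u_τ v_σ = v_τ u_σ` then the product of all `2 k j` entries is the square
`(u_τ v_σ)^2`, so every prime divides an even number of the (squarefree) entries and
`av (PN N) (fun U => ∏ over all entries of cn U (entry)) = 1`; these averages are `≥ 0` always (`av_prod_cn_nonneg` in
`Lib/P4f18df/Var.lean`, `even_of_av_prod_chi_ne`, `av_prod_chi_nonneg`, `prod_chi_eq` in `Tuples.lean`).  Hence the count is at most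
`∑_{τ,σ} av (...) = av (PN N) ((∑_a NT U k (Q h a))^(2j)) = N^(2j) av (PN N) (Dk (fU U) k N h ^ (2j))` (`Dk_fU`).
-/

set_option autoImplicit false

namespace Pool.Agent.P4f18dfC

open Finset Pool.Agent.P4f18df Pool.Agent.P4f18dfT
open scoped ComplexConjugate

theorem orth {p : ℕ} (hp : p.Prime) {u v : ℕ} (hu : ¬ p ∣ u) (hv : ¬ p ∣ v) :
    ∑ χ : DirichletCharacter ℂ p, χ (u : ZMod p) * conj (χ (v : ZMod p)) =
      if (u : ZMod p) = v then ((p - 1 : ℕ) : ℂ) else 0 := by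
  haveI : Fact p.Prime := ⟨hp⟩
  haveI : NeZero p := ⟨hp.ne_zero⟩
  have hvu : IsUnit (v : ZMod p) := by
    rw [isUnit_iff_ne_zero]
    intro h
    exact hv ((ZMod.natCast_eq_zero_iff v p).1 h)
  have h := DirichletCharacter.sum_char_inv_mul_char_eq ℂ hvu (u : ZMod p)
  rw [Nat.totient_prime hp] at h
  have h2 : ∀ χ : DirichletCharacter ℂ p, χ (u : ZMod p) * conj (χ (v : ZMod p)) =
      χ (v : ZMod p)⁻¹ * χ (u : ZMod p) := by
    intro χ
    have h3 : conj (χ (v : ZMod p)) = χ⁻¹ (v : ZMod p) := MulChar.star_apply' χ _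
    rw [h3, MulChar.inv_apply' χ, mul_comm]
  rw [Finset.sum_congr rfl (fun χ _ => h2 χ), h]
  by_cases e : (v : ZMod p) = u
  · rw [if_pos e, if_pos e.symm]
  · rw [if_neg e, if_neg (fun h => e h.symm)]

namespace CmpAux

/-- completely multiplicative extension of the sign configuration -/
noncomputable def lam (U : Finset ℕ) (n : ℕ) : ℝ := n.factorization.prod (fun q e => sg U q ^ e)

lemma lam_mul (U : Finset ℕ) {m n : ℕ} (hm : m ≠ 0) (hn : n ≠ 0) :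
    lam U (m * n) = lam U m * lam U n := by
  unfold lam
  rw [Nat.factorization_mul hm hn, Finsupp.prod_add_index']
  · intro a; simp
  · intro a b1 b2; rw [pow_add]

lemma lam_one (U : Finset ℕ) : lam U 1 = 1 := by
  unfold lam; simp

lemma lam_prod (U : Finset ℕ) {α : Type*} (s : Finset α) (f : α → ℕ) (hf : ∀ i ∈ s, f i ≠ 0) :
    lam U (∏ i ∈ s, f i) = ∏ i ∈ s, lam U (f i) := by
  classical
  induction s using Finset.induction_on with
  | empty => simp [lam_one]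
  | insert a s ha ih =>
    rw [Finset.prod_insert ha, Finset.prod_insert ha, lam_mul U (hf a (Finset.mem_insert_self a s))
      (Finset.prod_ne_zero_iff.2 fun i hi => hf i (Finset.mem_insert_of_mem hi)),
      ih fun i hi => hf i (Finset.mem_insert_of_mem hi)]

lemma lam_sqf (U : Finset ℕ) {n : ℕ} (hn : Squarefree n) : lam U n = cn U n := by
  unfold lam cn chi
  rw [Finsupp.prod, Nat.support_factorization]
  apply Finset.prod_congr rfl
  intro q hq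
  have h1 : n.factorization q = 1 := by
    have h2 := hn.natFactorization_le_one q
    have h3 : n.factorization q ≠ 0 := by
      rw [← Finsupp.mem_support_iff, Nat.support_factorization]
      exact hq
    omega
  rw [h1, pow_one]

lemma lam_sq (U : Finset ℕ) (n : ℕ) : lam U n * lam U n = 1 := by
  unfold lam
  rw [Finsupp.prod, ← Finset.prod_mul_distrib]
  apply Finset.prod_eq_one
  intro q _
  rw [← mul_pow, sg_sq, one_pow]

/-- index set of the mixed moments -/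
noncomputable def Om (k N h : ℕ) : Finset (Σ _ : ℕ, (Fin k → ℕ)) :=
  (Ioc N (2 * N)).sigma (fun a => ntr k (Q h a))

lemma mem_Om {k N h : ℕ} (hh : h ≤ N) {x : Σ _ : ℕ, (Fin k → ℕ)} (hx : x ∈ Om k N h) (i : Fin k) :
    Squarefree (x.2 i) ∧ N < x.2 i ∧ x.2 i ≤ 3 * N := by
  unfold Om at hx
  rw [Finset.mem_sigma, ntr, Finset.mem_filter, Fintype.mem_piFinset, Finset.mem_Ioc] at hx
  exact good_Q (N := N) hx.1.1.le (by omega) _ (hx.2.1 i)

lemma sum_Om {M : Type*} [AddCommMonoid M] (k N h : ℕ) (F : (Fin k → ℕ) → M) :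
    ∑ a ∈ Ioc N (2 * N), ∑ t ∈ ntr k (Q h a), F t = ∑ x ∈ Om k N h, F x.2 := by
  unfold Om
  rw [Finset.sum_sigma]

variable {p e k j N h : ℕ}

lemma fact1 (hp : p.Prime) (χ : DirichletCharacter ℂ p) (w : ℕ → ℝ) (S : Finset (Fin k))
    (h3 : 3 * N < p) (hh : h ≤ N) {x : Σ _ : ℕ, (Fin k → ℕ)} (hx : x ∈ Om k N h) :
    ∏ i, ((w (x.2 i) : ℂ) * mixf (fun n => xc χ n ^ e) S i (x.2 i)) =
      ((∏ i, w (x.2 i) : ℝ) : ℂ) * (χ ((∏ i ∈ S, x.2 i : ℕ) : ZMod p) ^ e *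
        conj (χ ((∏ i ∈ Sᶜ, x.2 i : ℕ) : ZMod p)) ^ e) := by
  have hx' := mem_Om hh hx
  have hxc : ∀ i, xc χ (x.2 i) = χ (x.2 i : ZMod p) := by
    intro i
    unfold xc
    rw [if_neg]
    intro hd
    have := Nat.le_of_dvd (by have := (hx' i).2.1; omega) hd
    have := (hx' i).2.2
    omega
  rw [Finset.prod_mul_distrib]
  congr 1
  · push_cast; rfl
  · rw [← Finset.prod_mul_prod_compl S]
    congr 1
    · push_cast
      rw [map_prod, ← Finset.prod_pow]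
      apply Finset.prod_congr rfl
      intro i hi
      unfold mixf
      rw [if_pos hi]
      simp only [hxc]
    · push_cast
      rw [map_prod, map_prod, ← Finset.prod_pow]
      apply Finset.prod_congr rfl
      intro i hi
      unfold mixf
      rw [if_neg (Finset.mem_compl.1 hi)]
      simp only [hxc, map_pow]

/-- weights of the tuples -/
def cT (w : ℕ → ℝ) (τ : Fin j → (Σ _ : ℕ, (Fin k → ℕ))) : ℝ := ∏ l, ∏ i, w ((τ l).2 i)

/-- product of the entries with index in `S` -/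
def AT (S : Finset (Fin k)) (τ : Fin j → (Σ _ : ℕ, (Fin k → ℕ))) : ℕ := ∏ l, ∏ i ∈ S, (τ l).2 i

lemma abs_cT {w : ℕ → ℝ} (hw : ∀ n, |w n| ≤ 1) (τ : Fin j → (Σ _ : ℕ, (Fin k → ℕ))) :
    |cT w τ| ≤ 1 := by
  unfold cT
  rw [Finset.abs_prod]
  apply Finset.prod_le_one
  · intro i _; exact abs_nonneg _
  · intro l _
    rw [Finset.abs_prod]
    apply Finset.prod_le_one
    · intro i _; exact abs_nonneg _
    · intro i _; exact hw _

lemma AT_pos (hh : h ≤ N) (S : Finset (Fin k)) {τ : Fin j → (Σ _ : ℕ, (Fin k → ℕ))}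
    (hτ : ∀ l, τ l ∈ Om k N h) : 0 < AT S τ := by
  unfold AT
  apply Finset.prod_pos
  intro l _
  apply Finset.prod_pos
  intro i _
  have := (mem_Om hh (hτ l) i).2.1
  omega

lemma AT_le (hh : h ≤ N) (S : Finset (Fin k)) {τ : Fin j → (Σ _ : ℕ, (Fin k → ℕ))}
    (hτ : ∀ l, τ l ∈ Om k N h) : AT S τ ≤ (3 * N) ^ (S.card * j) := by
  unfold AT
  calc ∏ l, ∏ i ∈ S, (τ l).2 i ≤ ∏ _l : Fin j, (3 * N) ^ S.card := by
        apply Finset.prod_le_prod'
        intro l _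
        exact Finset.prod_le_pow_card _ _ _ (fun i _ => (mem_Om hh (hτ l) i).2.2)
    _ = _ := by rw [Finset.prod_const, Finset.card_univ, Fintype.card_fin, ← pow_mul]

lemma uv_le (hh : h ≤ N) (S : Finset (Fin k)) {τ σ : Fin j → (Σ _ : ℕ, (Fin k → ℕ))}
    (hτ : ∀ l, τ l ∈ Om k N h) (hσ : ∀ l, σ l ∈ Om k N h) :
    (AT S τ * AT Sᶜ σ) ^ e ≤ (3 * N) ^ (e * k * j) := by
  have h1 := AT_le hh S hτ
  have h2 := AT_le hh Sᶜ hσ
  have h3 : S.card + Sᶜ.card = k := by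
    rw [Finset.card_add_card_compl, Fintype.card_fin]
  calc (AT S τ * AT Sᶜ σ) ^ e ≤ ((3 * N) ^ (S.card * j) * (3 * N) ^ (Sᶜ.card * j)) ^ e :=
        Nat.pow_le_pow_left (Nat.mul_le_mul h1 h2) e
    _ = (3 * N) ^ (e * k * j) := by
        rw [← pow_add, ← pow_mul, ← add_mul, h3]
        congr 1
        ring

lemma DE_pow (hp : p.Prime) (χ : DirichletCharacter ℂ p) (w : ℕ → ℝ) (S : Finset (Fin k))
    (h3 : 3 * N < p) (hh : h ≤ N) :
    DE (fun n => xc χ n ^ e) w k S N h ^ j =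
      (∑ τ ∈ Fintype.piFinset (fun _ : Fin j => Om k N h), (cT w τ : ℂ) *
        (χ ((AT S τ ^ e : ℕ) : ZMod p) * conj (χ ((AT Sᶜ τ ^ e : ℕ) : ZMod p)))) / (N : ℂ) ^ j := by
  unfold DE
  rw [div_pow, sum_Om k N h (fun t => ∏ i, ((w (t i) : ℂ) * mixf (fun n => xc χ n ^ e) S i (t i))),
    Finset.sum_congr rfl (fun x hx => fact1 (e := e) hp χ w S h3 hh hx)]
  congr 1
  have h1 := Finset.prod_univ_sum (fun _ : Fin j => Om k N h)
    (fun _ x => ((∏ i, w (x.2 i) : ℝ) : ℂ) * (χ ((∏ i ∈ S, x.2 i : ℕ) : ZMod p) ^ e *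
        conj (χ ((∏ i ∈ Sᶜ, x.2 i : ℕ) : ZMod p)) ^ e))
  rw [Finset.prod_const, Finset.card_univ, Fintype.card_fin] at h1
  rw [h1]
  apply Finset.sum_congr rfl
  intro τ _
  rw [Finset.prod_mul_distrib, Finset.prod_mul_distrib]
  congr 1
  · unfold cT; push_cast; rfl
  · unfold AT
    congr 1
    · push_cast
      rw [map_pow, map_prod, ← Finset.prod_pow]
    · push_cast
      rw [map_pow, map_prod, map_pow, map_prod, ← Finset.prod_pow]

lemma pair_term (hp : p.Prime) (S : Finset (Fin k)) (τ σ : Fin j → (Σ _ : ℕ, (Fin k → ℕ)))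
    (he : 1 ≤ e) (hlt : (3 * N) ^ (e * k * j) < p) (hh : h ≤ N)
    (hτ : ∀ l, τ l ∈ Om k N h) (hσ : ∀ l, σ l ∈ Om k N h) :
    ∑ χ : DirichletCharacter ℂ p,
      (χ ((AT S τ ^ e : ℕ) : ZMod p) * conj (χ ((AT Sᶜ τ ^ e : ℕ) : ZMod p))) *
        conj (χ ((AT S σ ^ e : ℕ) : ZMod p) * conj (χ ((AT Sᶜ σ ^ e : ℕ) : ZMod p))) =
      if AT S τ * AT Sᶜ σ = AT Sᶜ τ * AT S σ then ((p - 1 : ℕ) : ℂ) else 0 := by
  have e1 : ∀ χ : DirichletCharacter ℂ p,
      (χ ((AT S τ ^ e : ℕ) : ZMod p) * conj (χ ((AT Sᶜ τ ^ e : ℕ) : ZMod p))) *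
        conj (χ ((AT S σ ^ e : ℕ) : ZMod p) * conj (χ ((AT Sᶜ σ ^ e : ℕ) : ZMod p))) =
      χ (((AT S τ * AT Sᶜ σ) ^ e : ℕ) : ZMod p) *
        conj (χ (((AT Sᶜ τ * AT S σ) ^ e : ℕ) : ZMod p)) := by
    intro χ
    push_cast
    simp only [map_pow, map_mul, Complex.conj_conj, mul_pow]
    ring
  rw [Finset.sum_congr rfl (fun χ _ => e1 χ)]
  have p1 : 0 < (AT S τ * AT Sᶜ σ) ^ e :=
    pow_pos (Nat.mul_pos (AT_pos hh S hτ) (AT_pos hh Sᶜ hσ)) e
  have p2 : 0 < (AT Sᶜ τ * AT S σ) ^ e :=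
    pow_pos (Nat.mul_pos (AT_pos hh Sᶜ hτ) (AT_pos hh S hσ)) e
  have q1 : (AT S τ * AT Sᶜ σ) ^ e < p := lt_of_le_of_lt (uv_le hh S hτ hσ) hlt
  have q2 : (AT Sᶜ τ * AT S σ) ^ e < p := by
    refine lt_of_le_of_lt ?_ hlt
    have := uv_le (e := e) hh Sᶜ hτ hσ
    rwa [compl_compl] at this
  rw [orth hp (fun hd => absurd (Nat.le_of_dvd p1 hd) (not_le.2 q1))
    (fun hd => absurd (Nat.le_of_dvd p2 hd) (not_le.2 q2))]
  have hiff : ((((AT S τ * AT Sᶜ σ) ^ e : ℕ) : ZMod p) = (((AT Sᶜ τ * AT S σ) ^ e : ℕ) : ZMod p)) ↔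
      AT S τ * AT Sᶜ σ = AT Sᶜ τ * AT S σ := by
    constructor
    · intro h
      rw [ZMod.natCast_eq_natCast_iff] at h
      have h4 := Nat.ModEq.eq_of_lt_of_lt h q1 q2
      exact Nat.pow_left_injective (by omega) h4
    · intro h; rw [h]
  by_cases hc : AT S τ * AT Sᶜ σ = AT Sᶜ τ * AT S σ
  · rw [if_pos hc, if_pos (hiff.2 hc)]
  · rw [if_neg hc, if_neg (fun h => hc (hiff.1 h))]

/-- product of the signs of all entries -/
noncomputable def GT (U : Finset ℕ) (τ : Fin j → (Σ _ : ℕ, (Fin k → ℕ))) : ℝ :=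
  ∏ l, ∏ i, cn U ((τ l).2 i)

lemma GT_eq (hh : h ≤ N) (S : Finset (Fin k)) {τ : Fin j → (Σ _ : ℕ, (Fin k → ℕ))}
    (hτ : ∀ l, τ l ∈ Om k N h) (U : Finset ℕ) : GT U τ = lam U (AT S τ * AT Sᶜ τ) := by
  have hne : ∀ l i, (τ l).2 i ≠ 0 := by
    intro l i
    exact (mem_Om hh (hτ l) i).1.ne_zero
  rw [lam_mul U (AT_pos hh S hτ).ne' (AT_pos hh Sᶜ hτ).ne']
  unfold AT GT
  rw [lam_prod U _ _ (fun l _ => Finset.prod_ne_zero_iff.2 fun i _ => hne l i),
    lam_prod U _ _ (fun l _ => Finset.prod_ne_zero_iff.2 fun i _ => hne l i),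
    ← Finset.prod_mul_distrib]
  apply Finset.prod_congr rfl
  intro l _
  rw [lam_prod U _ _ (fun i _ => hne l i), lam_prod U _ _ (fun i _ => hne l i),
    Finset.prod_mul_prod_compl]
  apply Finset.prod_congr rfl
  intro i _
  rw [lam_sqf U (mem_Om hh (hτ l) i).1]

lemma av_GT (hh : h ≤ N) (S : Finset (Fin k)) {τ σ : Fin j → (Σ _ : ℕ, (Fin k → ℕ))}
    (hτ : ∀ l, τ l ∈ Om k N h) (hσ : ∀ l, σ l ∈ Om k N h) :
    (if AT S τ * AT Sᶜ σ = AT Sᶜ τ * AT S σ then (1 : ℝ) else 0) ≤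
      av (PN N) (fun U => GT U τ * GT U σ) := by
  split_ifs with hc
  · have h1 : ∀ U, GT U τ * GT U σ = 1 := by
      intro U
      rw [GT_eq hh S hτ, GT_eq hh S hσ, ← lam_mul U
        (Nat.mul_pos (AT_pos hh S hτ) (AT_pos hh Sᶜ hτ)).ne'
        (Nat.mul_pos (AT_pos hh S hσ) (AT_pos hh Sᶜ hσ)).ne']
      have h2 : AT S τ * AT Sᶜ τ * (AT S σ * AT Sᶜ σ) =
          (AT S τ * AT Sᶜ σ) * (AT S τ * AT Sᶜ σ) := by
        calc AT S τ * AT Sᶜ τ * (AT S σ * AT Sᶜ σ) =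
            (AT S τ * AT Sᶜ σ) * (AT Sᶜ τ * AT S σ) := by ring
          _ = _ := by rw [← hc]
      rw [h2, lam_mul U (Nat.mul_pos (AT_pos hh S hτ) (AT_pos hh Sᶜ hσ)).ne'
        (Nat.mul_pos (AT_pos hh S hτ) (AT_pos hh Sᶜ hσ)).ne', lam_sq]
    rw [av_congr (fun U _ => h1 U), av_const]
  · set T : (Fin j × Fin k) ⊕ (Fin j × Fin k) → ℕ :=
      Sum.elim (fun x => (τ x.1).2 x.2) (fun x => (σ x.1).2 x.2) with hT
    have h1 : ∀ U, GT U τ * GT U σ = ∏ l, cn U (T l) := by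
      intro U
      rw [Fintype.prod_sum_type, Fintype.prod_prod_type, Fintype.prod_prod_type]
      rfl
    rw [av_congr (fun U _ => h1 U)]
    refine av_prod_cn_nonneg (PN_sub N)
      (C := fun _ => (Finset.Ioc N (3 * N)).filter Squarefree) ?_ T ?_
    · intro l n hn
      rw [Finset.mem_filter, Finset.mem_Ioc] at hn
      exact ⟨hn.2, hn.1.1, hn.1.2⟩
    · rintro (x | x)
      · have := mem_Om hh (hτ x.1) x.2
        exact Finset.mem_filter.2 ⟨Finset.mem_Ioc.2 this.2, this.1⟩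
      · have := mem_Om hh (hσ x.1) x.2
        exact Finset.mem_filter.2 ⟨Finset.mem_Ioc.2 this.2, this.1⟩

end CmpAux

open CmpAux in
theorem char_mom {p : ℕ} (hp : p.Prime) (e : ℕ) (he : 1 ≤ e) (w : ℕ → ℝ) (hw : ∀ n, |w n| ≤ 1)
    {k j N h : ℕ} (S : Finset (Fin k)) (hk : 1 ≤ k) (hj : 1 ≤ j) (hN : 1 ≤ N) (hh : h ≤ N)
    (hlt : (3 * N) ^ (e * k * j) < p) :
    ∑ χ : DirichletCharacter ℂ p, ‖DE (fun n => xc χ n ^ e) w k S N h‖ ^ (2 * j) ≤
      p * av (PN N) (fun U => (Dk (fU U) k N h) ^ (2 * j)) := by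
  classical
  have hN0 : (0 : ℝ) < N := by exact_mod_cast hN
  have h3 : 3 * N < p := by
    refine lt_of_le_of_lt ?_ hlt
    calc 3 * N = (3 * N) ^ 1 := (pow_one _).symm
      _ ≤ (3 * N) ^ (e * k * j) := Nat.pow_le_pow_right (by omega)
          (Nat.mul_pos (Nat.mul_pos he hk) hj)
  set T := Fintype.piFinset (fun _ : Fin j => Om k N h) with hT
  have hTm : ∀ τ ∈ T, ∀ l, τ l ∈ Om k N h := fun τ hτ => Fintype.mem_piFinset.1 hτ
  set X : (Fin j → (Σ _ : ℕ, (Fin k → ℕ))) → (Fin j → (Σ _ : ℕ, (Fin k → ℕ))) → Prop :=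
    fun τ σ => AT S τ * AT Sᶜ σ = AT Sᶜ τ * AT S σ with hX
  -- the left side
  have key : ∑ χ : DirichletCharacter ℂ p, ‖DE (fun n => xc χ n ^ e) w k S N h‖ ^ (2 * j) =
      (∑ τ ∈ T, ∑ σ ∈ T, cT w τ * cT w σ * (if X τ σ then ((p - 1 : ℕ) : ℝ) else 0)) /
        (N : ℝ) ^ (2 * j) := by
    apply Complex.ofReal_injective
    have hterm : ∀ χ : DirichletCharacter ℂ p,
        ((‖DE (fun n => xc χ n ^ e) w k S N h‖ ^ (2 * j) : ℝ) : ℂ) =
        (∑ τ ∈ T, ∑ σ ∈ T, ((cT w τ : ℂ) * (cT w σ : ℂ)) *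
          ((χ ((AT S τ ^ e : ℕ) : ZMod p) * conj (χ ((AT Sᶜ τ ^ e : ℕ) : ZMod p))) *
          conj (χ ((AT S σ ^ e : ℕ) : ZMod p) * conj (χ ((AT Sᶜ σ ^ e : ℕ) : ZMod p))))) /
          (N : ℂ) ^ (2 * j) := by
      intro χ
      have e1 : ((‖DE (fun n => xc χ n ^ e) w k S N h‖ ^ (2 * j) : ℝ) : ℂ) =
          DE (fun n => xc χ n ^ e) w k S N h ^ j *
            conj (DE (fun n => xc χ n ^ e) w k S N h ^ j) := by
        rw [Complex.mul_conj', norm_pow]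
        push_cast
        rw [← pow_mul, mul_comm j 2]
      rw [e1, DE_pow (j := j) hp χ w S h3 hh]
      rw [map_div₀, map_sum, div_mul_div_comm, Finset.sum_mul_sum]
      congr 1
      · apply Finset.sum_congr rfl
        intro τ _
        apply Finset.sum_congr rfl
        intro σ _
        rw [map_mul conj ((cT w σ : ℝ) : ℂ), Complex.conj_ofReal]
        ring
      · rw [map_pow, Complex.conj_natCast, two_mul, pow_add]
    push_cast
    have e2 : ∀ χ : DirichletCharacter ℂ p,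
        ((‖DE (fun n => xc χ n ^ e) w k S N h‖ : ℂ)) ^ (2 * j) =
        (∑ τ ∈ T, ∑ σ ∈ T, ((cT w τ : ℂ) * (cT w σ : ℂ)) *
          ((χ ((AT S τ ^ e : ℕ) : ZMod p) * conj (χ ((AT Sᶜ τ ^ e : ℕ) : ZMod p))) *
          conj (χ ((AT S σ ^ e : ℕ) : ZMod p) * conj (χ ((AT Sᶜ σ ^ e : ℕ) : ZMod p))))) /
          (N : ℂ) ^ (2 * j) := by
      intro χ
      rw [← hterm χ]
      push_cast
      rfl
    rw [Finset.sum_congr rfl (fun χ _ => e2 χ), ← Finset.sum_div]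
    congr 1
    rw [Finset.sum_comm]
    apply Finset.sum_congr rfl
    intro τ hτ
    rw [Finset.sum_comm]
    apply Finset.sum_congr rfl
    intro σ hσ
    rw [← Finset.mul_sum, pair_term hp S τ σ he hlt hh (hTm τ hτ) (hTm σ hσ)]
    congr 1
    by_cases hc : X τ σ
    · rw [if_pos hc, if_pos hc, Complex.ofReal_natCast]
    · rw [if_neg hc, if_neg hc, Complex.ofReal_zero]
  rw [key, div_le_iff₀ (by positivity)]
  -- bound by the count
  have b1 : ∑ τ ∈ T, ∑ σ ∈ T, cT w τ * cT w σ * (if X τ σ then ((p - 1 : ℕ) : ℝ) else 0) ≤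
      ∑ τ ∈ T, ∑ σ ∈ T, (p : ℝ) * av (PN N) (fun U => GT U τ * GT U σ) := by
    apply Finset.sum_le_sum
    intro τ hτ
    apply Finset.sum_le_sum
    intro σ hσ
    have hav := av_GT hh S (hTm τ hτ) (hTm σ hσ)
    have hcc : cT w τ * cT w σ ≤ 1 := by
      have h1 := abs_cT hw τ
      have h2 := abs_cT hw σ
      calc cT w τ * cT w σ ≤ |cT w τ * cT w σ| := le_abs_self _
        _ = |cT w τ| * |cT w σ| := abs_mul _ _
        _ ≤ 1 * 1 := mul_le_mul h1 h2 (abs_nonneg _) zero_le_one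
        _ = 1 := one_mul 1
    have hpp : ((p - 1 : ℕ) : ℝ) ≤ p := by exact_mod_cast Nat.sub_le p 1
    by_cases hc : X τ σ
    · rw [if_pos hc]
      rw [if_pos hc] at hav
      calc cT w τ * cT w σ * ((p - 1 : ℕ) : ℝ) ≤ 1 * ((p - 1 : ℕ) : ℝ) :=
            mul_le_mul_of_nonneg_right hcc (Nat.cast_nonneg _)
        _ ≤ (p : ℝ) * 1 := by linarith
        _ ≤ _ := mul_le_mul_of_nonneg_left hav (Nat.cast_nonneg _)
    · rw [if_neg hc, mul_zero]
      rw [if_neg hc] at hav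
      exact mul_nonneg (Nat.cast_nonneg _) hav
  refine b1.trans (le_of_eq ?_)
  -- the right side
  have e3 : ∀ U, (Dk (fU U) k N h) ^ (2 * j) =
      (∑ τ ∈ T, ∑ σ ∈ T, GT U τ * GT U σ) * (1 / (N : ℝ) ^ (2 * j)) := by
    intro U
    rw [Dk_fU]
    unfold NT
    rw [sum_Om k N h (fun t => ∏ i, cn U (t i)), div_pow, two_mul, pow_add]
    have h1 := Finset.prod_univ_sum (fun _ : Fin j => Om k N h)
      (fun _ x => ∏ i, cn U (x.2 i))
    rw [Finset.prod_const, Finset.card_univ, Fintype.card_fin] at h1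
    rw [h1, Finset.sum_mul_sum]
    unfold GT
    rw [div_eq_mul_one_div]
  have e4 : av (PN N) (fun U => (Dk (fU U) k N h) ^ (2 * j)) =
      (1 / (N : ℝ) ^ (2 * j)) * ∑ τ ∈ T, ∑ σ ∈ T, av (PN N) (fun U => GT U τ * GT U σ) := by
    rw [av_congr (fun U _ => (e3 U).trans (mul_comm _ _)), av_const_mul, av_sum]
    congr 1
    apply Finset.sum_congr rfl
    intro τ _
    rw [av_sum]
  rw [e4]
  simp only [← Finset.mul_sum]
  field_simp

end Pool.Agent.P4f18dfC
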