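import Pool.Agent.Lib.P4f18dfC.Defs
import Pool.Agent.Lib.P4f18dfC.Gm
import Pool.Agent.Lib.P4f18df.Moments
import Pool.Agent.Lib.P4f18df.Real

/-!
# From discrete to continuous moments

Module CX.Cont.  `Md c k X H = (1/X) ∫_X^{2X} (Ms c x H / √(H/ζ(2)))^k dx`, `Mg c k N h` is the discrete moment.  Write
`N = ⌊X⌋₊`, `N' = (N + 1) / 2`, `h = ⌊H⌋₊`, `W a = Wd c h a`, `G y = (W ⌊y⌋₊)^k`.
(1) `|Ms c x H - W ⌊x - H/2⌋₊| ≤ 4` (for `|c| ≤ 1` this is `Ms_sub_Wd`, `Lib/P4f18df/Real.lean`, with `2`; apply it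
to the proof with the bound `2` on the values, or copy).
(2) `∫_X^{2X} (W ⌊x - H/2⌋₊)^k dx = ∫_{X-H/2}^{2X-H/2} G` and it differs from `∫_N^{2N} G + O(h^k)`,
`∫_{N+1}^{2N+1} G = ∑_{a ∈ Ioc N (2N)} (W a)^k` (`integral_floor_real`), by integrals over two
intervals of total length `≤ 2H + 4`, contained in `[N', 2N+1]`; by Cauchy-Schwarz these are at most
`(2H+4)^(1/2) (∑_{Ioc N' (2N')} (W a)^(2k) + ∑_{Ioc N (2N)} (W a)^(2k))^(1/2) ≤ (2H+4)^(1/2) (3 X (gm (2k) + 1) (h c2)^k)^(1/2)`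
(hypothesis for `j = 2k ≤ K` at `N` and `N'`), which is `≤ small * X * (√(H c2))^k` since
`H/X ≤ X^(-ε) → 0`.
(3) replacing `W` by `Ms`: `|a^k - b^k| ≤ k |a - b| (|a| + |b|)^(k-1)`, `|a - b| ≤ 4`, and the
`(2k)`-th moment bound again (or the elementary bound in `even_bound_fix`, `Lib/P4f18dfT/QMom.lean`): error
`O(1/√H)` relatively.  (4) `√(h c2)` against `√(H c2)`: ratio `1 + O(1/H)`; `sig`, `c2`: `H/(π²/6) = H c2`.
As `K → ∞` all errors tend to `0` (`X ≥ K` because `K ≤ H ≤ X^(1-ε)`, `X ≥ 1`).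
A proof by contradiction with sequences (as in `Lib/P4f18dfT/QMom.lean`) is just as good.
-/

set_option autoImplicit false

namespace Pool.Agent.P4f18dfC

open Finset MeasureTheory Pool.Agent.P4f18df Pool.Agent.P4f18dfT

namespace ContAux

open Filter

lemma abs_Wd_le2 {c : ℕ → ℝ} (hc : ∀ n, |c n| ≤ 2) (h a : ℕ) : |Wd c h a| ≤ 2 * h := by
  unfold Wd
  refine le_trans (Finset.abs_sum_le_sum_abs _ _) ?_
  refine le_trans (Finset.sum_le_sum (fun n _ => hc n)) ?_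
  simp [mul_comm]

lemma Ms_sub_Wd2 {f : ℕ → ℝ} (hf : ∀ n, |f n| ≤ 2) {x H : ℝ} (hH : 0 ≤ H) (hx : 0 ≤ x - H / 2) :
    |Ms f x H - Wd f ⌊H⌋₊ ⌊x - H / 2⌋₊| ≤ 4 := by
  set a := ⌊x - H / 2⌋₊ with ha
  set h := ⌊H⌋₊ with hh
  set S := (Finset.range (⌊x + H⌋₊ + 1)).filter (fun n : ℕ => |(n : ℝ) - x| < H / 2) with hS
  have a1 : (a : ℝ) ≤ x - H / 2 := Nat.floor_le hx
  have a2 : x - H / 2 < a + 1 := Nat.lt_floor_add_one _
  have b1 : (h : ℝ) ≤ H := Nat.floor_le hH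
  have b2 : H < h + 1 := Nat.lt_floor_add_one _
  have hSm : ∀ n : ℕ, n ∈ S ↔ |(n : ℝ) - x| < H / 2 := by
    intro n
    rw [hS, Finset.mem_filter, Finset.mem_range]
    constructor
    · exact fun h => h.2
    · intro h
      refine ⟨?_, h⟩
      rw [abs_lt] at h
      have : (n : ℝ) ≤ x + H := by linarith
      have := Nat.le_floor this
      omega
  have h1 : S \ Ioc a (a + h) ⊆ {a + h + 1} := by
    intro n hn
    rw [Finset.mem_sdiff, hSm, Finset.mem_Ioc, abs_lt] at hn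
    rw [Finset.mem_singleton]
    have c1 : (a : ℝ) < n := by linarith [hn.1.1]
    have c2 : (n : ℝ) < a + h + 2 := by linarith [hn.1.2]
    have d1 : a < n := by exact_mod_cast c1
    have d2 : n < a + h + 2 := by exact_mod_cast c2
    have := hn.2
    omega
  have h2 : Ioc a (a + h) \ S ⊆ {a + h} := by
    intro n hn
    rw [Finset.mem_sdiff, hSm, Finset.mem_Ioc, abs_lt] at hn
    rw [Finset.mem_singleton]
    obtain ⟨⟨n1, n2⟩, n3⟩ := hn
    by_contra hne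
    have n4 : n + 1 ≤ a + h := by omega
    have c1 : (a : ℝ) + 1 ≤ n := by exact_mod_cast n1
    have c2 : (n : ℝ) + 1 ≤ a + h := by exact_mod_cast n4
    exact n3 ⟨by linarith, by linarith⟩
  have e : Ms f x H - Wd f h a = ∑ n ∈ S \ Ioc a (a + h), f n - ∑ n ∈ Ioc a (a + h) \ S, f n := by
    unfold Ms Wd
    rw [Finset.sum_sdiff_sub_sum_sdiff]
  rw [e]
  have k1 : |∑ n ∈ S \ Ioc a (a + h), f n| ≤ 2 := by
    refine le_trans (Finset.abs_sum_le_sum_abs _ _) ?_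
    refine le_trans (Finset.sum_le_sum_of_subset_of_nonneg h1 (fun _ _ _ => abs_nonneg _)) ?_
    rw [Finset.sum_singleton]; exact hf _
  have k2 : |∑ n ∈ Ioc a (a + h) \ S, f n| ≤ 2 := by
    refine le_trans (Finset.abs_sum_le_sum_abs _ _) ?_
    refine le_trans (Finset.sum_le_sum_of_subset_of_nonneg h2 (fun _ _ _ => abs_nonneg _)) ?_
    rw [Finset.sum_singleton]; exact hf _
  calc _ ≤ |∑ n ∈ S \ Ioc a (a + h), f n| + |∑ n ∈ Ioc a (a + h) \ S, f n| := abs_sub _ _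
    _ ≤ 4 := by linarith

lemma max_pow_le (V : ℝ) (k : ℕ) : (max 1 |V|) ^ k ≤ 1 + V ^ (2 * k) := by
  have hV : 0 ≤ V ^ (2 * k) := by rw [pow_mul]; positivity
  rcases le_total 1 |V| with h | h
  · rw [max_eq_right h]
    have h1 : |V| ^ k ≤ |V| ^ (2 * k) := pow_le_pow_right₀ h (by omega)
    rw [(even_two_mul k).pow_abs] at h1
    linarith
  · rw [max_eq_left h, one_pow]
    linarith

lemma ptw {D V η : ℝ} (hη : 0 ≤ η) (hη1 : η ≤ 1) (h : |D - V| ≤ η * (1 + |V|)) (k : ℕ) :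
    |D ^ k - V ^ k| ≤ η * (k * 4 ^ k) * (1 + V ^ (2 * k)) := by
  rcases Nat.eq_zero_or_pos k with h0 | h0
  · subst h0
    simp
  have hV := abs_nonneg V
  have h1 := abs_pow_sub_pow_le D V k
  have h2 : max |D| |V| ≤ 2 * (1 + |V|) := by
    apply max_le
    · have h3 : |D| ≤ |D - V| + |V| := by
        calc |D| = |(D - V) + V| := by congr 1; ring
          _ ≤ _ := abs_add_le _ _
      nlinarith
    · linarith
  have h3 : (max |D| |V|) ^ (k - 1) ≤ (2 * (1 + |V|)) ^ (k - 1) :=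
    pow_le_pow_left₀ (le_max_of_le_right hV) h2 _
  have h4 : (1 + |V|) * (2 * (1 + |V|)) ^ (k - 1) ≤ (2 * (1 + |V|)) ^ k := by
    have e : (2 * (1 + |V|)) ^ k = (2 * (1 + |V|)) * (2 * (1 + |V|)) ^ (k - 1) := by
      rw [← pow_succ']
      congr 1
      omega
    rw [e]
    apply mul_le_mul_of_nonneg_right _ (by positivity)
    linarith
  have h5 : (2 * (1 + |V|)) ^ k ≤ 4 ^ k * (1 + V ^ (2 * k)) := by
    calc (2 * (1 + |V|)) ^ k ≤ (4 * max 1 |V|) ^ k := by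
          apply pow_le_pow_left₀ (by positivity)
          have := le_max_left 1 |V|
          have := le_max_right 1 |V|
          linarith
      _ = 4 ^ k * (max 1 |V|) ^ k := mul_pow _ _ _
      _ ≤ _ := mul_le_mul_of_nonneg_left (max_pow_le V k) (by positivity)
  have hk : (0:ℝ) ≤ k := Nat.cast_nonneg k
  calc |D ^ k - V ^ k| ≤ |D - V| * k * max |D| |V| ^ (k - 1) := h1
    _ ≤ (η * (1 + |V|)) * k * (2 * (1 + |V|)) ^ (k - 1) := by gcongr
    _ = η * k * ((1 + |V|) * (2 * (1 + |V|)) ^ (k - 1)) := by ring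
    _ ≤ η * k * (4 ^ k * (1 + V ^ (2 * k))) := by
        apply mul_le_mul_of_nonneg_left (h4.trans h5) (by positivity)
    _ = _ := by ring

lemma abs_pow_le_T (V T : ℝ) (hT : 0 < T) (k : ℕ) : |V ^ k| ≤ T + V ^ (2 * k) / T := by
  have h1 : V ^ (2 * k) = |V ^ k| ^ 2 := by
    rw [sq_abs, ← pow_mul, mul_comm]
  rw [h1]
  have h2 := abs_nonneg (V ^ k)
  rw [← sub_nonneg]
  have h3 : T + |V ^ k| ^ 2 / T - |V ^ k| = ((T - |V ^ k| / 2) ^ 2 + 3 / 4 * |V ^ k| ^ 2) / T := by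
    field_simp
    ring
  rw [h3]
  positivity

lemma le_of_rpow {ε X H : ℝ} (hε : 0 < ε) (hε1 : ε < 1) (hX : 0 < X) (hH : 1 ≤ H)
    (h : H ≤ X ^ (1 - ε)) : H ≤ X := by
  have h1 : 1 ≤ X := by
    by_contra hc
    have := Real.rpow_lt_one hX.le (not_le.mp hc) (by linarith : 0 < 1 - ε)
    linarith
  refine h.trans ?_
  calc X ^ (1 - ε) ≤ X ^ (1 : ℝ) := Real.rpow_le_rpow_of_exponent_le h1 (by linarith)
    _ = X := Real.rpow_one X

set_option maxHeartbeats 4000000 in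
/-- the deterministic comparison -/
lemma main {c : ℕ → ℝ} (hc : ∀ n, |c n| ≤ 2) {k : ℕ} {X H : ℝ} (g9 : 100 ≤ X)
    (g8 : 8 ≤ H) (hHX : H ≤ X / 10000) (M2 : ℝ) (hM2 : 0 ≤ M2)
    (v : Mg c (2 * k) ⌊X⌋₊ ⌊H⌋₊ ≤ M2) (v' : Mg c (2 * k) ((⌊X⌋₊ + 1) / 2) ⌊H⌋₊ ≤ M2)
    (T : ℝ) (hT : 0 < T) (η : ℝ) (hη : 4 / Real.sqrt (c2 * H) + 1 / H ≤ η) (hη1 : η ≤ 1) :
    |Md c k X H - (⌊X⌋₊ : ℝ) / X * Mg c k ⌊X⌋₊ ⌊H⌋₊| ≤
      η * (k * 4 ^ k) * (1 + 2 * M2) + (2 * T * H / X + 4 * M2 / T) := by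
  have hc2 := c2_pos
  have hX0 : (0:ℝ) < X := by linarith
  have hH0 : (0:ℝ) < H := by linarith
  set N := ⌊X⌋₊ with hN
  set h := ⌊H⌋₊ with hh
  set N' := (N + 1) / 2 with hN'
  have n1 : (N : ℝ) ≤ X := Nat.floor_le (by linarith)
  have n2 : X < N + 1 := Nat.lt_floor_add_one _
  have b1 : (h : ℝ) ≤ H := Nat.floor_le (by linarith)
  have b2 : H < h + 1 := Nat.lt_floor_add_one _
  have hN100 : 100 ≤ N := Nat.le_floor (by exact_mod_cast g9)
  have hNr : (100:ℝ) ≤ N := by exact_mod_cast hN100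
  have hh8 : 8 ≤ h := Nat.le_floor (by exact_mod_cast g8)
  have hhr : (8:ℝ) ≤ h := by exact_mod_cast hh8
  have hN'X : X / 4 ≤ (N' : ℝ) := by
    have : N ≤ 2 * N' := by omega
    have h2 : (N : ℝ) ≤ 2 * N' := by exact_mod_cast this
    linarith
  have hN'le : (N' : ℝ) ≤ X := by
    have : (N' : ℝ) ≤ N := by exact_mod_cast (by omega : N' ≤ N)
    linarith
  have hNX4 : X / 4 ≤ (N : ℝ) := by linarith
  have hhN : (h : ℝ) ≤ N / 1000 := by linarith
  have hhN' : 1000 * h ≤ N := by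
    have : 1000 * (h : ℝ) ≤ N := by linarith
    exact_mod_cast this
  set s : ℝ := Real.sqrt (c2 * H) with hs
  set sh : ℝ := Real.sqrt (h * c2) with hsh
  have hs0 : 0 < s := Real.sqrt_pos.2 (by positivity)
  have hsh0 : 0 < sh := Real.sqrt_pos.2 (by positivity)
  have hs2 : s ^ 2 = c2 * H := Real.sq_sqrt (by positivity)
  have hsh2 : sh ^ 2 = h * c2 := Real.sq_sqrt (by positivity)
  have hshs : sh ≤ s := by
    apply Real.sqrt_le_sqrt
    nlinarith
  have hsig : Real.sqrt (H / (Real.pi ^ 2 / 6)) = s := by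
    rw [hs]
    congr 1
    unfold c2
    field_simp
  set W : ℕ → ℝ := fun a => Wd c h a / sh with hW
  -- sums
  have hsum : ∀ (j n : ℕ), 0 < n → ∑ a ∈ Ioc n (2 * n), (W a) ^ j = n * Mg c j n h := by
    intro j n hn
    have hn' : (n : ℝ) ≠ 0 := by exact_mod_cast hn.ne'
    unfold Mg
    rw [← hsh]
    simp only [hW, div_pow]
    rw [← Finset.sum_div]
    field_simp
  have hWb : ∀ a, |W a| ≤ 2 * h / sh := by
    intro a
    simp only [hW]
    rw [abs_div, abs_of_pos hsh0]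
    exact div_le_div_of_nonneg_right (abs_Wd_le2 hc h a) hsh0.le
  have hGm : ∀ j, Measurable (fun y : ℝ => (W ⌊y⌋₊) ^ j) := fun j =>
    measurable_floor_comp_real (fun a => (W a) ^ j)
  have hGb : ∀ j, ∀ y : ℝ, |(W ⌊y⌋₊) ^ j| ≤ (2 * h / sh) ^ j := by
    intro j y
    rw [abs_pow]
    exact pow_le_pow_left₀ (abs_nonneg _) (hWb _) _
  have hGi : ∀ j a b, IntervalIntegrable (fun y : ℝ => (W ⌊y⌋₊) ^ j) volume a b := fun j =>
    intervalIntegrable_of_bdd_real (hGm j) _ (hGb j)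
  have hGev : ∀ a : ℕ, 0 ≤ (W a) ^ (2 * k) := fun a => by
    rw [pow_mul]; positivity
  set m := ⌊X - H / 2⌋₊ with hm'
  have m1 : (m : ℝ) ≤ X - H / 2 := Nat.floor_le (by linarith)
  have m2 : X - H / 2 < m + 1 := Nat.lt_floor_add_one _
  have mN : m ≤ 2 * N + 1 := by
    have : (m : ℝ) ≤ ((2 * N + 1 : ℕ) : ℝ) := by push_cast; linarith
    exact_mod_cast this
  have mlow : N ≤ m + h + 2 := by
    have : (N : ℝ) ≤ ((m + h + 2 : ℕ) : ℝ) := by push_cast; linarith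
    exact_mod_cast this
  have E0 : ∫ y in (m : ℝ)..((2 * N + 1 : ℕ) : ℝ), (W ⌊y⌋₊) ^ (2 * k) ≤ 2 * X * M2 := by
    rw [integral_floor_real (fun a => (W a) ^ (2 * k)) m (2 * N + 1) mN]
    have hsub : Ico m (2 * N + 1) ⊆ Ioc N' (2 * N') ∪ Ioc N (2 * N) := by
      intro a ha
      rw [Finset.mem_Ico] at ha
      rw [Finset.mem_union, Finset.mem_Ioc, Finset.mem_Ioc]
      omega
    calc ∑ a ∈ Ico m (2 * N + 1), (W a) ^ (2 * k)
        ≤ ∑ a ∈ Ioc N' (2 * N') ∪ Ioc N (2 * N), (W a) ^ (2 * k) :=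
          Finset.sum_le_sum_of_subset_of_nonneg hsub (fun a _ _ => hGev a)
      _ ≤ ∑ a ∈ Ioc N' (2 * N'), (W a) ^ (2 * k) +
          ∑ a ∈ Ioc N (2 * N), (W a) ^ (2 * k) := by
          rw [← Finset.sum_union_inter]
          have : 0 ≤ ∑ a ∈ Ioc N' (2 * N') ∩ Ioc N (2 * N), (W a) ^ (2 * k) :=
            Finset.sum_nonneg (fun a _ => hGev a)
          linarith
      _ = N' * Mg c (2 * k) N' h + N * Mg c (2 * k) N h := by
          rw [hsum _ _ (by omega), hsum _ _ (by omega)]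
      _ ≤ N' * M2 + N * M2 := by gcongr
      _ ≤ X * M2 + X * M2 := by gcongr
      _ = _ := by ring
  -- even moments over subintervals
  have E1 : ∀ a b : ℝ, (m : ℝ) ≤ a → a ≤ b → b ≤ ((2 * N + 1 : ℕ) : ℝ) →
      ∫ y in a..b, (W ⌊y⌋₊) ^ (2 * k) ≤ 2 * X * M2 := by
    intro a b h1 h2 h3
    refine le_trans (intervalIntegral.integral_mono_interval h1 h2 h3 ?_ (hGi _ _ _)) E0
    exact Filter.Eventually.of_forall (fun y => hGev _)
  -- k-th moments over short intervals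
  have E2 : ∀ a b : ℝ, (m : ℝ) ≤ a → a ≤ b → b ≤ ((2 * N + 1 : ℕ) : ℝ) → b - a ≤ H →
      |∫ y in a..b, (W ⌊y⌋₊) ^ k| ≤ T * H + 2 * X * M2 / T := by
    intro a b h1 h2 h3 h4
    calc |∫ y in a..b, (W ⌊y⌋₊) ^ k| ≤ ∫ y in a..b, |(W ⌊y⌋₊) ^ k| :=
          intervalIntegral.abs_integral_le_integral_abs h2
      _ ≤ ∫ y in a..b, (T + (W ⌊y⌋₊) ^ (2 * k) / T) := by
          apply intervalIntegral.integral_mono_on h2 (hGi _ _ _).abs
            (intervalIntegrable_const.add ((hGi _ _ _).div_const _))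
          intro y _
          exact abs_pow_le_T _ T hT k
      _ = (b - a) * T + (∫ y in a..b, (W ⌊y⌋₊) ^ (2 * k)) / T := by
          rw [intervalIntegral.integral_add intervalIntegrable_const ((hGi _ _ _).div_const _),
            intervalIntegral.integral_const, intervalIntegral.integral_div, smul_eq_mul]
      _ ≤ H * T + 2 * X * M2 / T := by
          have := E1 a b h1 h2 h3
          gcongr
      _ = _ := by ring
  -- shift
  have A1 : (∫ x in X..(2 * X), (W ⌊x - H / 2⌋₊) ^ k) =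
      ∫ y in (X - H / 2)..(2 * X - H / 2), (W ⌊y⌋₊) ^ k := by
    rw [← intervalIntegral.integral_comp_sub_right (fun y => (W ⌊y⌋₊) ^ k) (H / 2)]
  have A2 : (∫ x in X..(2 * X), (W ⌊x - H / 2⌋₊) ^ (2 * k)) =
      ∫ y in (X - H / 2)..(2 * X - H / 2), (W ⌊y⌋₊) ^ (2 * k) := by
    rw [← intervalIntegral.integral_comp_sub_right (fun y => (W ⌊y⌋₊) ^ (2 * k)) (H / 2)]
  have A3 : ∫ y in ((N + 1 : ℕ) : ℝ)..((2 * N + 1 : ℕ) : ℝ), (W ⌊y⌋₊) ^ k = N * Mg c k N h := by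
    rw [integral_floor_real (fun a => (W a) ^ k) (N + 1) (2 * N + 1) (by omega),
      ← hsum _ _ (by omega)]
    congr 1
    ext a
    rw [Finset.mem_Ico, Finset.mem_Ioc]
    omega
  have A4 : (∫ y in (X - H / 2)..(2 * X - H / 2), (W ⌊y⌋₊) ^ k) - N * Mg c k N h =
      (∫ y in (X - H / 2)..((N + 1 : ℕ) : ℝ), (W ⌊y⌋₊) ^ k) -
        ∫ y in (2 * X - H / 2)..((2 * N + 1 : ℕ) : ℝ), (W ⌊y⌋₊) ^ k := by
    rw [← A3]
    have e1 := intervalIntegral.integral_add_adjacent_intervals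
      (hGi k (X - H / 2) (2 * X - H / 2)) (hGi k (2 * X - H / 2) ((2 * N + 1 : ℕ) : ℝ))
    have e2 := intervalIntegral.integral_add_adjacent_intervals
      (hGi k (X - H / 2) ((N + 1 : ℕ) : ℝ)) (hGi k ((N + 1 : ℕ) : ℝ) ((2 * N + 1 : ℕ) : ℝ))
    linarith
  have A5 : |(∫ y in (X - H / 2)..(2 * X - H / 2), (W ⌊y⌋₊) ^ k) - N * Mg c k N h| ≤
      2 * (T * H + 2 * X * M2 / T) := by
    rw [A4]
    have f1 := E2 (X - H / 2) ((N + 1 : ℕ) : ℝ) m1 (by push_cast; linarith) (by push_cast; linarith)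
      (by push_cast; linarith)
    have f2 := E2 (2 * X - H / 2) ((2 * N + 1 : ℕ) : ℝ) (by linarith) (by push_cast; linarith)
      le_rfl (by push_cast; linarith)
    refine le_trans (abs_sub _ _) ?_
    linarith
  -- replace W by Ms
  have hD : ∀ x ∈ Set.Icc X (2 * X), |Zm c X H x - W ⌊x - H / 2⌋₊| ≤
      η * (1 + |W ⌊x - H / 2⌋₊|) := by
    intro x hx
    rw [Zm_eq (by linarith) hx.2]
    unfold sig
    rw [hsig]
    have h1 := Ms_sub_Wd2 hc (x := x) (H := H) (by linarith) (by linarith [hx.1])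
    rw [← hh] at h1
    set V := W ⌊x - H / 2⌋₊ with hV
    have e1 : Wd c h ⌊x - H / 2⌋₊ = V * sh := by
      rw [hV, hW]
      field_simp
    rw [e1] at h1
    have e2 : Ms c x H / s - V = (Ms c x H - V * sh) / s - V * ((s - sh) / s) := by
      field_simp
      ring
    have h2 : (s - sh) / s ≤ 1 / H := by
      rw [div_le_div_iff₀ hs0 hH0]
      have h3 : (s - sh) * (s + sh) ≤ c2 := by
        have : (s - sh) * (s + sh) = c2 * H - h * c2 := by
          rw [← hs2, ← hsh2]; ring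
        rw [this]
        nlinarith
      have h4 : (s - sh) * s ≤ c2 := by
        have : 0 ≤ (s - sh) * sh := mul_nonneg (by linarith) hsh0.le
        nlinarith
      have h5 : (s - sh) * H * s * c2 ≤ s * s * c2 := by
        have e3 : (s - sh) * H * s * c2 = ((s - sh) * s) * s ^ 2 := by rw [hs2]; ring
        rw [e3]
        have : ((s - sh) * s) * s ^ 2 ≤ c2 * s ^ 2 :=
          mul_le_mul_of_nonneg_right h4 (by positivity)
        nlinarith
      have h6 : (s - sh) * H * (s * c2) ≤ 1 * s * (s * c2) := by nlinarith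
      exact le_of_mul_le_mul_right h6 (by positivity)
    have h2' : 0 ≤ (s - sh) / s := div_nonneg (by linarith) hs0.le
    rw [e2]
    calc |(Ms c x H - V * sh) / s - V * ((s - sh) / s)|
        ≤ |(Ms c x H - V * sh) / s| + |V * ((s - sh) / s)| := abs_sub _ _
      _ = |Ms c x H - V * sh| / s + |V| * ((s - sh) / s) := by
          rw [abs_div, abs_of_pos hs0, abs_mul, abs_of_nonneg h2']
      _ ≤ 4 / s + |V| * (1 / H) := by
          gcongr
      _ ≤ η * (1 + |V|) := by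
          have k1 : 0 < 4 / s := by positivity
          have k2 : 0 < 1 / H := by positivity
          have k3 := abs_nonneg V
          calc 4 / s + |V| * (1 / H) ≤ η + |V| * η :=
                add_le_add (by linarith) (mul_le_mul_of_nonneg_left (by linarith) k3)
            _ = η * (1 + |V|) := by ring
  have hη0 : 0 ≤ η := by
    have : 0 < 4 / s + 1 / H := by positivity
    linarith
  have hZm := measurable_Zm c X H
  have hZb : ∀ x, |(Zm c X H x) ^ k| ≤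
      ((2 * (⌊2 * X + H⌋₊ + 1 : ℕ) : ℝ) / sig H) ^ k := by
    intro x
    rw [abs_pow]
    apply pow_le_pow_left₀ (abs_nonneg _)
    have hsigp : 0 < sig H := by unfold sig; rw [hsig]; exact hs0
    unfold Zm
    rw [abs_div, abs_of_pos hsigp]
    apply div_le_div_of_nonneg_right _ hsigp.le
    refine le_trans (Finset.abs_sum_le_sum_abs _ _) ?_
    calc ∑ n ∈ Finset.range (⌊2 * X + H⌋₊ + 1), |if |(n : ℝ) - x| < H / 2 then c n else 0|
        ≤ ∑ n ∈ Finset.range (⌊2 * X + H⌋₊ + 1), (2:ℝ) := by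
          apply Finset.sum_le_sum
          intro n _
          split_ifs
          · exact hc n
          · simp
      _ = _ := by simp [mul_comm]
  have hZi : IntervalIntegrable (fun x => (Zm c X H x) ^ k) volume X (2 * X) :=
    intervalIntegrable_of_bdd_real (hZm.pow_const _) _ hZb _ _
  have hWi : ∀ j, IntervalIntegrable (fun x : ℝ => (W ⌊x - H / 2⌋₊) ^ j) volume X (2 * X) := by
    intro j
    exact intervalIntegrable_of_bdd_real ((hGm j).comp (by fun_prop : Measurable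
      (fun x : ℝ => x - H / 2))) ((2 * h / sh) ^ j) (fun x => hGb j (x - H / 2)) _ _
  have B1 : |(∫ x in X..(2 * X), (Zm c X H x) ^ k) -
      ∫ x in X..(2 * X), (W ⌊x - H / 2⌋₊) ^ k| ≤ η * (k * 4 ^ k) * (X + 2 * X * M2) := by
    rw [← intervalIntegral.integral_sub hZi (hWi k)]
    calc |∫ x in X..(2 * X), ((Zm c X H x) ^ k - (W ⌊x - H / 2⌋₊) ^ k)|
        ≤ ∫ x in X..(2 * X), |(Zm c X H x) ^ k - (W ⌊x - H / 2⌋₊) ^ k| :=
          intervalIntegral.abs_integral_le_integral_abs (by linarith)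
      _ ≤ ∫ x in X..(2 * X), η * (k * 4 ^ k) * (1 + (W ⌊x - H / 2⌋₊) ^ (2 * k)) := by
          apply intervalIntegral.integral_mono_on (by linarith) (hZi.sub (hWi k)).abs
            ((intervalIntegrable_const.add (hWi _)).const_mul _)
          intro x hx
          exact ptw hη0 hη1 (hD x hx) k
      _ = η * (k * 4 ^ k) * (X + ∫ y in (X - H / 2)..(2 * X - H / 2), (W ⌊y⌋₊) ^ (2 * k)) := by
          rw [intervalIntegral.integral_const_mul, intervalIntegral.integral_add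
            intervalIntegrable_const (hWi _), intervalIntegral.integral_const, A2, smul_eq_mul]
          ring
      _ ≤ _ := by
          have := E1 (X - H / 2) (2 * X - H / 2) m1 (by linarith) (by push_cast; linarith)
          gcongr
  have B2 : Md c k X H = (∫ x in X..(2 * X), (Zm c X H x) ^ k) / X := by
    unfold Md
    congr 1
    apply intervalIntegral.integral_congr
    intro x hx
    rw [Set.uIcc_of_le (by linarith)] at hx
    simp only
    rw [Zm_eq (by linarith) hx.2]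
    rfl
  rw [B2, div_mul_eq_mul_div, ← sub_div, abs_div, abs_of_pos hX0, div_le_iff₀ hX0]
  rw [A1] at B1
  calc |(∫ x in X..(2 * X), (Zm c X H x) ^ k) - N * Mg c k N h|
      = |((∫ x in X..(2 * X), (Zm c X H x) ^ k) -
          ∫ y in (X - H / 2)..(2 * X - H / 2), (W ⌊y⌋₊) ^ k) +
        ((∫ y in (X - H / 2)..(2 * X - H / 2), (W ⌊y⌋₊) ^ k) - N * Mg c k N h)| := by
        congr 1; ring
    _ ≤ _ := abs_add_le _ _
    _ ≤ η * (k * 4 ^ k) * (X + 2 * X * M2) + 2 * (T * H + 2 * X * M2 / T) := add_le_add B1 A5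
    _ = _ := by
        field_simp
        ring

end ContAux

open ContAux Filter in
theorem cont_mom (ε : ℝ) (hε : 0 < ε) (hε1 : ε < 1) (k : ℕ) (δ : ℝ) (hδ : 0 < δ) :
    ∃ K : ℕ, 1 ≤ K ∧ ∀ c : ℕ → ℝ, (∀ n, |c n| ≤ 2) → ∀ X H : ℝ, 0 < X → (K : ℝ) ≤ H →
      H ≤ X ^ (1 - ε) →
      (∀ j ≤ K, |Mg c j ⌊X⌋₊ ⌊H⌋₊ - gm j| ≤ 1 / K) →
      (∀ j ≤ K, |Mg c j ((⌊X⌋₊ + 1) / 2) ⌊H⌋₊ - gm j| ≤ 1 / K) →
        |Md c k X H - gm k| ≤ δ := by
  have hc2 := c2_pos
  set M2 : ℝ := gm (2 * k) + 1 with hM2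
  have hM2' : 1 ≤ M2 := by have := gm_nonneg (2 * k); linarith
  set T : ℝ := 32 * M2 / δ with hT
  have hT0 : 0 < T := by positivity
  have tK : Tendsto (fun K : ℕ => (K : ℝ)) atTop atTop := tendsto_natCast_atTop_atTop
  have t1 : Tendsto (fun K : ℕ => (1:ℝ) / K) atTop (nhds 0) := tendsto_const_nhds.div_atTop tK
  have t3 : Tendsto (fun K : ℕ => (|gm k| + 1) / (K : ℝ)) atTop (nhds 0) :=
    tendsto_const_nhds.div_atTop tK
  have t4 : Tendsto (fun K : ℕ => 4 / Real.sqrt (c2 * K) + 1 / (K : ℝ)) atTop (nhds 0) := by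
    have : Tendsto (fun K : ℕ => 4 / Real.sqrt (c2 * K)) atTop (nhds 0) :=
      tendsto_const_nhds.div_atTop (Real.tendsto_sqrt_atTop.comp (tK.const_mul_atTop hc2))
    simpa using this.add t1
  have t4' : Tendsto (fun K : ℕ => (4 / Real.sqrt (c2 * K) + 1 / (K : ℝ)) *
      (k * 4 ^ k * (1 + 2 * M2))) atTop (nhds 0) := by
    simpa using t4.mul_const (k * 4 ^ k * (1 + 2 * M2))
  have t5 : Tendsto (fun K : ℕ => (K : ℝ) ^ (-ε)) atTop (nhds 0) :=
    (tendsto_rpow_neg_atTop hε).comp tK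
  have t5' : Tendsto (fun K : ℕ => 2 * T * (K : ℝ) ^ (-ε)) atTop (nhds 0) := by
    simpa using t5.const_mul (2 * T)
  obtain ⟨K, hK⟩ := ((eventually_ge_atTop (2 * k + 100)).and
    ((t1.eventually (gt_mem_nhds (show (0:ℝ) < δ / 8 by positivity))).and
    ((t3.eventually (gt_mem_nhds (show (0:ℝ) < δ / 8 by positivity))).and
    ((t4.eventually (gt_mem_nhds (show (0:ℝ) < 1 by norm_num))).and
    ((t4'.eventually (gt_mem_nhds (show (0:ℝ) < δ / 8 by positivity))).and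
    ((t5.eventually (gt_mem_nhds (show (0:ℝ) < 1 / 10000 by norm_num))).and
    (t5'.eventually (gt_mem_nhds (show (0:ℝ) < δ / 8 by positivity))))))))).exists
  obtain ⟨k1, k2, k3, k4, k5, k6, k7⟩ := hK
  refine ⟨K, by omega, ?_⟩
  intro c hc X H hX hKH hHX hv hv'
  have hKr : (2 * k + 100 : ℝ) ≤ K := by exact_mod_cast k1
  have hk0 : (0:ℝ) ≤ k := Nat.cast_nonneg k
  have hK100 : (100:ℝ) ≤ K := by linarith
  have hK0 : (0:ℝ) < K := by linarith
  have hH0 : (0:ℝ) < H := by linarith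
  have hHX' : H ≤ X := le_of_rpow hε hε1 hX (by linarith) hHX
  have hKX : (K:ℝ) ≤ X := hKH.trans hHX'
  have hXe : X ^ (-ε) ≤ (K:ℝ) ^ (-ε) :=
    Real.rpow_le_rpow_of_nonpos hK0 hKX (by linarith)
  have hHX2 : H ≤ X * X ^ (-ε) := by
    refine le_trans hHX (le_of_eq ?_)
    rw [sub_eq_add_neg, Real.rpow_add hX, Real.rpow_one]
  have hHX3 : H ≤ X * (K:ℝ) ^ (-ε) := hHX2.trans (mul_le_mul_of_nonneg_left hXe hX.le)
  have hHX4 : H ≤ X / 10000 := by
    have : X * (K:ℝ) ^ (-ε) ≤ X * (1 / 10000) := mul_le_mul_of_nonneg_left k6.le hX.le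
    linarith
  have h1K : (1:ℝ) / K ≤ 1 := by
    rw [div_le_one hK0]; linarith
  have w1 := hv (2 * k) (by omega)
  have w2 := hv' (2 * k) (by omega)
  have w3 := hv k (by omega)
  rw [abs_le] at w1 w2
  have hmain := main hc (k := k) (X := X) (H := H) (by linarith) (by linarith) hHX4 M2
    (by linarith) (by linarith) (by linarith) T hT0 (4 / Real.sqrt (c2 * K) + 1 / (K : ℝ))
    (by gcongr) k4.le
  have p1 : (4 / Real.sqrt (c2 * K) + 1 / (K : ℝ)) * (k * 4 ^ k) * (1 + 2 * M2) ≤ δ / 8 := by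
    rw [mul_assoc]; exact k5.le
  have p2 : 2 * T * H / X ≤ δ / 8 := by
    rw [div_le_iff₀ hX]
    have : 2 * T * H ≤ 2 * T * (X * (K:ℝ) ^ (-ε)) :=
      mul_le_mul_of_nonneg_left hHX3 (by positivity)
    nlinarith
  have p3 : 4 * M2 / T = δ / 8 := by
    rw [hT]; field_simp; norm_num
  have hfl : X - 1 < (⌊X⌋₊ : ℝ) := by
    have := Nat.lt_floor_add_one X
    linarith
  have hfl2 : (⌊X⌋₊ : ℝ) ≤ X := Nat.floor_le hX.le
  have p4 : |(⌊X⌋₊ : ℝ) / X * Mg c k ⌊X⌋₊ ⌊H⌋₊ - gm k| ≤ δ / 8 + δ / 8 := by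
    have e : (⌊X⌋₊ : ℝ) / X * Mg c k ⌊X⌋₊ ⌊H⌋₊ - gm k =
        (⌊X⌋₊ : ℝ) / X * (Mg c k ⌊X⌋₊ ⌊H⌋₊ - gm k) + gm k * ((⌊X⌋₊ : ℝ) / X - 1) := by ring
    rw [e]
    have q1 : (⌊X⌋₊ : ℝ) / X ≤ 1 := by rw [div_le_one hX]; exact hfl2
    have q2 : 0 ≤ (⌊X⌋₊ : ℝ) / X := by positivity
    have q3 : |(⌊X⌋₊ : ℝ) / X - 1| ≤ 1 / K := by
      rw [abs_le]
      constructor
      · have : 1 - 1 / (K:ℝ) ≤ (⌊X⌋₊ : ℝ) / X := by
          rw [le_div_iff₀ hX]
          have : 1 ≤ X / K := by rw [le_div_iff₀ hK0]; linarith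
          have e2 : (1 - 1 / (K:ℝ)) * X = X - X / K := by ring
          rw [e2]
          linarith
        linarith
      · have : 0 < 1 / (K:ℝ) := by positivity
        linarith
    calc _ ≤ |(⌊X⌋₊ : ℝ) / X * (Mg c k ⌊X⌋₊ ⌊H⌋₊ - gm k)| + |gm k * ((⌊X⌋₊ : ℝ) / X - 1)| :=
          abs_add_le _ _
      _ = (⌊X⌋₊ : ℝ) / X * |Mg c k ⌊X⌋₊ ⌊H⌋₊ - gm k| + |gm k| * |(⌊X⌋₊ : ℝ) / X - 1| := by
          rw [abs_mul, abs_mul, abs_of_nonneg q2]
      _ ≤ 1 * (1 / K) + |gm k| * (1 / K) := by gcongr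
      _ = (|gm k| + 1) / K := by ring
      _ ≤ δ / 8 := k3.le
      _ ≤ _ := by linarith
  calc |Md c k X H - gm k| = |(Md c k X H - (⌊X⌋₊ : ℝ) / X * Mg c k ⌊X⌋₊ ⌊H⌋₊) +
        ((⌊X⌋₊ : ℝ) / X * Mg c k ⌊X⌋₊ ⌊H⌋₊ - gm k)| := by congr 1; ring
    _ ≤ _ := abs_add_le _ _
    _ ≤ δ := by linarith

end Pool.Agent.P4f18dfC
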