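import Pool.Agent.Lib.P4f18dfC.Defs

/-!
# The real part in a direction

Module CX.Dir.
`Dg_cu`: `cu g u n = 0` unless `n` is squarefree (`mu n = 0`), so in `Dg (cu g u) k N h` only tuples with values in
`Q h a = (Ioc a (a+h)).filter Squarefree` contribute, and `ntr k (Ioc a (a+h))` restricted to those is
`ntr k (Q h a)` (the condition `∀ v ∈ A, Even (count v)`: values outside the range of `t` have count `0`).
`√2 (u g).re = (u g + conj (u g)) / √2`, so `∏_i cu g u (t i) = 2^(-k/2) ∑_{S ⊆ Fin k} u^|S| conj(u)^(k-|S|)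
∏_i mu (t i) * mixf g S i (t i)` (`Finset.prod_add`), hence `|Dg| ≤ 2^(-k/2) ∑_S ‖DE g mu k S N h‖ ≤ 2^k b`.

`s2_cu`: `s2 (cu g u) h a = ∑_{n ∈ Q h a} 2 (u g n).re^2 = ∑_{n ∈ Q h a} (1 + (u^2 g n^2).re)` (as `|u g n| = 1`, `mu n^2 = 1`
on squarefree `n`), so `|s2 - h c2| ≤ ||Q h a| - h c2| + ‖S_a‖`, `S_a = ∑_{n ∈ Q h a} g n^2`.  `sum_card_Q`
(`Lib/P4f18df/Sqf.lean`) bounds the average of the first term by `9 √h`; for the second use Cauchy-Schwarz and
`∑_a ‖S_a‖^2 = ∑_a |Q h a| + N * DE (g^2) 1 2 {0} N h`: `‖S_a‖^2 = ∑_{(m,n) ∈ Q×Q} g m^2 conj (g n^2)`, the diagonal is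
`|Q h a| ≤ h`, and `ntr 2 (Q h a)` is exactly the set of the pairs with `t 0 ≠ t 1`.
-/

set_option autoImplicit false

namespace Pool.Agent.P4f18dfC

open Finset Pool.Agent.P4f18df Pool.Agent.P4f18dfT

namespace Dir

open scoped ComplexConjugate

lemma mu_eq_zero {n : ℕ} (h : ¬ Squarefree n) : mu n = 0 := by
  unfold mu
  rw [ArithmeticFunction.moebius_eq_zero_of_not_squarefree h]
  simp

lemma mu_sq {n : ℕ} (h : Squarefree n) : mu n ^ 2 = 1 := by
  unfold mu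
  have := ArithmeticFunction.moebius_sq_eq_one_of_squarefree h
  exact_mod_cast this

lemma cu_eq_zero (g : ℕ → ℂ) (u : ℂ) {n : ℕ} (h : ¬ Squarefree n) : cu g u n = 0 := by
  unfold cu
  rw [mu_eq_zero h]
  simp

/-- only tuples of squarefree numbers contribute -/
lemma sum_ntr_Ioc (g : ℕ → ℂ) (u : ℂ) (k h a : ℕ) :
    ∑ t ∈ ntr k (Ioc a (a + h)), ∏ i, cu g u (t i) = ∑ t ∈ ntr k (Q h a), ∏ i, cu g u (t i) := by
  symm
  apply Finset.sum_subset
  · intro t ht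
    rw [ntr, Finset.mem_filter, Fintype.mem_piFinset] at ht ⊢
    refine ⟨fun i => ?_, fun hall => ht.2 fun v hv => hall v ?_⟩
    · have := ht.1 i
      rw [Q, Finset.mem_filter] at this
      exact this.1
    · rw [Q, Finset.mem_filter] at hv
      exact hv.1
  · intro t ht hnt
    rw [ntr, Finset.mem_filter, Fintype.mem_piFinset] at ht hnt
    by_cases hsq : ∀ i, t i ∈ Q h a
    · exfalso
      apply hnt
      refine ⟨hsq, fun hall => ht.2 fun v _ => ?_⟩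
      by_cases hvQ : v ∈ Q h a
      · exact hall v hvQ
      · have : (univ.filter (fun i => t i = v)) = ∅ := by
          rw [Finset.filter_eq_empty_iff]
          intro i _ hi
          exact hvQ (hi ▸ hsq i)
        rw [this]
        simp
    · push Not at hsq
      obtain ⟨i, hi⟩ := hsq
      apply Finset.prod_eq_zero (Finset.mem_univ i)
      apply cu_eq_zero
      intro hs
      apply hi
      rw [Q, Finset.mem_filter]
      exact ⟨ht.1 i, hs⟩

/-- complex form of `cu` -/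
lemma cu_complex (g : ℕ → ℂ) (u : ℂ) (n : ℕ) :
    ((cu g u n : ℝ) : ℂ) = ((Real.sqrt 2 / 2 : ℝ) : ℂ) * u * ((mu n : ℂ) * g n) +
      ((Real.sqrt 2 / 2 : ℝ) : ℂ) * conj u * ((mu n : ℂ) * conj (g n)) := by
  unfold cu
  have h : (((u * g n).re : ℝ) : ℂ) = (u * g n + conj (u * g n)) / 2 := by
    rw [Complex.add_conj]
    push_cast
    ring
  push_cast
  rw [h, map_mul]
  ring

lemma prod_cu (g : ℕ → ℂ) (u : ℂ) (k : ℕ) (t : Fin k → ℕ) :
    ((∏ i, cu g u (t i) : ℝ) : ℂ) = ∑ S ∈ (univ : Finset (Fin k)).powerset,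
      (((Real.sqrt 2 / 2 : ℝ) : ℂ) * u) ^ S.card * (((Real.sqrt 2 / 2 : ℝ) : ℂ) * conj u) ^
        (univ \ S : Finset (Fin k)).card *
        ∏ i, ((mu (t i) : ℂ) * mixf g S i (t i)) := by
  rw [Complex.ofReal_prod, Finset.prod_congr rfl (fun i _ => cu_complex g u (t i)),
    Finset.prod_add]
  apply Finset.sum_congr rfl
  intro S hS
  have e1 : ∏ i ∈ S, (((Real.sqrt 2 / 2 : ℝ) : ℂ) * u * ((mu (t i) : ℂ) * g (t i))) =
      (((Real.sqrt 2 / 2 : ℝ) : ℂ) * u) ^ S.card * ∏ i ∈ S, ((mu (t i) : ℂ) * g (t i)) := by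
    rw [Finset.prod_mul_distrib, Finset.prod_const]
  have e2 : ∏ i ∈ univ \ S, (((Real.sqrt 2 / 2 : ℝ) : ℂ) * conj u *
      ((mu (t i) : ℂ) * conj (g (t i)))) =
      (((Real.sqrt 2 / 2 : ℝ) : ℂ) * conj u) ^ (univ \ S : Finset (Fin k)).card *
        ∏ i ∈ univ \ S, ((mu (t i) : ℂ) * conj (g (t i))) := by
    rw [Finset.prod_mul_distrib, Finset.prod_const]
  rw [e1, e2]
  have h1 : ∏ i, ((mu (t i) : ℂ) * mixf g S i (t i)) =
      (∏ i ∈ S, ((mu (t i) : ℂ) * g (t i))) *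
        ∏ i ∈ univ \ S, ((mu (t i) : ℂ) * conj (g (t i))) := by
    rw [← Finset.prod_sdiff (Finset.subset_univ S), mul_comm]
    congr 1
    · apply Finset.prod_congr rfl
      intro i hi
      rw [mixf, if_pos hi]
    · apply Finset.prod_congr rfl
      intro i hi
      rw [Finset.mem_sdiff] at hi
      rw [mixf, if_neg hi.2]
  rw [h1]
  ring

end Dir

open Dir

theorem Dg_cu (g : ℕ → ℂ) {u : ℂ} (hu : ‖u‖ = 1) {k N h : ℕ} {b : ℝ}
    (hb : ∀ S : Finset (Fin k), ‖DE g mu k S N h‖ ≤ b) : |Dg (cu g u) k N h| ≤ 2 ^ k * b := by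
  have hb0 : 0 ≤ b := le_trans (norm_nonneg _) (hb ∅)
  have key : ((Dg (cu g u) k N h : ℝ) : ℂ) = ∑ S ∈ (univ : Finset (Fin k)).powerset,
      (((Real.sqrt 2 / 2 : ℝ) : ℂ) * u) ^ S.card *
        (((Real.sqrt 2 / 2 : ℝ) : ℂ) * (starRingEnd ℂ) u) ^ (univ \ S : Finset (Fin k)).card *
        DE g mu k S N h := by
    unfold Dg DE
    rw [Complex.ofReal_div, Complex.ofReal_sum]
    simp_rw [← mul_div_assoc]
    rw [← Finset.sum_div, Complex.ofReal_natCast]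
    congr 1
    simp_rw [Finset.mul_sum]
    rw [Finset.sum_comm]
    apply Finset.sum_congr rfl
    intro a _
    rw [sum_ntr_Ioc, Complex.ofReal_sum, Finset.sum_comm]
    apply Finset.sum_congr rfl
    intro t _
    exact prod_cu g u k t
  have hs : Real.sqrt 2 / 2 ≤ 1 := by
    have : Real.sqrt 2 ≤ 2 := by
      rw [Real.sqrt_le_left (by norm_num)]; norm_num
    linarith
  have hs0 : 0 ≤ Real.sqrt 2 / 2 := by positivity
  have hn1 : ‖((Real.sqrt 2 / 2 : ℝ) : ℂ) * u‖ ≤ 1 := by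
    rw [norm_mul, hu, mul_one, Complex.norm_real, Real.norm_eq_abs, abs_of_nonneg hs0]
    exact hs
  have hn2 : ‖((Real.sqrt 2 / 2 : ℝ) : ℂ) * (starRingEnd ℂ) u‖ ≤ 1 := by
    rw [norm_mul, RCLike.norm_conj, hu, mul_one, Complex.norm_real, Real.norm_eq_abs,
      abs_of_nonneg hs0]
    exact hs
  have h1 : |Dg (cu g u) k N h| = ‖((Dg (cu g u) k N h : ℝ) : ℂ)‖ := by
    rw [Complex.norm_real, Real.norm_eq_abs]
  rw [h1, key]
  refine le_trans (norm_sum_le _ _) ?_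
  have h2 : ∀ S ∈ (univ : Finset (Fin k)).powerset,
      ‖(((Real.sqrt 2 / 2 : ℝ) : ℂ) * u) ^ S.card *
        (((Real.sqrt 2 / 2 : ℝ) : ℂ) * (starRingEnd ℂ) u) ^ (univ \ S : Finset (Fin k)).card *
        DE g mu k S N h‖ ≤ b := by
    intro S _
    rw [norm_mul, norm_mul, norm_pow, norm_pow]
    have e1 := pow_le_one₀ (n := S.card) (norm_nonneg _) hn1
    have e2 := pow_le_one₀ (n := (univ \ S : Finset (Fin k)).card) (norm_nonneg _) hn2
    calc _ ≤ 1 * 1 * b := by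
          apply mul_le_mul _ (hb S) (norm_nonneg _) (by norm_num)
          exact mul_le_mul e1 e2 (by positivity) (by norm_num)
      _ = b := by ring
  refine le_trans (Finset.sum_le_sum h2) ?_
  rw [Finset.sum_const, Finset.card_powerset, Finset.card_univ, Fintype.card_fin, nsmul_eq_mul]
  push_cast
  exact le_refl _

namespace Dir

open scoped ComplexConjugate

lemma cu_sq (g : ℕ → ℂ) (hg : ∀ n, ‖g n‖ = 1) {u : ℂ} (hu : ‖u‖ = 1) {n : ℕ}
    (hn : Squarefree n) : cu g u n ^ 2 = 1 + (u ^ 2 * g n ^ 2).re := by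
  unfold cu
  have h1 : (u ^ 2 * g n ^ 2) = (u * g n) ^ 2 := by ring
  have h2 : ‖u * g n‖ = 1 := by rw [norm_mul, hu, hg, mul_one]
  have h3 : (u * g n).re ^ 2 + (u * g n).im ^ 2 = 1 := by
    have := Complex.normSq_eq_norm_sq (u * g n)
    rw [h2, Complex.normSq_apply] at this
    nlinarith
  rw [h1]
  have h4 : ((u * g n) ^ 2).re = (u * g n).re ^ 2 - (u * g n).im ^ 2 := by
    rw [sq, Complex.mul_re]; ring
  rw [h4, mul_pow, mul_pow, mu_sq hn, Real.sq_sqrt (by norm_num)]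
  linarith

lemma s2_eq (g : ℕ → ℂ) (hg : ∀ n, ‖g n‖ = 1) {u : ℂ} (hu : ‖u‖ = 1) (h a : ℕ) :
    s2 (cu g u) h a = (Q h a).card + (u ^ 2 * ∑ n ∈ Q h a, g n ^ 2).re := by
  have h1 : s2 (cu g u) h a = ∑ n ∈ Q h a, cu g u n ^ 2 := by
    unfold s2
    symm
    apply Finset.sum_subset
    · exact Finset.filter_subset _ _
    · intro n hn hnQ
      rw [cu_eq_zero]
      · ring
      · intro hs
        exact hnQ (by rw [Q, Finset.mem_filter]; exact ⟨hn, hs⟩)
  have h2 : ∀ n ∈ Q h a, cu g u n ^ 2 = 1 + (u ^ 2 * g n ^ 2).re := by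
    intro n hn
    rw [Q, Finset.mem_filter] at hn
    exact cu_sq g hg hu hn.2
  rw [h1, Finset.sum_congr rfl h2, Finset.sum_add_distrib, Finset.mul_sum, Complex.re_sum]
  simp

lemma abs_s2_le (g : ℕ → ℂ) (hg : ∀ n, ‖g n‖ = 1) {u : ℂ} (hu : ‖u‖ = 1) (h a : ℕ) :
    |s2 (cu g u) h a - h * c2| ≤ |((Q h a).card : ℝ) - h * c2| + ‖∑ n ∈ Q h a, g n ^ 2‖ := by
  rw [s2_eq g hg hu]
  have h1 : |(u ^ 2 * ∑ n ∈ Q h a, g n ^ 2).re| ≤ ‖∑ n ∈ Q h a, g n ^ 2‖ := by
    refine le_trans (Complex.abs_re_le_norm _) ?_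
    rw [norm_mul, norm_pow, hu]
    simp
  calc |((Q h a).card : ℝ) + (u ^ 2 * ∑ n ∈ Q h a, g n ^ 2).re - h * c2|
      = |(((Q h a).card : ℝ) - h * c2) + (u ^ 2 * ∑ n ∈ Q h a, g n ^ 2).re| := by ring_nf
    _ ≤ _ := le_trans (abs_add_le _ _) (by linarith)

lemma mem_ntr_two {A : Finset ℕ} {t : Fin 2 → ℕ} (ht : ∀ i, t i ∈ A) :
    (∀ v ∈ A, Even (univ.filter (fun i => t i = v)).card) ↔ t 0 = t 1 := by
  constructor
  · intro hall
    by_contra hne
    have h1 := hall (t 0) (ht 0)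
    have h2 : (univ.filter (fun i => t i = t 0)) = {0} := by
      ext i
      simp only [Finset.mem_filter, Finset.mem_univ, true_and, Finset.mem_singleton]
      constructor
      · intro hi
        fin_cases i
        · rfl
        · exact absurd hi.symm hne
      · rintro rfl
        rfl
    rw [h2] at h1
    simp at h1
  · intro he v _
    by_cases hv : t 0 = v
    · have h2 : (univ.filter (fun i => t i = v)) = (univ : Finset (Fin 2)) := by
        apply Finset.filter_true_of_mem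
        intro i _
        fin_cases i
        · exact hv
        · exact he ▸ hv
      rw [h2]
      simp
    · have h2 : (univ.filter (fun i => t i = v)) = (∅ : Finset (Fin 2)) := by
        rw [Finset.filter_eq_empty_iff]
        intro i _
        fin_cases i
        · exact hv
        · exact fun h => hv (he.trans h)
      rw [h2]
      simp

/-- the square of the norm of the sum of squares -/
lemma norm_sq_eq (f : ℕ → ℂ) (hf : ∀ n, ‖f n‖ = 1) (A : Finset ℕ) :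
    ((‖∑ n ∈ A, f n‖ ^ 2 : ℝ) : ℂ) = (A.card : ℂ) +
      ∑ t ∈ ntr 2 A, ∏ i, ((((fun _ => 1) : ℕ → ℝ) (t i) : ℂ) * mixf f ({0} : Finset (Fin 2)) i (t i)) := by
  have hprod : ∀ t : Fin 2 → ℕ,
      ∏ i, ((((fun _ => 1) : ℕ → ℝ) (t i) : ℂ) * mixf f ({0} : Finset (Fin 2)) i (t i)) =
        f (t 0) * conj (f (t 1)) := by
    intro t
    rw [Fin.prod_univ_two]
    simp [mixf]
  have h0 : ((‖∑ n ∈ A, f n‖ ^ 2 : ℝ) : ℂ) = (∑ n ∈ A, f n) * conj (∑ n ∈ A, f n) := by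
    rw [Complex.mul_conj, Complex.normSq_eq_norm_sq]
  have h1 : (∑ n ∈ A, f n) * conj (∑ n ∈ A, f n) =
      ∑ t ∈ Fintype.piFinset (fun _ : Fin 2 => A),
        ∏ i, ((((fun _ => 1) : ℕ → ℝ) (t i) : ℂ) * mixf f ({0} : Finset (Fin 2)) i (t i)) := by
    have := Finset.prod_univ_sum (fun _ : Fin 2 => A)
      (fun i n => ((((fun _ => 1) : ℕ → ℝ) n : ℂ) * mixf f ({0} : Finset (Fin 2)) i n))
    rw [← this, Fin.prod_univ_two, map_sum]
    simp [mixf]
  rw [h0, h1, ntr, ← Finset.sum_filter_add_sum_filter_not (Fintype.piFinset (fun _ : Fin 2 => A))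
    (fun t => ∀ v ∈ A, Even (univ.filter (fun i => t i = v)).card)]
  congr 1
  have h2 : ∀ t ∈ (Fintype.piFinset (fun _ : Fin 2 => A)).filter
      (fun t => ∀ v ∈ A, Even (univ.filter (fun i => t i = v)).card),
      ∏ i, ((((fun _ => 1) : ℕ → ℝ) (t i) : ℂ) * mixf f ({0} : Finset (Fin 2)) i (t i)) = 1 := by
    intro t ht
    rw [Finset.mem_filter, Fintype.mem_piFinset] at ht
    have he := (mem_ntr_two ht.1).1 ht.2
    rw [hprod, he, Complex.mul_conj, Complex.normSq_eq_norm_sq, hf]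
    simp
  rw [Finset.sum_congr rfl h2, Finset.sum_const, nsmul_eq_mul, mul_one]
  congr 1
  apply Finset.card_bij (fun t _ => t 0)
  · intro t ht
    rw [Finset.mem_filter, Fintype.mem_piFinset] at ht
    exact ht.1 0
  · intro t ht t' ht' hte
    rw [Finset.mem_filter, Fintype.mem_piFinset] at ht ht'
    have he := (mem_ntr_two ht.1).1 ht.2
    have he' := (mem_ntr_two ht'.1).1 ht'.2
    funext i
    fin_cases i
    · exact hte
    · exact he.symm.trans (hte.trans he')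
  · intro n hn
    refine ⟨fun _ => n, ?_, rfl⟩
    rw [Finset.mem_filter, Fintype.mem_piFinset]
    exact ⟨fun _ => hn, (mem_ntr_two (t := fun _ => n) (fun _ => hn)).2 rfl⟩

lemma sum_norm_sq_le (f : ℕ → ℂ) (hf : ∀ n, ‖f n‖ = 1) {N h : ℕ} (hN : 1 ≤ N) :
    (∑ a ∈ Ioc N (2 * N), ‖∑ n ∈ Q h a, f n‖ ^ 2) ≤
      N * (h + ‖DE f (fun _ => 1) 2 {0} N h‖) := by
  have hN0 : (0:ℝ) < N := by exact_mod_cast hN
  have h1 : ((∑ a ∈ Ioc N (2 * N), ‖∑ n ∈ Q h a, f n‖ ^ 2 : ℝ) : ℂ) =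
      ((∑ a ∈ Ioc N (2 * N), ((Q h a).card : ℝ) : ℝ) : ℂ) +
        (N : ℂ) * DE f (fun _ => 1) 2 {0} N h := by
    unfold DE
    rw [mul_div_cancel₀ _ (by exact_mod_cast hN0.ne'), Complex.ofReal_sum, Complex.ofReal_sum,
      ← Finset.sum_add_distrib]
    apply Finset.sum_congr rfl
    intro a _
    rw [norm_sq_eq f hf, Complex.ofReal_natCast]
  have h2 : (∑ a ∈ Ioc N (2 * N), ‖∑ n ∈ Q h a, f n‖ ^ 2) =
      ‖((∑ a ∈ Ioc N (2 * N), ‖∑ n ∈ Q h a, f n‖ ^ 2 : ℝ) : ℂ)‖ := by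
    rw [Complex.norm_real, Real.norm_eq_abs, abs_of_nonneg]
    exact Finset.sum_nonneg fun _ _ => by positivity
  rw [h2, h1]
  refine le_trans (norm_add_le _ _) ?_
  have h6 : 0 ≤ ∑ a ∈ Ioc N (2 * N), ((Q h a).card : ℝ) :=
    Finset.sum_nonneg fun _ _ => Nat.cast_nonneg _
  rw [norm_mul, Complex.norm_real, Complex.norm_natCast, Real.norm_eq_abs,
    abs_of_nonneg h6, mul_add]
  have h3 : ∑ a ∈ Ioc N (2 * N), ((Q h a).card : ℝ) ≤ ∑ a ∈ Ioc N (2 * N), (h : ℝ) := by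
    apply Finset.sum_le_sum
    intro a _
    exact_mod_cast card_Q_le h a
  have h4 : ∑ a ∈ Ioc N (2 * N), (h : ℝ) = N * h := by
    rw [Finset.sum_const, Nat.card_Ioc, nsmul_eq_mul]
    congr 2
    omega
  linarith

end Dir

theorem s2_cu (g : ℕ → ℂ) (hg : ∀ n, ‖g n‖ = 1) {u : ℂ} (hu : ‖u‖ = 1) {N h : ℕ} (hN : 1 ≤ N)
    (hh1 : 1 ≤ h) (hh : h ≤ N) :
    (∑ a ∈ Ioc N (2 * N), |s2 (cu g u) h a - h * c2|) / N ≤
      9 * Real.sqrt h + Real.sqrt (h + ‖DE (fun n => g n ^ 2) (fun _ => 1) 2 {0} N h‖) := by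
  have hN0 : (0:ℝ) < N := by exact_mod_cast hN
  set D := ‖DE (fun n => g n ^ 2) (fun _ => 1) 2 {0} N h‖ with hD
  have h1 : ∑ a ∈ Ioc N (2 * N), |s2 (cu g u) h a - h * c2| ≤
      ∑ a ∈ Ioc N (2 * N), |((Q h a).card : ℝ) - h * c2| +
        ∑ a ∈ Ioc N (2 * N), ‖∑ n ∈ Q h a, g n ^ 2‖ := by
    rw [← Finset.sum_add_distrib]
    exact Finset.sum_le_sum fun a _ => abs_s2_le g hg hu h a
  have h2 := sum_card_Q hh1 hh
  have h3 : (∑ a ∈ Ioc N (2 * N), ‖∑ n ∈ Q h a, g n ^ 2‖) ^ 2 ≤ N * (N * (h + D)) := by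
    have hcs := sq_sum_le_card_mul_sum_sq (s := Ioc N (2 * N))
      (f := fun a => ‖∑ n ∈ Q h a, g n ^ 2‖)
    have hcard : (((Ioc N (2 * N)).card : ℕ) : ℝ) = N := by
      rw [Nat.card_Ioc]; congr 1; omega
    rw [hcard] at hcs
    refine le_trans hcs ?_
    apply mul_le_mul_of_nonneg_left _ hN0.le
    exact sum_norm_sq_le (fun n => g n ^ 2) (fun n => by rw [norm_pow, hg, one_pow]) hN
  have h4 : ∑ a ∈ Ioc N (2 * N), ‖∑ n ∈ Q h a, g n ^ 2‖ ≤ N * Real.sqrt (h + D) := by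
    have h5 : (N : ℝ) * Real.sqrt (h + D) = Real.sqrt (N * (N * (h + D))) := by
      rw [← mul_assoc, Real.sqrt_mul (by positivity), Real.sqrt_mul_self hN0.le]
    rw [h5]
    exact Real.le_sqrt_of_sq_le h3
  rw [div_le_iff₀ hN0]
  nlinarith

/-- transfer of the condition from `g` to its real parts -/
theorem good_cu (K : ℕ) (hK : 1 ≤ K) : ∃ K' : ℕ, K ≤ K' ∧ ∀ g : ℕ → ℂ, (∀ n, ‖g n‖ = 1) →
    ∀ u : ℂ, ‖u‖ = 1 → ∀ N h : ℕ, 1 ≤ N → K' ≤ h → h ≤ N → GoodC K' g N h →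
      GoodR K (cu g u) N h := by
  have hK0 : (0:ℝ) < K := by exact_mod_cast hK
  refine ⟨K * 2 ^ K + 121 * K ^ 2, ?_, ?_⟩
  · have : 1 ≤ 2 ^ K := Nat.one_le_two_pow
    nlinarith
  intro g hg u hu N h hN hKh hhN hgood
  set K' := K * 2 ^ K + 121 * K ^ 2 with hK'
  have hK'0 : (0:ℝ) < K' := by
    have : 0 < K' := by positivity
    exact_mod_cast this
  have hKK' : K ≤ K' := by
    have : 1 ≤ 2 ^ K := Nat.one_le_two_pow
    nlinarith
  have hh1 : 1 ≤ h := by omega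
  have hh0 : (0:ℝ) < h := by exact_mod_cast hh1
  have hKh' : (K' : ℝ) ≤ h := by exact_mod_cast hKh
  have hK'e : (K' : ℝ) = K * 2 ^ K + 121 * K ^ 2 := by rw [hK']; push_cast; ring
  refine ⟨?_, ?_⟩
  · intro k hk
    rw [Finset.mem_Icc] at hk
    have h1 := Dg_cu g hu (k := k) (N := N) (h := h)
      (hgood.1 k (Finset.mem_Icc.2 ⟨hk.1, hk.2.trans hKK'⟩))
    refine le_trans h1 ?_
    rw [← mul_assoc]
    apply mul_le_mul_of_nonneg_right _ (by positivity)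
    rw [mul_one_div, div_le_div_iff₀ hK'0 hK0, one_mul]
    have h2 : (2:ℝ) ^ k ≤ 2 ^ K := pow_le_pow_right₀ (by norm_num) hk.2
    rw [hK'e]
    nlinarith [sq_nonneg (K:ℝ)]
  · have h1 := s2_cu g hg hu hN hh1 hhN
    refine le_trans h1 ?_
    have h2 : ‖DE (fun n => g n ^ 2) (fun _ => 1) 2 {0} N h‖ ≤ h := by
      refine le_trans hgood.2 ?_
      have : (1 / K' : ℝ) ≤ 1 := by
        rw [div_le_one hK'0]
        have : 1 ≤ K' := by omega
        exact_mod_cast this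
      nlinarith
    have h3 : Real.sqrt (h + ‖DE (fun n => g n ^ 2) (fun _ => 1) 2 {0} N h‖) ≤
        2 * Real.sqrt h := by
      rw [show (2:ℝ) * Real.sqrt h = Real.sqrt (2 ^ 2 * h) by
        rw [Real.sqrt_mul (by positivity), Real.sqrt_sq (by norm_num)]]
      apply Real.sqrt_le_sqrt
      linarith
    have h4 : 11 * K ≤ Real.sqrt h := by
      apply Real.le_sqrt_of_sq_le
      have : (0:ℝ) ≤ K * 2 ^ K := by positivity
      nlinarith
    have h5 : Real.sqrt h * Real.sqrt h = h := Real.mul_self_sqrt hh0.le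
    have h6 : 0 ≤ Real.sqrt h := Real.sqrt_nonneg _
    have h7 : 11 * Real.sqrt h ≤ 1 / K * h := by
      rw [one_div, ← div_eq_inv_mul, le_div_iff₀ hK0]
      nlinarith
    linarith

end Pool.Agent.P4f18dfC
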