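import Pool.Agent.Lib.P4f18dfC.Rad

/-!
# Discrete moments of a real function

Module CX.Disc.  With `A_a = Ioc a (a + h)`: `Wd c h a = ∑_{n ∈ A_a} c n`, so `even_part` gives
`(∑_a (Wd c h a)^k) / N = Dg c k N h + (∑_a Rm k A_a c) / N`.
Odd `k`: `Rm = 0` and `gm k = 0`, so `|Mg| ≤ (1/K) (√h)^k / (√(h c2))^k = (1/K) c2^(-k/2)`.
Even `k = 2l`: `|Rm (2l) A_a c - gm (2l) (s2 c h a)^l| ≤ C h^(l-1)` (`Rm_even`), and
`|s^l - (h c2)^l| ≤ l (4h)^(l-1) |s - h c2|` as `0 ≤ s ≤ 4h`, `0 ≤ h c2 ≤ h` (`c2_le`); average over `a`;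
divide by `(√(h c2))^(2l) = (h c2)^l`; choose `K` large.  (`k = 0`: `Mg = 1 = gm 0` as `N ≥ 1`.)
-/

set_option autoImplicit false

namespace Pool.Agent.P4f18dfC

open Finset Pool.Agent.P4f18df Pool.Agent.P4f18dfT

namespace DiscAux

lemma sum_split (c : ℕ → ℝ) (k N h : ℕ) :
    (∑ a ∈ Ioc N (2 * N), (Wd c h a) ^ k) / N =
      Dg c k N h + (∑ a ∈ Ioc N (2 * N), Rm k (Ioc a (a + h)) c) / N := by
  unfold Dg Wd
  rw [← add_div, ← Finset.sum_add_distrib]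
  congr 1
  refine Finset.sum_congr rfl fun a _ => ?_
  rw [even_part, add_comm]

lemma odd_case {k : ℕ} (hk : Odd k) (δ : ℝ) (hδ : 0 < δ) : ∃ K : ℕ, 1 ≤ K ∧
    ∀ c : ℕ → ℝ, (∀ n, |c n| ≤ 2) → ∀ N h : ℕ, 1 ≤ N → K ≤ h →
      |Dg c k N h| ≤ (1 / K : ℝ) * (Real.sqrt h) ^ k →
      (∑ a ∈ Ioc N (2 * N), |s2 c h a - h * c2|) / N ≤ (1 / K : ℝ) * h →
        |Mg c k N h - gm k| ≤ δ := by
  have hc2 := c2_pos
  have hs : 0 < Real.sqrt c2 ^ k := pow_pos (Real.sqrt_pos.2 hc2) k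
  obtain ⟨K, hK⟩ := exists_nat_ge (1 / (δ * Real.sqrt c2 ^ k))
  refine ⟨K + 1, by omega, fun c _ N h _ hKh hD _ => ?_⟩
  have hh : 1 ≤ h := by omega
  have hh0 : (0 : ℝ) < h := by exact_mod_cast hh
  have hsh : 0 < Real.sqrt h ^ k := pow_pos (Real.sqrt_pos.2 hh0) k
  rw [gm_odd hk, sub_zero]
  unfold Mg
  rw [sum_split]
  have h0 : ∑ a ∈ Ioc N (2 * N), Rm k (Ioc a (a + h)) c = 0 :=
    Finset.sum_eq_zero fun a _ => Rm_odd hk _ _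
  rw [h0, zero_div, add_zero, Real.sqrt_mul hh0.le, mul_pow, abs_div,
    abs_of_pos (mul_pos hsh hs), div_le_iff₀ (mul_pos hsh hs)]
  refine hD.trans ?_
  have h1 : (1 : ℝ) / ((K + 1 : ℕ) : ℝ) ≤ δ * Real.sqrt c2 ^ k := by
    rw [div_le_iff₀ (by positivity)]
    rw [div_le_iff₀ (by positivity)] at hK
    push_cast
    have : 0 < δ * Real.sqrt c2 ^ k := by positivity
    nlinarith
  calc (1 / ((K + 1 : ℕ) : ℝ)) * Real.sqrt h ^ k ≤ (δ * Real.sqrt c2 ^ k) * Real.sqrt h ^ k :=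
        mul_le_mul_of_nonneg_right h1 hsh.le
    _ = _ := by ring

lemma s2_bounds {c : ℕ → ℝ} (hc : ∀ n, |c n| ≤ 2) (h a : ℕ) :
    0 ≤ s2 c h a ∧ s2 c h a ≤ 4 * h := by
  unfold s2
  refine ⟨Finset.sum_nonneg fun _ _ => sq_nonneg _, ?_⟩
  have h1 : ∀ n ∈ Ioc a (a + h), c n ^ 2 ≤ 4 := by
    intro n _
    have h2 := hc n
    rw [← sq_abs]
    have h3 := abs_nonneg (c n)
    nlinarith
  refine (Finset.sum_le_sum h1).trans (le_of_eq ?_)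
  rw [Finset.sum_const, Nat.card_Ioc, nsmul_eq_mul, Nat.add_sub_cancel_left]
  ring

lemma pow_diff {c : ℕ → ℝ} (hc : ∀ n, |c n| ≤ 2) (l h a : ℕ) :
    |s2 c h a ^ l - (h * c2) ^ l| * h ≤ (l * (4 * h) ^ l) * |s2 c h a - h * c2| := by
  have hh : (0 : ℝ) ≤ h := Nat.cast_nonneg h
  obtain ⟨h1, h2⟩ := s2_bounds hc h a
  have h3 := c2_pos
  have h4 := c2_le
  have h5 : (0 : ℝ) ≤ h * c2 := by positivity
  have h6 : (h : ℝ) * c2 ≤ 4 * h := by nlinarith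
  have h7 := abs_pow_sub_pow_le (s2 c h a) (h * c2) l
  have h8 : max |s2 c h a| |(h : ℝ) * c2| ≤ 4 * h := by
    rw [abs_of_nonneg h1, abs_of_nonneg h5]
    exact max_le h2 h6
  have h9 : max |s2 c h a| |(h : ℝ) * c2| ^ (l - 1) ≤ (4 * h) ^ (l - 1) :=
    pow_le_pow_left₀ (le_max_of_le_left (abs_nonneg _)) h8 _
  have h10 : |s2 c h a ^ l - (h * c2) ^ l| ≤
      |s2 c h a - h * c2| * l * (4 * h) ^ (l - 1) :=
    h7.trans (mul_le_mul_of_nonneg_left h9 (by positivity))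
  have h11 : (l : ℝ) * (4 * h) ^ (l - 1) * h ≤ l * (4 * h) ^ l := by
    cases l with
    | zero => simp
    | succ l =>
      rw [Nat.add_sub_cancel, pow_succ, mul_assoc]
      refine mul_le_mul_of_nonneg_left ?_ (Nat.cast_nonneg _)
      refine mul_le_mul_of_nonneg_left ?_ (by positivity)
      linarith
  calc |s2 c h a ^ l - (h * c2) ^ l| * h
      ≤ (|s2 c h a - h * c2| * l * (4 * h) ^ (l - 1)) * h :=
        mul_le_mul_of_nonneg_right h10 hh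
    _ = |s2 c h a - h * c2| * (l * (4 * h) ^ (l - 1) * h) := by ring
    _ ≤ |s2 c h a - h * c2| * (l * (4 * h) ^ l) :=
        mul_le_mul_of_nonneg_left h11 (abs_nonneg _)
    _ = _ := by ring

lemma even_case (l : ℕ) (δ : ℝ) (hδ : 0 < δ) : ∃ K : ℕ, 1 ≤ K ∧
    ∀ c : ℕ → ℝ, (∀ n, |c n| ≤ 2) → ∀ N h : ℕ, 1 ≤ N → K ≤ h →
      |Dg c (2 * l) N h| ≤ (1 / K : ℝ) * (Real.sqrt h) ^ (2 * l) →
      (∑ a ∈ Ioc N (2 * N), |s2 c h a - h * c2|) / N ≤ (1 / K : ℝ) * h →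
        |Mg c (2 * l) N h - gm (2 * l)| ≤ δ := by
  obtain ⟨C, hC, hR⟩ := Rm_even l
  have hc2 := c2_pos
  have hg := gm_nonneg (2 * l)
  set g : ℝ := gm (2 * l) with hgdef
  obtain ⟨K, hK⟩ := exists_nat_ge ((1 + C + g * (l * 4 ^ l)) / (δ * c2 ^ l))
  refine ⟨K + 1, by omega, fun c hc N h hN hKh hD hS => ?_⟩
  have hh : 1 ≤ h := by omega
  have hh0 : (0 : ℝ) < h := by exact_mod_cast hh
  have hN0 : (0 : ℝ) < N := by exact_mod_cast hN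
  have hcard : ((Ioc N (2 * N)).card : ℝ) = N := by
    rw [Nat.card_Ioc]
    congr 1
    omega
  have hden : Real.sqrt (h * c2) ^ (2 * l) = (h : ℝ) ^ l * c2 ^ l := by
    rw [pow_mul, Real.sq_sqrt (by positivity), mul_pow]
  have hden0 : 0 < (h : ℝ) ^ l * c2 ^ l := by positivity
  have hsh : Real.sqrt h ^ (2 * l) = (h : ℝ) ^ l := by
    rw [pow_mul, Real.sq_sqrt hh0.le]
  rw [hsh] at hD
  have hKr : (0 : ℝ) < ((K + 1 : ℕ) : ℝ) := by positivity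
  have hKh' : ((K + 1 : ℕ) : ℝ) ≤ h := by exact_mod_cast hKh
  -- the random part
  have hA : |(∑ a ∈ Ioc N (2 * N), Rm (2 * l) (Ioc a (a + h)) c) / N -
      g * ((∑ a ∈ Ioc N (2 * N), s2 c h a ^ l) / N)| ≤ C * (h : ℝ) ^ l / h := by
    have h1 : (∑ a ∈ Ioc N (2 * N), Rm (2 * l) (Ioc a (a + h)) c) / N -
        g * ((∑ a ∈ Ioc N (2 * N), s2 c h a ^ l) / N) =
        (∑ a ∈ Ioc N (2 * N), (Rm (2 * l) (Ioc a (a + h)) c - g * s2 c h a ^ l)) / N := by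
      rw [Finset.sum_sub_distrib, ← Finset.mul_sum]
      ring
    rw [h1, abs_div, abs_of_pos hN0, div_le_iff₀ hN0]
    refine (Finset.abs_sum_le_sum_abs _ _).trans ?_
    have h2 : ∀ a ∈ Ioc N (2 * N), |Rm (2 * l) (Ioc a (a + h)) c - g * s2 c h a ^ l| ≤
        C * (h : ℝ) ^ l / h := by
      intro a _
      have h3 := hR (Ioc a (a + h)) c hc h hh (by rw [Nat.card_Ioc]; omega)
      exact h3
    refine (Finset.sum_le_sum h2).trans (le_of_eq ?_)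
    rw [Finset.sum_const, nsmul_eq_mul, hcard]
    ring
  -- the second moments
  have hB : |(∑ a ∈ Ioc N (2 * N), s2 c h a ^ l) / N - (h : ℝ) ^ l * c2 ^ l| ≤
      (1 / ((K + 1 : ℕ) : ℝ)) * (l * 4 ^ l) * (h : ℝ) ^ l := by
    have h1 : (∑ a ∈ Ioc N (2 * N), s2 c h a ^ l) / N - (h : ℝ) ^ l * c2 ^ l =
        (∑ a ∈ Ioc N (2 * N), (s2 c h a ^ l - (h * c2) ^ l)) / N := by
      rw [Finset.sum_sub_distrib, Finset.sum_const, nsmul_eq_mul, hcard, sub_div,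
        mul_div_cancel_left₀ _ hN0.ne', mul_pow]
    have h2 : (∑ a ∈ Ioc N (2 * N), |s2 c h a ^ l - (h * c2) ^ l|) * h ≤
        (l * (4 * h) ^ l) * ∑ a ∈ Ioc N (2 * N), |s2 c h a - h * c2| := by
      rw [Finset.sum_mul, Finset.mul_sum]
      exact Finset.sum_le_sum fun a _ => pow_diff hc l h a
    rw [div_le_iff₀ hN0] at hS
    have h3 : (∑ a ∈ Ioc N (2 * N), |s2 c h a ^ l - (h * c2) ^ l|) * h ≤
        (l * (4 * h) ^ l) * (1 / ((K + 1 : ℕ) : ℝ) * h * N) :=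
      h2.trans (mul_le_mul_of_nonneg_left hS (by positivity))
    have h4 : (∑ a ∈ Ioc N (2 * N), |s2 c h a ^ l - (h * c2) ^ l|) ≤
        (1 / ((K + 1 : ℕ) : ℝ)) * (l * 4 ^ l) * (h : ℝ) ^ l * N := by
      refine le_of_mul_le_mul_right (h3.trans (le_of_eq ?_)) hh0
      rw [mul_pow]
      ring
    rw [h1, abs_div, abs_of_pos hN0, div_le_iff₀ hN0]
    exact (Finset.abs_sum_le_sum_abs _ _).trans h4
  unfold Mg
  rw [sum_split, hden]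
  have hfin : |Dg c (2 * l) N h + (∑ a ∈ Ioc N (2 * N), Rm (2 * l) (Ioc a (a + h)) c) / N -
      g * ((h : ℝ) ^ l * c2 ^ l)| ≤
      (1 / ((K + 1 : ℕ) : ℝ)) * (1 + C + g * (l * 4 ^ l)) * (h : ℝ) ^ l := by
    set R : ℝ := (∑ a ∈ Ioc N (2 * N), Rm (2 * l) (Ioc a (a + h)) c) / N with hRdef
    set S : ℝ := (∑ a ∈ Ioc N (2 * N), s2 c h a ^ l) / N with hSdef
    have h1 : Dg c (2 * l) N h + R - g * ((h : ℝ) ^ l * c2 ^ l) =
        Dg c (2 * l) N h + (R - g * S) + g * (S - (h : ℝ) ^ l * c2 ^ l) := by ring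
    rw [h1]
    have h2 : |Dg c (2 * l) N h + (R - g * S) + g * (S - (h : ℝ) ^ l * c2 ^ l)| ≤
        |Dg c (2 * l) N h| + |R - g * S| + |g * (S - (h : ℝ) ^ l * c2 ^ l)| :=
      (abs_add_le _ _).trans (add_le_add (abs_add_le _ _) le_rfl)
    refine h2.trans ?_
    have h3 : |g * (S - (h : ℝ) ^ l * c2 ^ l)| ≤
        g * ((1 / ((K + 1 : ℕ) : ℝ)) * (l * 4 ^ l) * (h : ℝ) ^ l) := by
      rw [abs_mul, abs_of_nonneg hg]
      exact mul_le_mul_of_nonneg_left hB hg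
    have h4 : C * (h : ℝ) ^ l / h ≤ (1 / ((K + 1 : ℕ) : ℝ)) * C * (h : ℝ) ^ l := by
      have h5 : (1 : ℝ) / h ≤ 1 / ((K + 1 : ℕ) : ℝ) := one_div_le_one_div_of_le hKr hKh'
      have h6 : (0 : ℝ) ≤ C * (h : ℝ) ^ l := by positivity
      calc C * (h : ℝ) ^ l / h = (C * (h : ℝ) ^ l) * (1 / h) := by ring
        _ ≤ (C * (h : ℝ) ^ l) * (1 / ((K + 1 : ℕ) : ℝ)) := mul_le_mul_of_nonneg_left h5 h6
        _ = _ := by ring
    calc |Dg c (2 * l) N h| + |R - g * S| + |g * (S - (h : ℝ) ^ l * c2 ^ l)|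
        ≤ (1 / ((K + 1 : ℕ) : ℝ)) * (h : ℝ) ^ l + (1 / ((K + 1 : ℕ) : ℝ)) * C * (h : ℝ) ^ l +
          g * ((1 / ((K + 1 : ℕ) : ℝ)) * (l * 4 ^ l) * (h : ℝ) ^ l) :=
          add_le_add (add_le_add hD (hA.trans h4)) h3
      _ = _ := by ring
  have h1 : (Dg c (2 * l) N h + (∑ a ∈ Ioc N (2 * N), Rm (2 * l) (Ioc a (a + h)) c) / N) /
      ((h : ℝ) ^ l * c2 ^ l) - g =
      (Dg c (2 * l) N h + (∑ a ∈ Ioc N (2 * N), Rm (2 * l) (Ioc a (a + h)) c) / N -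
        g * ((h : ℝ) ^ l * c2 ^ l)) / ((h : ℝ) ^ l * c2 ^ l) := by
    rw [sub_div, mul_div_cancel_right₀ _ hden0.ne']
  rw [h1, abs_div, abs_of_pos hden0, div_le_iff₀ hden0]
  refine hfin.trans ?_
  have h2 : (1 / ((K + 1 : ℕ) : ℝ)) * (1 + C + g * (l * 4 ^ l)) ≤ δ * c2 ^ l := by
    rw [div_le_iff₀ (by positivity)] at hK
    rw [one_div, inv_mul_le_iff₀ hKr]
    push_cast
    have : 0 < δ * c2 ^ l := by positivity
    nlinarith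
  calc (1 / ((K + 1 : ℕ) : ℝ)) * (1 + C + g * (l * 4 ^ l)) * (h : ℝ) ^ l
      ≤ (δ * c2 ^ l) * (h : ℝ) ^ l := mul_le_mul_of_nonneg_right h2 (by positivity)
    _ = _ := by ring

end DiscAux

open DiscAux in
theorem disc_mom (k : ℕ) (δ : ℝ) (hδ : 0 < δ) : ∃ K : ℕ, 1 ≤ K ∧
    ∀ c : ℕ → ℝ, (∀ n, |c n| ≤ 2) → ∀ N h : ℕ, 1 ≤ N → K ≤ h →
      |Dg c k N h| ≤ (1 / K : ℝ) * (Real.sqrt h) ^ k →
      (∑ a ∈ Ioc N (2 * N), |s2 c h a - h * c2|) / N ≤ (1 / K : ℝ) * h →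
        |Mg c k N h - gm k| ≤ δ := by
  rcases Nat.even_or_odd k with hk | hk
  · obtain ⟨l, rfl⟩ := even_iff_exists_two_mul.1 hk
    exact even_case l δ hδ
  · exact odd_case hk δ hδ

end Pool.Agent.P4f18dfC
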