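import Pool.Agent.Lib.P4f18dfC.NetC
import Pool.Agent.Lib.P4f18dfT.Final

/-!
# The exceptional characters of the large range, with the size of the exceptional set

A net of scales starting at any `Z ≥ 1`, Markov's inequality at the net points, and comparison.
-/

set_option autoImplicit false

namespace Pool.Agent.P4f18dfC

open Finset Filter Pool.Agent.P4f18df Pool.Agent.P4f18dfT

open Classical in
/-- Markov at one point of the net -/
theorem net_markov {p : ℕ} (hp : p.Prime) (K : ℕ) (hK : 1 ≤ K) (e : ℕ) (he : 1 ≤ e) (he2 : e ≤ 2)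
    (w : ℕ → ℝ) (hw : ∀ n, |w n| ≤ 1) {k N h : ℕ} (hk : 1 ≤ k) (hkK : k ≤ K + 1)
    (S : Finset (Fin k)) (hN : 1 ≤ N) (hh1 : 1 ≤ h) (hh : h < p) {T M : ℝ} (hT : (h : ℝ) ≤ T)
    (hM : M ≤ N) (hMp : M ≤ p) (hM0 : 0 < M) :
    ((univ.filter (fun χ : DirichletCharacter ℂ p =>
      1 / (2 * K : ℝ) < ‖DE (fun n => xc χ n ^ e) w k S N h‖)).card : ℝ) ≤
        p / M * (128 * K ^ 2 * (K + 1) ^ 2 * T ^ (2 * (K + 1))) := by
  have hK0 : (0:ℝ) < K := by exact_mod_cast hK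
  have hp0 : (0:ℝ) < p := by exact_mod_cast hp.pos
  have hN0 : (0:ℝ) < N := by exact_mod_cast hN
  have hh0 : (1:ℝ) ≤ h := by exact_mod_cast hh1
  have hT1 : 1 ≤ T := hh0.trans hT
  set F := univ.filter (fun χ : DirichletCharacter ℂ p =>
      1 / (2 * K : ℝ) < ‖DE (fun n => xc χ n ^ e) w k S N h‖) with hF
  have h1 := root_bound hp e he w hw (N := N) (h := h) S hk hN hh
  have h2 : (F.card : ℝ) * (1 / (2 * K : ℝ)) ^ 2 ≤
      ∑ χ : DirichletCharacter ℂ p, ‖DE (fun n => xc χ n ^ e) w k S N h‖ ^ 2 := by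
    calc (F.card : ℝ) * (1 / (2 * K : ℝ)) ^ 2 = ∑ _χ ∈ F, (1 / (2 * K : ℝ)) ^ 2 := by
          rw [Finset.sum_const, nsmul_eq_mul]
      _ ≤ ∑ χ ∈ F, ‖DE (fun n => xc χ n ^ e) w k S N h‖ ^ 2 := by
          apply Finset.sum_le_sum
          intro χ hχ
          exact pow_le_pow_left₀ (by positivity) (Finset.mem_filter.1 hχ).2.le 2
      _ ≤ _ := Finset.sum_le_sum_of_subset_of_nonneg (Finset.subset_univ _)
          (fun _ _ _ => by positivity)
  have h3 : (1 / p + 1 / N : ℝ) ≤ 2 / M := by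
    have a1 : (1 / p : ℝ) ≤ 1 / M := one_div_le_one_div_of_le hM0 hMp
    have a2 : (1 / N : ℝ) ≤ 1 / M := one_div_le_one_div_of_le hM0 hM
    calc (1 / p + 1 / N : ℝ) ≤ 1 / M + 1 / M := add_le_add a1 a2
      _ = 2 / M := by ring
  have h4 : (h : ℝ) ^ (2 * k) ≤ T ^ (2 * (K + 1)) :=
    calc (h : ℝ) ^ (2 * k) ≤ T ^ (2 * k) := pow_le_pow_left₀ (by linarith) hT _
      _ ≤ T ^ (2 * (K + 1)) := pow_le_pow_right₀ hT1 (by omega)
  have h5 : (8 * e * k ^ 2 : ℝ) ≤ 16 * (K + 1) ^ 2 := by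
    have b1 : (e : ℝ) ≤ 2 := by exact_mod_cast he2
    have b2 : (k : ℝ) ≤ K + 1 := by exact_mod_cast hkK
    have b3 : (k : ℝ) ^ 2 ≤ (K + 1) ^ 2 := pow_le_pow_left₀ (by positivity) b2 2
    calc (8 * e * k ^ 2 : ℝ) ≤ 8 * 2 * (K + 1) ^ 2 := by gcongr
      _ = _ := by ring
  have h6 : (F.card : ℝ) * (1 / (2 * K : ℝ)) ^ 2 ≤
      p * (16 * (K + 1) ^ 2 * T ^ (2 * (K + 1)) * (2 / M)) := by
    refine h2.trans (h1.trans ?_)
    apply mul_le_mul_of_nonneg_left _ hp0.le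
    apply mul_le_mul _ h3 (by positivity) (by positivity)
    exact mul_le_mul h5 h4 (by positivity) (by positivity)
  calc (F.card : ℝ) = ((F.card : ℝ) * (1 / (2 * K : ℝ)) ^ 2) * (4 * K ^ 2) := by
        field_simp; ring
    _ ≤ (p * (16 * (K + 1) ^ 2 * T ^ (2 * (K + 1)) * (2 / M))) * (4 * K ^ 2) :=
        mul_le_mul_of_nonneg_right h6 (by positivity)
    _ = _ := by ring

/-- comparison with a net point -/
theorem net_comp {K : ℕ} (hK : 1 ≤ K) (g : ℕ → ℂ) (hg : ∀ n, ‖g n‖ ≤ 1) (w : ℕ → ℝ)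
    (hw : ∀ n, |w n| ≤ 1) {k n N h : ℕ} (hkK : k ≤ K + 1) (S : Finset (Fin k))
    (hn : 1 ≤ n) (hnN : n ≤ N) {T x : ℝ} (hh1 : 1 ≤ h) (hT : (h : ℝ) ≤ T) (hx1 : x ≤ 1)
    (hN : (N : ℝ) - n ≤ n * x) (hTx : 8 * K * T ^ (K + 1) * x ≤ 1)
    (h0 : ‖DE g w k S n h‖ ≤ 1 / (2 * K : ℝ)) : ‖DE g w k S N h‖ ≤ 1 / K := by
  have hK0 : (0:ℝ) < K := by exact_mod_cast hK
  have hn0 : (0:ℝ) < n := by exact_mod_cast hn
  have hh0 : (1:ℝ) ≤ h := by exact_mod_cast hh1
  have hT1 : 1 ≤ T := hh0.trans hT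
  have hx0 : 0 ≤ x := by
    have : (n : ℝ) ≤ N := by exact_mod_cast hnN
    by_contra hc
    push Not at hc
    nlinarith
  have hN2 : N ≤ 2 * n := by
    have : (N : ℝ) ≤ 2 * n := by nlinarith
    exact_mod_cast this
  have h1 := DE_comp g hg w hw k S (h := h) hn hnN hN2
  have h2 : 4 * (h : ℝ) ^ k * ((N : ℝ) - n) / n ≤ 1 / (2 * K : ℝ) := by
    have h4 : (h : ℝ) ^ k ≤ T ^ (K + 1) :=
      calc (h : ℝ) ^ k ≤ T ^ k := pow_le_pow_left₀ (by linarith) hT _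
        _ ≤ T ^ (K + 1) := pow_le_pow_right₀ hT1 hkK
    rw [div_le_iff₀ hn0]
    calc 4 * (h : ℝ) ^ k * ((N : ℝ) - n) ≤ 4 * T ^ (K + 1) * (n * x) := by
          have : (0:ℝ) ≤ n * x := by positivity
          have h5 : (n : ℝ) ≤ N := by exact_mod_cast hnN
          exact mul_le_mul (by linarith) hN (by linarith) (by positivity)
      _ = (8 * K * T ^ (K + 1) * x) * (1 / (2 * K) * n) := by field_simp; ring
      _ ≤ 1 * (1 / (2 * K) * n) := mul_le_mul_of_nonneg_right hTx (by positivity)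
      _ = 1 / (2 * K) * n := one_mul _
  have h3 : (1 / (2 * K : ℝ)) + 1 / (2 * K) = 1 / K := by field_simp; ring
  calc ‖DE g w k S N h‖ = ‖(DE g w k S N h - DE g w k S n h) + DE g w k S n h‖ := by
        rw [sub_add_cancel]
    _ ≤ ‖DE g w k S N h - DE g w k S n h‖ + ‖DE g w k S n h‖ := norm_add_le _ _
    _ ≤ 1 / (2 * K) + 1 / (2 * K) := add_le_add (h1.trans h2) h0
    _ = 1 / K := h3

/-- `GoodC` from bounds by `1/K` -/
theorem goodC_of {K : ℕ} (hK : 1 ≤ K) {g : ℕ → ℂ} {N h : ℕ} (hh : 1 ≤ h)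
    (h1 : ∀ k ∈ Icc 1 K, ∀ S : Finset (Fin k), ‖DE g mu k S N h‖ ≤ 1 / K)
    (h2 : ‖DE (fun n => g n ^ 2) (fun _ => 1) 2 {0} N h‖ ≤ 1 / K) : GoodC K g N h := by
  have hK0 : (0:ℝ) < K := by exact_mod_cast hK
  have hh0 : (1:ℝ) ≤ h := by exact_mod_cast hh
  have hs : (1:ℝ) ≤ Real.sqrt h := by
    rw [Real.one_le_sqrt]; exact hh0
  constructor
  · intro k hk S
    refine (h1 k hk S).trans ?_
    have : (1:ℝ) ≤ (Real.sqrt h) ^ k := one_le_pow₀ hs
    calc (1 / K : ℝ) = 1 / K * 1 := (mul_one _).symm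
      _ ≤ 1 / K * (Real.sqrt h) ^ k := mul_le_mul_of_nonneg_left this (by positivity)
  · refine h2.trans ?_
    calc (1 / K : ℝ) = 1 / K * 1 := (mul_one _).symm
      _ ≤ 1 / K * h := mul_le_mul_of_nonneg_left hh0 (by positivity)

/-- the exceptional set for a net -/
theorem net_exc {p : ℕ} (hp : p.Prime) (K : ℕ) (hK : 1 ≤ K) {T M : ℝ} (hT1 : 1 ≤ T) (hTp : T < p)
    (hM0 : 0 < M) (hMp : M ≤ p) (J : Finset ℕ) (hJ1 : ∀ n ∈ J, 1 ≤ n) (hJM : ∀ n ∈ J, M ≤ (n : ℝ)) :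
    ∃ E : Finset (DirichletCharacter ℂ p),
      (E.card : ℝ) ≤ J.card * T * (K * 2 ^ K + 1) *
        (p / M * (128 * K ^ 2 * (K + 1) ^ 2 * T ^ (2 * (K + 1)))) ∧
        ∀ χ : DirichletCharacter ℂ p, χ ∉ E → ∀ n ∈ J, ∀ h : ℕ, 1 ≤ h → (h : ℝ) ≤ T →
          (∀ k ∈ Icc 1 K, ∀ S : Finset (Fin k), ‖DE (xc χ) mu k S n h‖ ≤ 1 / (2 * K : ℝ)) ∧
            ‖DE (fun n => xc χ n ^ 2) (fun _ => 1) 2 {0} n h‖ ≤ 1 / (2 * K : ℝ) := by
  classical
  have hK0 : (0:ℝ) < K := by exact_mod_cast hK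
  have hp0 : (0:ℝ) < p := by exact_mod_cast hp.pos
  set R : ℝ := p / M * (128 * K ^ 2 * (K + 1) ^ 2 * T ^ (2 * (K + 1))) with hR
  have hR0 : 0 ≤ R := by positivity
  let F1 : ℕ → ℕ → (k : ℕ) → Finset (Fin k) → Finset (DirichletCharacter ℂ p) := fun n h k S =>
    univ.filter (fun χ => 1 / (2 * K : ℝ) < ‖DE (fun n => xc χ n ^ 1) mu k S n h‖)
  let F2 : ℕ → ℕ → Finset (DirichletCharacter ℂ p) := fun n h =>
    univ.filter (fun χ => 1 / (2 * K : ℝ) < ‖DE (fun n => xc χ n ^ 2) (fun _ => 1) 2 {0} n h‖)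
  let G : ℕ → ℕ → Finset (DirichletCharacter ℂ p) := fun n h =>
    ((Icc 1 K).biUnion (fun k => (univ : Finset (Finset (Fin k))).biUnion (fun S => F1 n h k S))) ∪
      F2 n h
  have hmu : ∀ n, |mu n| ≤ 1 := by
    intro n
    unfold mu
    have := ArithmeticFunction.abs_moebius_le_one (n := n)
    exact_mod_cast this
  have hG : ∀ n ∈ J, ∀ h : ℕ, 1 ≤ h → (h : ℝ) ≤ T → ((G n h).card : ℝ) ≤ (K * 2 ^ K + 1) * R := by
    intro n hn h hh1 hhT
    have hhp : h < p := by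
      have : (h : ℝ) < p := lt_of_le_of_lt hhT hTp
      exact_mod_cast this
    have a1 : ∀ k ∈ Icc 1 K, ∀ S : Finset (Fin k), ((F1 n h k S).card : ℝ) ≤ R := by
      intro k hk S
      have hk' := Finset.mem_Icc.1 hk
      exact net_markov hp K hK 1 le_rfl (by norm_num) mu hmu hk'.1 (by omega) S (hJ1 n hn) hh1 hhp
        hhT (hJM n hn) hMp hM0
    have a2 : ((F2 n h).card : ℝ) ≤ R :=
      net_markov hp K hK 2 (by norm_num) le_rfl (fun _ => 1) (fun _ => by simp) (by norm_num)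
        (by omega) {0} (hJ1 n hn) hh1 hhp hhT (hJM n hn) hMp hM0
    have a3 : (((Icc 1 K).biUnion (fun k =>
        (univ : Finset (Finset (Fin k))).biUnion (fun S => F1 n h k S))).card : ℝ) ≤
          K * 2 ^ K * R := by
      calc _ ≤ ∑ k ∈ Icc 1 K, (((univ : Finset (Finset (Fin k))).biUnion
              (fun S => F1 n h k S)).card : ℝ) := by exact_mod_cast Finset.card_biUnion_le
        _ ≤ ∑ k ∈ Icc 1 K, ∑ S : Finset (Fin k), ((F1 n h k S).card : ℝ) := by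
            apply Finset.sum_le_sum
            intro k _
            exact_mod_cast Finset.card_biUnion_le
        _ ≤ ∑ k ∈ Icc 1 K, ∑ _S : Finset (Fin k), R :=
            Finset.sum_le_sum fun k hk => Finset.sum_le_sum fun S _ => a1 k hk S
        _ = ∑ k ∈ Icc 1 K, (2:ℝ) ^ k * R := by
            apply Finset.sum_congr rfl
            intro k _
            rw [Finset.sum_const, nsmul_eq_mul]
            simp
        _ ≤ ∑ _k ∈ Icc 1 K, (2:ℝ) ^ K * R := by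
            apply Finset.sum_le_sum
            intro k hk
            exact mul_le_mul_of_nonneg_right
              (pow_le_pow_right₀ (by norm_num) (Finset.mem_Icc.1 hk).2) hR0
        _ = K * 2 ^ K * R := by
            rw [Finset.sum_const, nsmul_eq_mul]
            simp
            ring
    calc ((G n h).card : ℝ) ≤ (((Icc 1 K).biUnion (fun k =>
        (univ : Finset (Finset (Fin k))).biUnion (fun S => F1 n h k S))).card : ℝ) +
          (F2 n h).card := by exact_mod_cast Finset.card_union_le _ _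
      _ ≤ K * 2 ^ K * R + R := add_le_add a3 a2
      _ = _ := by ring
  refine ⟨J.biUnion (fun n => (Icc 1 ⌊T⌋₊).biUnion (fun h => G n h)), ?_, ?_⟩
  · calc _ ≤ ∑ n ∈ J, (((Icc 1 ⌊T⌋₊).biUnion (fun h => G n h)).card : ℝ) := by
          exact_mod_cast Finset.card_biUnion_le
      _ ≤ ∑ n ∈ J, ∑ h ∈ Icc 1 ⌊T⌋₊, ((G n h).card : ℝ) := by
          apply Finset.sum_le_sum
          intro n _
          exact_mod_cast Finset.card_biUnion_le
      _ ≤ ∑ n ∈ J, ∑ _h ∈ Icc 1 ⌊T⌋₊, (K * 2 ^ K + 1) * R := by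
          apply Finset.sum_le_sum
          intro n hn
          apply Finset.sum_le_sum
          intro h hh
          have hh' := Finset.mem_Icc.1 hh
          exact hG n hn h hh'.1 ((Nat.le_floor_iff (by linarith)).1 hh'.2)
      _ = J.card * ⌊T⌋₊ * ((K * 2 ^ K + 1) * R) := by
          simp only [Finset.sum_const, nsmul_eq_mul, Nat.card_Icc, Nat.add_sub_cancel]
          ring
      _ ≤ J.card * T * ((K * 2 ^ K + 1) * R) := by
          have : (⌊T⌋₊ : ℝ) ≤ T := Nat.floor_le (by linarith)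
          gcongr
      _ = _ := by ring
  · intro χ hχ n hn h hh1 hhT
    have hmem : χ ∉ G n h := by
      intro hc
      apply hχ
      rw [Finset.mem_biUnion]
      refine ⟨n, hn, ?_⟩
      rw [Finset.mem_biUnion]
      exact ⟨h, Finset.mem_Icc.2 ⟨hh1, Nat.le_floor hhT⟩, hc⟩
    constructor
    · intro k hk S
      by_contra hc
      push Not at hc
      apply hmem
      refine Finset.mem_union_left _ ?_
      rw [Finset.mem_biUnion]
      refine ⟨k, hk, ?_⟩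
      rw [Finset.mem_biUnion]
      refine ⟨S, Finset.mem_univ _, ?_⟩
      refine Finset.mem_filter.2 ⟨Finset.mem_univ _, ?_⟩
      simpa using hc
    · by_contra hc
      push Not at hc
      apply hmem
      refine Finset.mem_union_right _ ?_
      exact Finset.mem_filter.2 ⟨Finset.mem_univ _, hc⟩

/-- the net: every `N` of the range is just above a net point -/
theorem net_pts {Z x V : ℝ} (hZ : 1 ≤ Z) (hx : 0 < x) (hx1 : x ≤ 1) (hV : 0 ≤ V) :
    ∃ J : Finset ℕ, (J.card : ℝ) ≤ 2 * V / x + 1 ∧ (∀ n ∈ J, Z ≤ (n : ℝ)) ∧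
      ∀ N : ℕ, Z ≤ N → (N : ℝ) ≤ Real.exp V → ∃ n ∈ J, n ≤ N ∧ (N : ℝ) - n ≤ n * x := by
  classical
  set m := ⌊2 * V / x⌋₊ with hm
  refine ⟨(range (m + 1)).image (fun j => ⌈Z * (1 + x) ^ j⌉₊), ?_, ?_, ?_⟩
  · have h1 : (((range (m + 1)).image (fun j => ⌈Z * (1 + x) ^ j⌉₊)).card : ℝ) ≤ m + 1 := by
      have := Finset.card_image_le (s := range (m + 1)) (f := fun j => ⌈Z * (1 + x) ^ j⌉₊)
      rw [Finset.card_range] at this
      exact_mod_cast this
    have h2 : (m : ℝ) ≤ 2 * V / x := Nat.floor_le (by positivity)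
    linarith
  · intro n hn
    obtain ⟨j, _, rfl⟩ := Finset.mem_image.1 hn
    have h1 : Z * (1 + x) ^ j ≤ (⌈Z * (1 + x) ^ j⌉₊ : ℝ) := Nat.le_ceil _
    have h2 : (1:ℝ) ≤ (1 + x) ^ j := one_le_pow₀ (by linarith)
    nlinarith
  · intro N hZN hN
    have hN0 : (0:ℝ) < N := by linarith
    -- the largest `j` with `Z (1+x)^j ≤ N`
    have hex : ∃ j : ℕ, Z * (1 + x) ^ j ≤ N ∧ (N : ℝ) < Z * (1 + x) ^ (j + 1) := by
      have hun : ∃ j : ℕ, (N : ℝ) < Z * (1 + x) ^ j := by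
        obtain ⟨j, hj⟩ := pow_unbounded_of_one_lt (N : ℝ) (by linarith : 1 < 1 + x)
        refine ⟨j, hj.trans_le ?_⟩
        have : 0 ≤ (1 + x) ^ j := by positivity
        nlinarith
      have h0 := Nat.find_spec hun
      set j := Nat.find hun with hj
      have hj0 : j ≠ 0 := by
        intro hc
        rw [hc] at h0
        simp at h0
        linarith
      obtain ⟨i, hi⟩ := Nat.exists_eq_succ_of_ne_zero hj0
      refine ⟨i, ?_, ?_⟩
      · have := Nat.find_min hun (m := i) (by omega)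
        push Not at this
        exact this
      · have h1 : j = i + 1 := hi
        rw [h1] at h0
        exact h0
    obtain ⟨j, hj1, hj2⟩ := hex
    refine ⟨⌈Z * (1 + x) ^ j⌉₊, ?_, ?_, ?_⟩
    · apply Finset.mem_image_of_mem
      rw [Finset.mem_range, Nat.lt_succ_iff]
      apply Nat.le_floor
      -- `j log (1+x) ≤ V`
      have h1 : (1 + x) ^ j ≤ Real.exp V := by
        have : (1 + x) ^ j ≤ Z * (1 + x) ^ j := by
          have : 0 ≤ (1 + x) ^ j := by positivity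
          nlinarith
        linarith
      have h2 : (j : ℝ) * Real.log (1 + x) ≤ V := by
        have := Real.log_le_log (by positivity) h1
        rwa [Real.log_pow, Real.log_exp] at this
      have h3 : x / 2 ≤ Real.log (1 + x) := by
        have h4 := Real.one_sub_inv_le_log_of_pos (by linarith : 0 < 1 + x)
        have h5 : x / 2 ≤ 1 - (1 + x)⁻¹ := by
          rw [le_sub_iff_add_le, inv_eq_one_div, ← le_sub_iff_add_le', div_le_iff₀ (by linarith)]
          nlinarith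
        linarith
      rw [le_div_iff₀ hx]
      have h6 : (j : ℝ) * (x / 2) ≤ V := by
        have hj0 : (0:ℝ) ≤ j := Nat.cast_nonneg _
        nlinarith
      linarith
    · exact Nat.ceil_le.2 hj1
    · have h1 : Z * (1 + x) ^ j ≤ (⌈Z * (1 + x) ^ j⌉₊ : ℝ) := Nat.le_ceil _
      have h2 : (N : ℝ) < (Z * (1 + x) ^ j) * (1 + x) := by
        rw [mul_assoc, ← pow_succ]; exact hj2
      nlinarith

theorem bad_netE (K : ℕ) (hK : 1 ≤ K) (η : ℝ) (hη : 0 < η) :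
    ∃ c₀ : ℝ, 0 < c₀ ∧ ∀ c : ℝ, 0 < c → c ≤ c₀ → ∃ P₀ : ℕ, ∀ p : ℕ, p.Prime → P₀ ≤ p →
      ∀ Z : ℝ, 1 ≤ Z → ∃ E : Finset (DirichletCharacter ℂ p),
        (E.card : ℝ) ≤ (p : ℝ) ^ (1 + η) / min Z p ∧
        ∀ χ : DirichletCharacter ℂ p, χ ∉ E → ∀ h : ℕ, 1 ≤ h → (h : ℝ) ≤ (p : ℝ) ^ c →
          ∀ N : ℕ, Z ≤ N → (N : ℝ) ≤ Real.exp ((p : ℝ) ^ c) → GoodC K (xc χ) N h := by
  classical
  have hK0 : (0:ℝ) < K := by exact_mod_cast hK
  set η' : ℝ := min η 1 with hη'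
  have hη'0 : 0 < η' := lt_min hη one_pos
  have hη'1 : η' ≤ 1 := min_le_right _ _
  have hη'2 : η' ≤ η := min_le_left _ _
  set c₁ : ℝ := η' / 4 with hc₁
  have hc₁0 : 0 < c₁ := by positivity
  refine ⟨η' / (8 * K + 16), by positivity, ?_⟩
  intro c hc hcc
  have hcK : (2 * K + 4) * c ≤ η' / 4 := by
    rw [le_div_iff₀ (by positivity)] at hcc
    nlinarith
  have hc1 : c < 1 := by nlinarith
  set C : ℝ := 4 * (K * 2 ^ K + 1) * (128 * K ^ 2 * (K + 1) ^ 2) with hC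
  obtain ⟨P₀, hP₀⟩ := eventually_atTop.1
    ((ev_rpow_le (η' / 2) C (by positivity)).and
      ((ev_rpow_le (c₁ / 2) (8 * K) (by positivity)).and (eventually_ge_atTop 2)))
  refine ⟨P₀, ?_⟩
  intro p hp hpP Z hZ
  obtain ⟨g1, g2, g3⟩ := hP₀ p hpP
  have hp2r : (2:ℝ) ≤ p := by exact_mod_cast g3
  have hp0 : (0:ℝ) < p := by linarith
  have hp1 : (1:ℝ) ≤ p := by linarith
  set T : ℝ := (p : ℝ) ^ c with hT
  have hT1 : 1 ≤ T := Real.one_le_rpow hp1 hc.le
  have hTp : T < p := by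
    calc (p : ℝ) ^ c < (p : ℝ) ^ (1:ℝ) := Real.rpow_lt_rpow_of_exponent_lt (by linarith) hc1
      _ = p := Real.rpow_one _
  set x : ℝ := (p : ℝ) ^ (-c₁) with hx
  have hx0 : 0 < x := Real.rpow_pos_of_pos hp0 _
  have hx1 : x ≤ 1 := Real.rpow_le_one_of_one_le_of_nonpos hp1 (by linarith)
  set M : ℝ := min Z p with hM
  have hM0 : 0 < M := lt_min (by linarith) hp0
  obtain ⟨J, hJc, hJ1, hJ2⟩ := net_pts (Z := Z) (x := x) (V := T) hZ hx0 hx1 (by linarith)
  obtain ⟨E, hE1, hE2⟩ := net_exc hp K hK hT1 hTp hM0 (min_le_right _ _) J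
    (fun n hn => by
      have := hJ1 n hn
      have h2 : (1:ℝ) ≤ n := hZ.trans this
      exact_mod_cast h2)
    (fun n hn => (min_le_left _ _).trans (hJ1 n hn))
  refine ⟨E, ?_, ?_⟩
  · refine hE1.trans ?_
    have a1 : (J.card : ℝ) ≤ 4 * (p : ℝ) ^ (c + c₁) := by
      have b1 : 2 * T / x = 2 * (p : ℝ) ^ (c + c₁) := by
        rw [hx, hT, Real.rpow_neg hp0.le, Real.rpow_add hp0]
        field_simp
      have b2 : (1:ℝ) ≤ (p : ℝ) ^ (c + c₁) := Real.one_le_rpow hp1 (by linarith)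
      linarith
    have a2 : T * T ^ (2 * (K + 1)) = (p : ℝ) ^ (c * (2 * K + 3)) := by
      rw [hT, ← pow_succ', ← Real.rpow_natCast, ← Real.rpow_mul hp0.le]
      push_cast
      ring_nf
    have a3 : (p : ℝ) ^ (c + c₁) * (p : ℝ) ^ (c * (2 * K + 3)) ≤ (p : ℝ) ^ (η' / 2) := by
      rw [← Real.rpow_add hp0]
      apply Real.rpow_le_rpow_of_exponent_le hp1
      rw [hc₁]
      nlinarith
    have a4 : (p : ℝ) ^ (η' / 2) * (p : ℝ) ^ (η' / 2) ≤ (p : ℝ) ^ η := by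
      rw [← Real.rpow_add hp0]
      apply Real.rpow_le_rpow_of_exponent_le hp1
      linarith
    have a5 : 0 < (p : ℝ) ^ (η' / 2) := Real.rpow_pos_of_pos hp0 _
    calc (J.card : ℝ) * T * (K * 2 ^ K + 1) *
          (p / M * (128 * K ^ 2 * (K + 1) ^ 2 * T ^ (2 * (K + 1))))
        ≤ (4 * (p : ℝ) ^ (c + c₁)) * T * (K * 2 ^ K + 1) *
          (p / M * (128 * K ^ 2 * (K + 1) ^ 2 * T ^ (2 * (K + 1)))) := by gcongr
      _ = C * ((p : ℝ) ^ (c + c₁) * (T * T ^ (2 * (K + 1)))) * (p / M) := by rw [hC]; ring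
      _ = C * ((p : ℝ) ^ (c + c₁) * (p : ℝ) ^ (c * (2 * K + 3))) * (p / M) := by rw [a2]
      _ ≤ (p : ℝ) ^ (η' / 2) * (p : ℝ) ^ (η' / 2) * (p / M) := by gcongr
      _ ≤ (p : ℝ) ^ η * (p / M) := by gcongr
      _ = (p : ℝ) ^ (1 + η) / M := by
          rw [Real.rpow_add hp0, Real.rpow_one]; ring
  · intro χ hχ h hh1 hhT N hZN hN
    obtain ⟨n, hnJ, hnN, hnx⟩ := hJ2 N hZN hN
    obtain ⟨e1, e2⟩ := hE2 χ hχ n hnJ h hh1 hhT
    have hn1 : 1 ≤ n := by
      have := hJ1 n hnJ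
      have h2 : (1:ℝ) ≤ n := hZ.trans this
      exact_mod_cast h2
    have hmu : ∀ n, |mu n| ≤ 1 := by
      intro n
      unfold mu
      have := ArithmeticFunction.abs_moebius_le_one (n := n)
      exact_mod_cast this
    have hTx : 8 * K * T ^ (K + 1) * x ≤ 1 := by
      have b1 : T ^ (K + 1) = (p : ℝ) ^ (c * (K + 1)) := by
        rw [hT, ← Real.rpow_natCast, ← Real.rpow_mul hp0.le]
        push_cast
        rfl
      have b2 : (p : ℝ) ^ (c * (K + 1)) ≤ (p : ℝ) ^ (c₁ / 2) := by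
        apply Real.rpow_le_rpow_of_exponent_le hp1
        rw [hc₁]
        nlinarith
      have b3 : x = ((p : ℝ) ^ (c₁ / 2) * (p : ℝ) ^ (c₁ / 2))⁻¹ := by
        rw [hx, Real.rpow_neg hp0.le, ← Real.rpow_add hp0]
        ring_nf
      have b4 : 0 < (p : ℝ) ^ (c₁ / 2) := Real.rpow_pos_of_pos hp0 _
      rw [b1, b3, ← div_eq_mul_inv, div_le_one (by positivity)]
      calc 8 * K * (p : ℝ) ^ (c * (K + 1)) ≤ (p : ℝ) ^ (c₁ / 2) * (p : ℝ) ^ (c₁ / 2) := by
            gcongr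
        _ = _ := rfl
    have hxc1 : ∀ m, ‖xc χ m‖ ≤ 1 := by
      intro m
      unfold xc
      split_ifs
      · simp
      · exact χ.norm_le_one _
    have hxc2 : ∀ m, ‖(fun m => xc χ m ^ 2) m‖ ≤ 1 := by
      intro m
      simp only [norm_pow]
      exact pow_le_one₀ (norm_nonneg _) (hxc1 m)
    apply goodC_of hK hh1
    · intro k hk S
      exact net_comp hK (xc χ) hxc1 mu hmu (by have := (Finset.mem_Icc.1 hk).2; omega) S hn1 hnN hh1
        hhT hx1 hnx hTx (e1 k hk S)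
    · exact net_comp hK _ hxc2 (fun _ => 1) (fun _ => by simp) (by omega) {0} hn1 hnN hh1
        hhT hx1 hnx hTx e2

end Pool.Agent.P4f18dfC
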