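import Pool.Agent.Lib.P4f18dfC.Tail
import Pool.Agent.Lib.P4f18dfT.Small

/-!
# The exceptional characters of the small range

Module CX.Small.  Union bound, the same as `Lib/P4f18dfT/Small.lean` (`bad_small`, `sum_tail`): `b ≥ B + 4`, `char_tail` for
`k ∈ Icc 1 K`, all `S`, `e = 1`, `w = mu`, `η = 1/K`, and for `k = 2`, `e = 2`, `w = 1`, `S = {0}`, `η = 1/K`
(`(√h)^2 = h`; `fun n => xc χ n ^ 1` is `xc χ`).  `cs` with `cs A ≤ 1`, `cs ≤ 1/2`, so `N ≤ p^cs` gives `N^A ≤ p`; `Y₀` so large that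
`N ≥ Y₀/4` is large enough for all the (finitely many) eventual statements.  `E` = union over `k`, `S`, `N ∈ [Y/4, p^cs]`,
`1 ≤ h ≤ N`.  `|E| ≤ p (K 2^K + 1) ∑_{N ≥ Y/4} N^(1-b) ≤ p Y^(-B) / 2` for `Y ≥ Y₀`.
-/

set_option autoImplicit false

namespace Pool.Agent.P4f18dfC

open Finset Filter Pool.Agent.P4f18df Pool.Agent.P4f18dfT

namespace Small

open Classical in
/-- the characters which are bad for one moment -/
noncomputable def badM (K k N h p e : ℕ) (w : ℕ → ℝ) (S : Finset (Fin k)) :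
    Finset (DirichletCharacter ℂ p) :=
  univ.filter (fun χ : DirichletCharacter ℂ p =>
    (1 / K : ℝ) * (Real.sqrt h) ^ k < ‖DE (fun n => xc χ n ^ e) w k S N h‖)

open Classical in
/-- the characters which are bad for one scale and one length -/
noncomputable def badG (K N h p : ℕ) : Finset (DirichletCharacter ℂ p) :=
  univ.filter (fun χ : DirichletCharacter ℂ p => ¬ GoodC K (xc χ) N h)

theorem abs_mu_le (n : ℕ) : |mu n| ≤ 1 := by
  unfold mu
  have := ArithmeticFunction.abs_moebius_le_one (n := n)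
  exact_mod_cast this

open Classical in
theorem badG_sub (K N h p : ℕ) :
    badG K N h p ⊆ ((Icc 1 K).biUnion fun k => (univ : Finset (Finset (Fin k))).biUnion fun S =>
      badM K k N h p 1 mu S) ∪ badM K 2 N h p 2 (fun _ => 1) {0} := by
  intro χ hχ
  unfold badG at hχ
  rw [mem_filter] at hχ
  have h1 := hχ.2
  unfold GoodC at h1
  rw [not_and_or] at h1
  rw [mem_union]
  rcases h1 with h1 | h1
  · left
    push Not at h1
    obtain ⟨k, hk, S, hS⟩ := h1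
    rw [mem_biUnion]
    refine ⟨k, hk, ?_⟩
    rw [mem_biUnion]
    refine ⟨S, mem_univ _, ?_⟩
    unfold badM
    rw [mem_filter]
    refine ⟨mem_univ _, ?_⟩
    simpa only [pow_one] using hS
  · right
    push Not at h1
    unfold badM
    rw [mem_filter]
    refine ⟨mem_univ _, ?_⟩
    rw [Real.sq_sqrt (Nat.cast_nonneg h)]
    exact h1

theorem uniform (K q b : ℕ) (hK : 1 ≤ K) (hq : 1 ≤ q) :
    ∃ A : ℕ, ∀ᶠ N : ℕ in atTop, ∀ h : ℕ, 1 ≤ h →
      (h : ℝ) ≤ (N : ℝ) ^ (1 - 1 / q : ℝ) → ∀ p : ℕ, p.Prime → N ^ A ≤ p →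
      ((badG K N h p).card : ℝ) ≤ (K * 2 ^ K + 1) * (p * ((N : ℝ) ^ b)⁻¹) := by
  classical
  have hK0 : (0:ℝ) < K := by exact_mod_cast hK
  have hη : (0:ℝ) < 1 / K := by positivity
  have h1 : ∀ k ∈ Icc 1 K, ∃ A : ℕ, ∀ᶠ N : ℕ in atTop, ∀ h : ℕ, 1 ≤ h →
      (h : ℝ) ≤ (N : ℝ) ^ (1 - 1 / q : ℝ) → ∀ p : ℕ, p.Prime → N ^ A ≤ p →
      ∀ S : Finset (Fin k), ((badM K k N h p 1 mu S).card : ℝ) ≤ p * ((N : ℝ) ^ b)⁻¹ := by
    intro k hk
    obtain ⟨A, hA⟩ := char_tail k q b 1 (mem_Icc.1 hk).1 hq le_rfl (1 / K) hη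
    refine ⟨A, ?_⟩
    filter_upwards [hA] with N hA h hh1 hh p hp hN S
    exact hA h hh1 hh p hp hN mu abs_mu_le S
  obtain ⟨A₂, hA₂⟩ := char_tail 2 q b 2 (by norm_num) hq (by norm_num) (1 / K) hη
  choose! A hA using h1
  refine ⟨max ((Icc 1 K).sup A) A₂, ?_⟩
  have h5 := (eventually_all_finset (Icc 1 K)).2 hA
  filter_upwards [h5, hA₂, eventually_ge_atTop 1] with N hN hN2 hN1 h hh1 hh p hp hNp
  have h6 : N ^ (Icc 1 K).sup A ≤ p :=
    (Nat.pow_le_pow_right hN1 (le_max_left _ _)).trans hNp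
  have h7 : N ^ A₂ ≤ p := (Nat.pow_le_pow_right hN1 (le_max_right _ _)).trans hNp
  have h8 : ((badM K 2 N h p 2 (fun _ => 1) {0}).card : ℝ) ≤ p * ((N : ℝ) ^ b)⁻¹ :=
    hN2 h hh1 hh p hp h7 (fun _ => 1) (fun _ => by simp) {0}
  have h9 : ∀ k ∈ Icc 1 K, ∀ S : Finset (Fin k),
      ((badM K k N h p 1 mu S).card : ℝ) ≤ p * ((N : ℝ) ^ b)⁻¹ := by
    intro k hk S
    exact hN k hk h hh1 hh p hp ((Nat.pow_le_pow_right hN1 (le_sup hk)).trans h6) S
  have hX : (0:ℝ) ≤ p * ((N : ℝ) ^ b)⁻¹ := by positivity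
  have h10 : (((Icc 1 K).biUnion fun k => (univ : Finset (Finset (Fin k))).biUnion fun S =>
      badM K k N h p 1 mu S).card : ℝ) ≤ (K * 2 ^ K) * (p * ((N : ℝ) ^ b)⁻¹) := by
    calc (((Icc 1 K).biUnion fun k => (univ : Finset (Finset (Fin k))).biUnion fun S =>
          badM K k N h p 1 mu S).card : ℝ)
        ≤ ∑ k ∈ Icc 1 K, ((univ : Finset (Finset (Fin k))).biUnion fun S =>
          badM K k N h p 1 mu S).card := by exact_mod_cast card_biUnion_le
      _ ≤ ∑ k ∈ Icc 1 K, 2 ^ K * (p * ((N : ℝ) ^ b)⁻¹) := by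
          push_cast
          refine sum_le_sum fun k hk => ?_
          calc (((univ : Finset (Finset (Fin k))).biUnion fun S =>
                badM K k N h p 1 mu S).card : ℝ)
              ≤ ∑ S : Finset (Fin k), ((badM K k N h p 1 mu S).card : ℝ) := by
                exact_mod_cast card_biUnion_le
            _ ≤ ∑ S : Finset (Fin k), (p * ((N : ℝ) ^ b)⁻¹) :=
                sum_le_sum fun S _ => h9 k hk S
            _ = 2 ^ k * (p * ((N : ℝ) ^ b)⁻¹) := by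
                rw [sum_const, card_univ, Fintype.card_finset, Fintype.card_fin, nsmul_eq_mul]
                push_cast
                ring
            _ ≤ 2 ^ K * (p * ((N : ℝ) ^ b)⁻¹) := by
                apply mul_le_mul_of_nonneg_right _ hX
                exact pow_le_pow_right₀ (by norm_num) (mem_Icc.1 hk).2
      _ = (K * 2 ^ K) * (p * ((N : ℝ) ^ b)⁻¹) := by
          rw [sum_const, Nat.card_Icc, Nat.add_sub_cancel, nsmul_eq_mul]
          ring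
  calc ((badG K N h p).card : ℝ)
      ≤ ((((Icc 1 K).biUnion fun k => (univ : Finset (Finset (Fin k))).biUnion fun S =>
          badM K k N h p 1 mu S) ∪ badM K 2 N h p 2 (fun _ => 1) {0}).card : ℝ) := by
        exact_mod_cast card_le_card (badG_sub K N h p)
    _ ≤ (((Icc 1 K).biUnion fun k => (univ : Finset (Finset (Fin k))).biUnion fun S =>
          badM K k N h p 1 mu S).card : ℝ) + ((badM K 2 N h p 2 (fun _ => 1) {0}).card : ℝ) := by
        exact_mod_cast card_union_le _ _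
    _ ≤ (K * 2 ^ K) * (p * ((N : ℝ) ^ b)⁻¹) + p * ((N : ℝ) ^ b)⁻¹ := add_le_add h10 h8
    _ = (K * 2 ^ K + 1) * (p * ((N : ℝ) ^ b)⁻¹) := by ring

end Small

open Pool.Agent.P4f18dfC.Small

theorem bad_smallC (K q : ℕ) (hK : 1 ≤ K) (hq : 1 ≤ q) (B : ℝ) (hB : 0 < B) :
    ∃ cs : ℝ, 0 < cs ∧ cs ≤ 1 / 2 ∧ ∃ Y₀ : ℝ, ∀ p : ℕ, p.Prime → ∀ Y : ℝ, Y₀ ≤ Y →
      ∃ E : Finset (DirichletCharacter ℂ p), (E.card : ℝ) ≤ p * Y ^ (-B) / 2 ∧
        ∀ χ : DirichletCharacter ℂ p, χ ∉ E → ∀ N : ℕ, Y / 4 ≤ N → (N : ℝ) ≤ (p : ℝ) ^ cs →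
          ∀ h : ℕ, 1 ≤ h → (h : ℝ) ≤ (N : ℝ) ^ (1 - 1 / q : ℝ) → GoodC K (xc χ) N h := by
  classical
  have hK0 : (0:ℝ) < K := by exact_mod_cast hK
  have hq0 : (0:ℝ) < q := by exact_mod_cast hq
  obtain ⟨n, hn⟩ := exists_nat_ge B
  obtain ⟨A, hA⟩ := Small.uniform K q (n + 4) hK hq
  obtain ⟨N0, hN0⟩ := eventually_atTop.1 hA
  have hA2 : (0:ℝ) < (A : ℝ) + 2 := by positivity
  set C : ℝ := (K : ℝ) * 2 ^ K + 1 with hC
  have hC0 : 0 < C := by positivity
  refine ⟨1 / ((A : ℝ) + 2), by positivity, ?_, 4 * N0 + 4 + 4 * C * 4 ^ (n + 1), ?_⟩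
  · rw [div_le_div_iff₀ hA2 (by norm_num)]
    have : (0:ℝ) ≤ A := by positivity
    linarith
  intro p hp Y hY
  have hp2 : (2:ℝ) ≤ p := by exact_mod_cast hp.two_le
  have hP0 : (0:ℝ) < p := by linarith
  have hP1 : (1:ℝ) ≤ p := by linarith
  have hpos : (0:ℝ) < 4 * C * 4 ^ (n + 1) := by positivity
  have hN0r : (0:ℝ) ≤ N0 := by positivity
  have hY4 : 4 ≤ Y := by linarith
  have hYN : 4 * (N0:ℝ) ≤ Y := by linarith
  have hYK : 4 * C * 4 ^ (n + 1) ≤ Y := by linarith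
  have hY0 : 0 < Y := by linarith
  set M : ℕ := ⌈Y / 4⌉₊ with hM
  have hMY : Y / 4 ≤ M := Nat.le_ceil _
  have hM1r : (1:ℝ) ≤ M := by linarith
  have hM1 : 1 ≤ M := by exact_mod_cast hM1r
  have hMN0 : N0 ≤ M := by
    have : (N0:ℝ) ≤ M := by linarith
    exact_mod_cast this
  -- consequences of `N ≤ p ^ cs`
  have hNP : ∀ N : ℕ, (N : ℝ) ≤ (p : ℝ) ^ (1 / ((A : ℝ) + 2)) → N ^ A ≤ p ∧ N ≤ p := by
    intro N hN
    have h1 : (N : ℝ) ^ A ≤ p := by
      calc (N : ℝ) ^ A ≤ ((p : ℝ) ^ (1 / ((A : ℝ) + 2))) ^ A :=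
            pow_le_pow_left₀ (by positivity) hN _
        _ = (p : ℝ) ^ ((A : ℝ) / ((A : ℝ) + 2)) := by
            rw [← Real.rpow_natCast, ← Real.rpow_mul hP0.le]
            congr 1
            field_simp
        _ ≤ (p : ℝ) ^ (1 : ℝ) := by
            apply Real.rpow_le_rpow_of_exponent_le hP1
            rw [div_le_one hA2]
            linarith
        _ = p := Real.rpow_one _
    have h2 : (N : ℝ) ≤ p := by
      refine hN.trans ?_
      calc (p : ℝ) ^ (1 / ((A : ℝ) + 2)) ≤ (p : ℝ) ^ (1 : ℝ) := by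
            apply Real.rpow_le_rpow_of_exponent_le hP1
            rw [div_le_one hA2]
            have : (0:ℝ) ≤ A := by positivity
            linarith
        _ = p := Real.rpow_one _
    exact ⟨by exact_mod_cast h1, by exact_mod_cast h2⟩
  have hhN : ∀ N h : ℕ, 1 ≤ N → (h : ℝ) ≤ (N : ℝ) ^ (1 - 1 / q : ℝ) → h ≤ N := by
    intro N h hN hh
    have hN1 : (1:ℝ) ≤ N := by exact_mod_cast hN
    have : (h : ℝ) ≤ N := by
      calc (h : ℝ) ≤ (N : ℝ) ^ (1 - 1 / q : ℝ) := hh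
        _ ≤ (N : ℝ) ^ (1 : ℝ) := by
            apply Real.rpow_le_rpow_of_exponent_le hN1
            have : (0:ℝ) < 1 / q := by positivity
            linarith
        _ = N := Real.rpow_one _
    exact_mod_cast this
  let T : Finset (ℕ × ℕ) := ((Icc M p) ×ˢ (Icc 1 p)).filter
    (fun t => (t.1 : ℝ) ≤ (p : ℝ) ^ (1 / ((A : ℝ) + 2)) ∧
      (t.2 : ℝ) ≤ (t.1 : ℝ) ^ (1 - 1 / q : ℝ))
  refine ⟨T.biUnion fun t => badG K t.1 t.2 p, ?_, ?_⟩
  · have h1 : ((T.biUnion fun t => badG K t.1 t.2 p).card : ℝ) ≤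
        ∑ t ∈ T, ((badG K t.1 t.2 p).card : ℝ) := by
      exact_mod_cast card_biUnion_le
    have h2 : ∀ t ∈ T, ((badG K t.1 t.2 p).card : ℝ) ≤
        C * (p * ((t.1 : ℝ) ^ (n + 4))⁻¹) := by
      intro t ht
      rw [mem_filter, mem_product] at ht
      obtain ⟨⟨hN, hh⟩, hN2, hh2⟩ := ht
      rw [mem_Icc] at hN hh
      exact hN0 t.1 (hMN0.trans hN.1) t.2 hh.1 hh2 p hp (hNP _ hN2).1
    have h3 : T ⊆ ((Icc M p).sigma (fun N => Icc 1 N)).image (fun x => (x.1, x.2)) := by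
      intro t ht
      rw [mem_filter, mem_product] at ht
      obtain ⟨⟨hN, hh⟩, hN2, hh2⟩ := ht
      refine mem_image.2 ⟨⟨t.1, t.2⟩, ?_, rfl⟩
      rw [mem_sigma]
      refine ⟨hN, ?_⟩
      rw [mem_Icc] at hN hh ⊢
      exact ⟨hh.1, hhN _ _ (hM1.trans hN.1) hh2⟩
    have h4 : ∑ t ∈ T, C * (p * ((t.1 : ℝ) ^ (n + 4))⁻¹) ≤
        C * (p * ∑ N ∈ Icc M p, (N : ℝ) * ((N : ℝ) ^ (n + 4))⁻¹) := by
      refine (sum_le_sum_of_subset_of_nonneg h3 (fun _ _ _ => by positivity)).trans ?_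
      rw [sum_image (fun a _ b _ hab => by
        rw [Prod.mk.injEq] at hab
        exact Sigma.ext hab.1 (heq_of_eq hab.2)), sum_sigma, mul_sum, mul_sum]
      apply le_of_eq
      refine sum_congr rfl fun N _ => ?_
      simp only
      rw [sum_const, Nat.card_Icc, Nat.add_sub_cancel, nsmul_eq_mul]
      ring
    have h5 := Pool.Agent.P4f18dfT.Small.sum_tail n M p hM1
    have h6 : ((M : ℝ) ^ (n + 1))⁻¹ ≤ 4 ^ (n + 1) * (Y ^ (n + 1))⁻¹ := by
      have h7 : (Y / 4) ^ (n + 1) ≤ (M : ℝ) ^ (n + 1) :=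
        pow_le_pow_left₀ (by positivity) hMY _
      have h8 : 4 ^ (n + 1) * (Y ^ (n + 1))⁻¹ = ((Y / 4) ^ (n + 1))⁻¹ := by
        rw [div_pow, inv_div]
        rfl
      rw [h8]
      exact inv_anti₀ (by positivity) h7
    have h9 : (Y ^ (n + 1))⁻¹ ≤ Y ^ (-B) * Y⁻¹ := by
      have h10 : (Y ^ (n + 1))⁻¹ = Y ^ (-(n : ℝ)) * Y⁻¹ := by
        rw [pow_succ, mul_inv, Real.rpow_neg hY0.le, Real.rpow_natCast]
      rw [h10]
      apply mul_le_mul_of_nonneg_right _ (by positivity)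
      apply Real.rpow_le_rpow_of_exponent_le (by linarith)
      linarith
    have hYB : 0 < Y ^ (-B) := Real.rpow_pos_of_pos hY0 _
    calc ((T.biUnion fun t => badG K t.1 t.2 p).card : ℝ)
        ≤ C * (p * ∑ N ∈ Icc M p, (N : ℝ) * ((N : ℝ) ^ (n + 4))⁻¹) :=
          h1.trans ((sum_le_sum h2).trans h4)
      _ ≤ C * (p * (2 * (4 ^ (n + 1) * (Y ^ (-B) * Y⁻¹)))) := by
          apply mul_le_mul_of_nonneg_left _ hC0.le
          apply mul_le_mul_of_nonneg_left _ hP0.le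
          refine h5.trans ?_
          apply mul_le_mul_of_nonneg_left _ (by norm_num)
          refine h6.trans ?_
          exact mul_le_mul_of_nonneg_left h9 (by positivity)
      _ = (p * Y ^ (-B) / 2) * ((4 * C * 4 ^ (n + 1)) * Y⁻¹) := by ring
      _ ≤ (p * Y ^ (-B) / 2) * 1 := by
          apply mul_le_mul_of_nonneg_left _ (by positivity)
          rw [← div_eq_mul_inv, div_le_one hY0]
          exact hYK
      _ = p * Y ^ (-B) / 2 := mul_one _
  · intro χ hχ N hYN' hNc h hh1 hh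
    by_contra hcon
    apply hχ
    have hMN : M ≤ N := Nat.ceil_le.2 hYN'
    obtain ⟨h1, h3⟩ := hNP N hNc
    have h4 := hhN N h (hM1.trans hMN) hh
    rw [mem_biUnion]
    refine ⟨(N, h), ?_, ?_⟩
    · rw [mem_filter, mem_product, mem_Icc, mem_Icc]
      exact ⟨⟨⟨hMN, h3⟩, hh1, h4.trans h3⟩, hNc, hh⟩
    · unfold badG
      rw [mem_filter]
      exact ⟨mem_univ _, hcon⟩

end Pool.Agent.P4f18dfC
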