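import Pool.Agent.Lib.P4f18dfC.Defs
import Pool.Agent.Lib.P4f18dfT.Swap2

/-!
# Changing a function at the multiples of a prime

Module CX.SwapC.  The same proof as `law_swap`, `mom_swap` in `Lib/P4f18dfT/Swap2.lean`, for two functions bounded by `2` which agree at the
numbers not divisible by `p` (there: `fm p`, `fq p`, bounded by `1`): the set of `x ∈ [X, 2X]` whose window `|n - x| < H/2` contains a
multiple of `p` has measure at most `9 X H / p` (`Swap2.volume_le`); outside it `Ms c₁ x H = Ms c₂ x H`; inside,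
`|Ms c x H| ≤ 2 (H + 1) ≤ 4 H`, `√(H/ζ(2)) ≥ √H / 2`, so the normalised sums are at most `8 √H`.
-/

set_option autoImplicit false

namespace Pool.Agent.P4f18dfC

open Finset MeasureTheory Pool.Agent.P4f18df Pool.Agent.P4f18dfT

namespace SwapCAux

lemma eq_off {p : ℕ} {c₁ c₂ : ℕ → ℝ} (he : ∀ n, ¬ p ∣ n → c₁ n = c₂ n) {X H x : ℝ}
    (hx : x ∈ Set.Icc X (2 * X)) (hz : x ∉ Pool.Agent.P4f18dfQ.Swap.Zs p X H) :
    Ms c₁ x H = Ms c₂ x H := by
  unfold Ms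
  apply Finset.sum_congr rfl
  intro n hn
  rw [Finset.mem_filter] at hn
  apply he
  intro hpn
  apply hz
  have h1 := hn.2
  rw [abs_lt] at h1
  have h2 := hx.1
  have h3 := hx.2
  unfold Pool.Agent.P4f18dfQ.Swap.Zs
  rw [Set.mem_iUnion₂]
  refine ⟨n, ?_, ?_⟩
  · unfold Pool.Agent.P4f18dfQ.Swap.Sp
    rw [Finset.mem_filter, Finset.mem_range]
    have h4 : (n : ℝ) < 2 * X + H / 2 := by linarith [h1.2]
    refine ⟨?_, hpn, by linarith [h1.1], h4⟩
    have h5 : n ≤ ⌊2 * X + H⌋₊ := Nat.le_floor (by linarith)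
    omega
  · exact ⟨by linarith [h1.2], by linarith [h1.1]⟩

lemma abs_Ms_le {f : ℕ → ℝ} (hf : ∀ n, |f n| ≤ 2) (x : ℝ) {H : ℝ} (hH : 0 ≤ H) :
    |Ms f x H| ≤ 2 * (H + 1) := by
  have h1 := Pool.Agent.P4f18dfQ.Swap.card_Fx x hH
  unfold Ms
  refine le_trans (Finset.abs_sum_le_sum_abs _ _) ?_
  refine le_trans (Finset.sum_le_sum (fun n _ => hf n)) ?_
  rw [Finset.sum_const, nsmul_eq_mul]
  have h2 : (((Finset.range (⌊x + H⌋₊ + 1)).filter
      (fun n : ℕ => |(n : ℝ) - x| < H / 2)).card : ℝ) ≤ H + 1 := h1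
  linarith

lemma abs_le2 {f : ℕ → ℝ} (hf : ∀ n, |f n| ≤ 2) (x : ℝ) {H : ℝ} (hH : 1 ≤ H) :
    |Ms f x H / Real.sqrt (H / (Real.pi ^ 2 / 6))| ≤ 8 * H := by
  have h1 := abs_Ms_le hf x (show 0 ≤ H by linarith)
  have h2 := Swap2.sig_ge hH
  have h3 : 1 ≤ Real.sqrt H := by
    rw [Real.one_le_sqrt]; exact hH
  have h4 : 0 < Real.sqrt (H / (Real.pi ^ 2 / 6)) := by linarith
  rw [abs_div, abs_of_pos h4, div_le_iff₀ h4]
  nlinarith

lemma intble {f : ℕ → ℝ} (hf : ∀ n, |f n| ≤ 2) (k : ℕ) {X H : ℝ} (hX : 0 ≤ X) (hH : 1 ≤ H) :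
    IntervalIntegrable (fun x : ℝ => (Ms f x H / Real.sqrt (H / (Real.pi ^ 2 / 6))) ^ k)
      volume X (2 * X) := by
  have hsig : 0 < sig H := by
    unfold sig; apply Real.sqrt_pos.2; have := Real.pi_pos; positivity
  have h1 : IntervalIntegrable (fun x : ℝ => (Zm f X H x) ^ k) volume X (2 * X) := by
    apply intervalIntegrable_of_bdd_real ((measurable_Zm f X H).pow_const k)
      ((((⌊2 * X + H⌋₊ + 1 : ℕ) : ℝ) * 2 / sig H) ^ k)
    intro x
    rw [abs_pow]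
    apply pow_le_pow_left₀ (abs_nonneg _)
    unfold Zm
    rw [abs_div, abs_of_pos hsig]
    apply div_le_div_of_nonneg_right _ hsig.le
    refine le_trans (Finset.abs_sum_le_sum_abs _ _) ?_
    calc ∑ n ∈ Finset.range (⌊2 * X + H⌋₊ + 1), |if |(n : ℝ) - x| < H / 2 then f n else 0|
        ≤ ∑ n ∈ Finset.range (⌊2 * X + H⌋₊ + 1), (2:ℝ) := by
          apply Finset.sum_le_sum
          intro n _
          split_ifs
          · exact hf n
          · simp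
      _ = _ := by simp
  refine h1.congr ?_
  intro x hx
  have hx' := Set.uIoc_subset_uIcc hx
  rw [Set.uIcc_of_le (by linarith)] at hx'
  show (Zm f X H x) ^ k = (Ms f x H / Real.sqrt (H / (Real.pi ^ 2 / 6))) ^ k
  rw [Zm_eq (by linarith) hx'.2]
  rfl

end SwapCAux

open SwapCAux Swap2

theorem swap_law {p : ℕ} (hp : p.Prime) {c₁ c₂ : ℕ → ℝ} (h1 : ∀ n, |c₁ n| ≤ 2)
    (h2 : ∀ n, |c₂ n| ≤ 2) (he : ∀ n, ¬ p ∣ n → c₁ n = c₂ n) {X H : ℝ} (hH : 1 ≤ H) (hHX : H ≤ X)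
    (t : ℝ) : |Gd c₁ X H t - Gd c₂ X H t| ≤ 9 * H / p := by
  have hH0 : 0 ≤ H := by linarith
  have hX0 : 0 < X := by linarith
  have hp0 : (0:ℝ) < p := by exact_mod_cast hp.pos
  set σ := Real.sqrt (H / (Real.pi ^ 2 / 6)) with hσ
  have key : ∀ f g : ℕ → ℝ, (∀ x ∈ Set.Icc X (2 * X), x ∉ Pool.Agent.P4f18dfQ.Swap.Zs p X H →
      Ms f x H = Ms g x H) →
      (volume {x : ℝ | x ∈ Set.Icc X (2 * X) ∧ Ms f x H / σ ≤ t}).toReal -
        (volume {x : ℝ | x ∈ Set.Icc X (2 * X) ∧ Ms g x H / σ ≤ t}).toReal ≤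
        9 * X * H / p := by
    intro f g hfg
    have h1 : {x : ℝ | x ∈ Set.Icc X (2 * X) ∧ Ms f x H / σ ≤ t} ⊆
        {x : ℝ | x ∈ Set.Icc X (2 * X) ∧ Ms g x H / σ ≤ t} ∪
          Pool.Agent.P4f18dfQ.Swap.Zs p X H := by
      intro x hx
      by_cases hz : x ∈ Pool.Agent.P4f18dfQ.Swap.Zs p X H
      · exact Or.inr hz
      · left
        refine ⟨hx.1, ?_⟩
        rw [← hfg x hx.1 hz]; exact hx.2
    have h2 := le_trans (measure_mono (μ := volume) h1) (measure_union_le _ _)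
    have hg : volume {x : ℝ | x ∈ Set.Icc X (2 * X) ∧ Ms g x H / σ ≤ t} ≠ ⊤ :=
      Pool.Agent.P4f18dfQ.Swap.volume_Icc_ne_top X (fun x hx => hx.1)
    have hz := volume_ne_top hp hH hHX
    have h3 := ENNReal.toReal_mono (ENNReal.add_ne_top.2 ⟨hg, hz⟩) h2
    rw [ENNReal.toReal_add hg hz] at h3
    have h4 := volume_toReal hp hH hHX
    linarith
  have h5 : 9 * X * H / p / X = 9 * H / p := by
    field_simp
  unfold Gd
  rw [← hσ, ← sub_div, abs_div, abs_of_pos hX0, ← h5]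
  apply div_le_div_of_nonneg_right _ hX0.le
  rw [_root_.abs_le]
  constructor
  · have := key c₂ c₁ (fun x hx hz => (eq_off he hx hz).symm)
    linarith
  · exact key c₁ c₂ (fun x hx hz => eq_off he hx hz)

theorem swap_mom {p : ℕ} (hp : p.Prime) {c₁ c₂ : ℕ → ℝ} (h1 : ∀ n, |c₁ n| ≤ 2)
    (h2 : ∀ n, |c₂ n| ≤ 2) (he : ∀ n, ¬ p ∣ n → c₁ n = c₂ n) {X H : ℝ} (hH : 1 ≤ H) (hHX : H ≤ X)
    (k : ℕ) : |Md c₁ k X H - Md c₂ k X H| ≤ 18 * 8 ^ k * H ^ (k + 1) / p := by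
  have hH0 : 0 ≤ H := by linarith
  have hX0 : 0 < X := by linarith
  have hp0 : (0:ℝ) < p := by exact_mod_cast hp.pos
  have i1 := SwapCAux.intble h1 k hX0.le hH
  have i2 := SwapCAux.intble h2 k hX0.le hH
  have h5 : 18 * 8 ^ k * H ^ (k + 1) * X / p / X = 18 * 8 ^ k * H ^ (k + 1) / p := by
    field_simp
  unfold Md
  rw [← sub_div, abs_div, abs_of_pos hX0, ← h5]
  apply div_le_div_of_nonneg_right _ hX0.le
  rw [← intervalIntegral.integral_sub i1 i2, intervalIntegral.integral_of_le (by linarith)]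
  have hsub : Set.Ioc X (2 * X) ∩ Pool.Agent.P4f18dfQ.Swap.Zs p X H ⊆ Set.Ioc X (2 * X) :=
    Set.inter_subset_left
  rw [setIntegral_eq_of_subset_of_forall_sdiff_eq_zero measurableSet_Ioc hsub]
  · have hfin : volume (Set.Ioc X (2 * X) ∩ Pool.Agent.P4f18dfQ.Swap.Zs p X H) < ⊤ :=
      lt_of_le_of_lt (measure_mono Set.inter_subset_right)
        (lt_top_iff_ne_top.2 (volume_ne_top hp hH hHX))
    have hb : ∀ x ∈ Set.Ioc X (2 * X) ∩ Pool.Agent.P4f18dfQ.Swap.Zs p X H,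
        ‖(Ms c₁ x H / Real.sqrt (H / (Real.pi ^ 2 / 6))) ^ k -
          (Ms c₂ x H / Real.sqrt (H / (Real.pi ^ 2 / 6))) ^ k‖ ≤ 2 * (8 * H) ^ k := by
      intro x _
      have h6 := abs_le2 h1 x hH
      have h7 := abs_le2 h2 x hH
      have h8 := pow_le_pow_left₀ (abs_nonneg _) h6 k
      have h9 := pow_le_pow_left₀ (abs_nonneg _) h7 k
      rw [← abs_pow] at h8 h9
      rw [Real.norm_eq_abs]
      have h10 := abs_sub ((Ms c₁ x H / Real.sqrt (H / (Real.pi ^ 2 / 6))) ^ k)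
        ((Ms c₂ x H / Real.sqrt (H / (Real.pi ^ 2 / 6))) ^ k)
      linarith
    have h6 := norm_setIntegral_le_of_norm_le_const hfin hb
    rw [Real.norm_eq_abs] at h6
    refine le_trans h6 ?_
    have h7 : volume.real (Set.Ioc X (2 * X) ∩ Pool.Agent.P4f18dfQ.Swap.Zs p X H) ≤
        9 * X * H / p := by
      refine le_trans ?_ (volume_toReal hp hH hHX)
      exact ENNReal.toReal_mono (volume_ne_top hp hH hHX)
        (measure_mono Set.inter_subset_right)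
    calc 2 * (8 * H) ^ k * volume.real (Set.Ioc X (2 * X) ∩
          Pool.Agent.P4f18dfQ.Swap.Zs p X H) ≤ 2 * (8 * H) ^ k * (9 * X * H / p) :=
          mul_le_mul_of_nonneg_left h7 (by positivity)
      _ = 18 * 8 ^ k * H ^ (k + 1) * X / p := by
          rw [mul_pow, pow_succ]
          ring
  · intro x hx
    have hx1 : x ∈ Set.Ioc X (2 * X) := hx.1
    have hx2 : x ∉ Pool.Agent.P4f18dfQ.Swap.Zs p X H := fun h => hx.2 ⟨hx1, h⟩
    rw [eq_off he ⟨hx1.1.le, hx1.2⟩ hx2, sub_self]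

end Pool.Agent.P4f18dfC
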