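import Pool.Agent.Lib.P4f18dfC.Quant
import Pool.Agent.Lib.P4f18dfC.Dir
import Pool.Agent.Lib.P4f18dfC.Small
import Pool.Agent.Lib.P4f18dfC.NetE
import Pool.Agent.Lib.P4f18dfC.SwapC
import Pool.Agent.Lib.P4f18dfT.Final

/-!
# Assembly
-/

set_option autoImplicit false

namespace Pool.Agent.P4f18dfC

open Finset Filter MeasureTheory ProbabilityTheory Pool.Agent.P4f18df Pool.Agent.P4f18dfT

theorem abs_cu_le {g : ℕ → ℂ} (hg : ∀ n, ‖g n‖ ≤ 1) {u : ℂ} (hu : ‖u‖ = 1) (n : ℕ) :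
    |cu g u n| ≤ 2 := by
  unfold cu mu
  have h1 : |(u * g n).re| ≤ 1 := by
    refine (Complex.abs_re_le_norm _).trans ?_
    rw [norm_mul, hu, one_mul]; exact hg n
  have h2 : |((ArithmeticFunction.moebius n : ℤ) : ℝ)| ≤ 1 := by
    have := ArithmeticFunction.abs_moebius_le_one (n := n)
    exact_mod_cast this
  have h3 : Real.sqrt 2 ≤ 2 := by
    rw [Real.sqrt_le_left (by norm_num)]; norm_num
  rw [abs_mul, abs_mul, abs_of_nonneg (Real.sqrt_nonneg 2)]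
  calc Real.sqrt 2 * (|((ArithmeticFunction.moebius n : ℤ) : ℝ)| * |(u * g n).re|)
      ≤ 2 * (1 * 1) := by gcongr
    _ = 2 := by norm_num

theorem norm_xc {p : ℕ} (χ : DirichletCharacter ℂ p) (hp : p.Prime) (n : ℕ) : ‖xc χ n‖ = 1 := by
  unfold xc
  split_ifs with h
  · simp
  · have : Fact p.Prime := ⟨hp⟩
    have h1 : IsUnit (n : ZMod p) := by
      rw [ZMod.isUnit_iff_coprime]
      exact ((hp.coprime_iff_not_dvd).2 h).symm
    obtain ⟨v, hv⟩ := h1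
    rw [← hv]
    exact χ.unit_norm_eq_one v

theorem norm_chi_le {p : ℕ} (χ : DirichletCharacter ℂ p) (n : ℕ) : ‖χ (n : ZMod p)‖ ≤ 1 :=
  χ.norm_le_one _

/-- the law and the moments at one scale from the moments of the character -/
theorem core (ε δ : ℝ) (L : ℕ) (hε : 0 < ε) (hε1 : ε ≤ 1 / 2) (hδ : 0 < δ) :
    ∃ K q₁ : ℕ, 1 ≤ K ∧ 0 < q₁ ∧ ∃ c₁ X₁ : ℝ, 0 < c₁ ∧ ∃ P₃ : ℕ, ∀ p : ℕ, p.Prime → P₃ ≤ p →
      ∀ χ : DirichletCharacter ℂ p, ∀ X H : ℝ, X₁ ≤ X → (K : ℝ) + 1 ≤ H → H ≤ (p : ℝ) ^ c₁ →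
        H ≤ X ^ (1 - ε) →
        (∀ N h : ℕ, X / 4 ≤ N → (N : ℝ) ≤ X → 1 ≤ h → (h : ℝ) ≤ H →
          (h : ℝ) ≤ (N : ℝ) ^ (1 - 1 / q₁ : ℝ) → GoodC K (xc χ) N h) →
        ∀ u : ℂ, ‖u‖ = 1 →
          (∀ t, |Gd (cu (fun n => χ (n : ZMod p)) u) X H t - cdf (gaussianReal 0 1) t| ≤ δ) ∧
            (∀ k ≤ L, |Md (cu (fun n => χ (n : ZMod p)) u) k X H - gm k| ≤ δ) := by
  classical
  obtain ⟨K, hK1, hK⟩ := quantC ε (δ / 2) hε (by linarith) (by positivity) L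
  obtain ⟨K', hKK', hK'⟩ := good_cu K hK1
  have hK'1 : 1 ≤ K' := hK1.trans hKK'
  obtain ⟨q₁, hq⟩ := exists_nat_gt (2 / ε)
  have hq0 : 0 < q₁ := by
    have : (0:ℝ) < q₁ := lt_trans (by positivity) hq
    exact_mod_cast this
  have hqε : (1 / q₁ : ℝ) ≤ ε / 2 := by
    rw [div_lt_iff₀ hε] at hq
    rw [div_le_iff₀ (by exact_mod_cast hq0)]
    linarith
  set c : ℝ := 1 / (2 * (L + 2)) with hc
  have hc0 : 0 < c := by
    rw [hc]; positivity
  have hcL : c * (L + 2) ≤ 1 / 2 := by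
    rw [hc]; field_simp; norm_num
  obtain ⟨X₁, hX₁⟩ := eventually_atTop.1 (ev_len ε q₁ hε hq0 hqε)
  obtain ⟨P₃, hP₃⟩ := eventually_atTop.1
    ((ev_rpow_le (1 / 2) (18 * 8 ^ L / (δ / 2)) (by norm_num)).and (eventually_ge_atTop 2))
  refine ⟨K', q₁, hK'1, hq0, c, max X₁ 4, hc0, P₃, ?_⟩
  intro p hp hpP χ X H hX₁X hHK' hHP hHX hgood0 u hu
  obtain ⟨g7, _⟩ := hP₃ p hpP
  have hp2r : (2:ℝ) ≤ p := by exact_mod_cast hp.two_le
  have hP0 : (0:ℝ) < p := by linarith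
  have hP1 : (1:ℝ) ≤ p := by linarith
  have hX4 : 4 ≤ X := (le_max_right _ _).trans hX₁X
  have hX0 : 0 < X := by linarith
  have hX1 : 1 ≤ X := by linarith
  have hKK'r : (K : ℝ) ≤ K' := by exact_mod_cast hKK'
  have hHK : (K : ℝ) ≤ H := by linarith
  have hK'0 : (0:ℝ) ≤ K' := Nat.cast_nonneg _
  have hH1 : 1 ≤ H := by linarith
  have hHX' : H ≤ X := by
    refine hHX.trans ?_
    calc X ^ (1 - ε) ≤ X ^ (1:ℝ) := Real.rpow_le_rpow_of_exponent_le hX1 (by linarith)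
      _ = X := Real.rpow_one _
  -- the discrete lengths
  set N := ⌊X⌋₊ with hNdef
  set N' := (N + 1) / 2 with hN'def
  set h := ⌊H⌋₊ with hhdef
  have n1 : (N : ℝ) ≤ X := Nat.floor_le hX0.le
  have n2 : X < N + 1 := Nat.lt_floor_add_one _
  have hN'2 : (N : ℝ) ≤ 2 * N' := by
    have : N ≤ 2 * N' := by omega
    exact_mod_cast this
  have hN'X : X / 4 ≤ (N' : ℝ) := by linarith
  have hNX : X / 4 ≤ (N : ℝ) := by linarith
  have hN1 : 1 ≤ N := Nat.le_floor (by exact_mod_cast hX1)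
  have hN'N : N' ≤ N := by omega
  have hN'1' : 1 ≤ N' := by omega
  have hN'r : (N' : ℝ) ≤ N := by exact_mod_cast hN'N
  have hh1 : 1 ≤ h := Nat.le_floor (by exact_mod_cast hH1)
  have hhK' : K' ≤ h := Nat.le_floor (by linarith)
  have hhH : (h : ℝ) ≤ H := Nat.floor_le (by linarith)
  have hexp : 0 ≤ (1 - 1 / q₁ : ℝ) := by
    have : (1 / q₁ : ℝ) ≤ 1 := by
      rw [div_le_one (by exact_mod_cast hq0)]; exact_mod_cast hq0
    linarith
  have hX14 := hX₁ X ((le_max_left _ _).trans hX₁X)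
  have hhN' : (h : ℝ) ≤ (N' : ℝ) ^ (1 - 1 / q₁ : ℝ) :=
    hhH.trans (hHX.trans (hX14.trans (Real.rpow_le_rpow (by positivity) hN'X hexp)))
  have hhN : (h : ℝ) ≤ (N : ℝ) ^ (1 - 1 / q₁ : ℝ) :=
    hhH.trans (hHX.trans (hX14.trans (Real.rpow_le_rpow (by positivity) hNX hexp)))
  have hN'1 : (1:ℝ) ≤ N' := by exact_mod_cast hN'1'
  have hhN'2 : h ≤ N' := by
    have : (h : ℝ) ≤ N' := by
      refine hhN'.trans ?_
      calc (N' : ℝ) ^ (1 - 1 / q₁ : ℝ) ≤ (N' : ℝ) ^ (1:ℝ) :=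
            Real.rpow_le_rpow_of_exponent_le hN'1 (by
              have : (0:ℝ) ≤ 1 / q₁ := by positivity
              linarith)
        _ = N' := Real.rpow_one _
    exact_mod_cast this
  -- the two scales
  have hgood : GoodC K' (xc χ) N h ∧ GoodC K' (xc χ) N' h :=
    ⟨hgood0 N h hNX n1 hh1 hhH hhN, hgood0 N' h hN'X (hN'r.trans n1) hh1 hhH hhN'⟩
  have hxc : ∀ n, ‖xc χ n‖ = 1 := norm_xc χ hp
  have hr1 := hK' (xc χ) hxc u hu N h hN1 hhK' (hhN'2.trans hN'N) hgood.1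
  have hr2 := hK' (xc χ) hxc u hu N' h hN'1' hhK' hhN'2 hgood.2
  have hb1 : ∀ n, |cu (xc χ) u n| ≤ 2 := abs_cu_le (fun n => (hxc n).le) hu
  have hb2 : ∀ n, |cu (fun n => χ (n : ZMod p)) u n| ≤ 2 := abs_cu_le (norm_chi_le χ) hu
  obtain ⟨r1, r2⟩ := hK (cu (xc χ) u) hb1 X H hX0 hHK hHX hr1 hr2
  have hagree : ∀ n, ¬ p ∣ n → cu (fun n => χ (n : ZMod p)) u n = cu (xc χ) u n := by
    intro n hn
    unfold cu xc
    rw [if_neg hn]
  -- the size of the error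
  have hPh : (p : ℝ) ^ (1 / 2 : ℝ) * (p : ℝ) ^ (1 / 2 : ℝ) = p := by
    rw [← Real.rpow_add hP0]; norm_num
  have hph0 : 0 < (p : ℝ) ^ (1 / 2 : ℝ) := Real.rpow_pos_of_pos hP0 _
  have herr : ∀ k ≤ L, 18 * 8 ^ k * H ^ (k + 1) / p ≤ δ / 2 := by
    intro k hk
    have e1 : H ^ (k + 1) ≤ (p : ℝ) ^ (1 / 2 : ℝ) := by
      calc H ^ (k + 1) ≤ H ^ (L + 2) := pow_le_pow_right₀ hH1 (by omega)
        _ ≤ ((p : ℝ) ^ c) ^ (L + 2) := pow_le_pow_left₀ (by linarith) hHP _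
        _ = (p : ℝ) ^ (c * (L + 2)) := by
            rw [← Real.rpow_natCast, ← Real.rpow_mul hP0.le]; push_cast; rfl
        _ ≤ (p : ℝ) ^ (1 / 2 : ℝ) := Real.rpow_le_rpow_of_exponent_le hP1 hcL
    have e2 : (8:ℝ) ^ k ≤ 8 ^ L := pow_le_pow_right₀ (by norm_num) hk
    have e3 : 18 * 8 ^ L ≤ δ / 2 * (p : ℝ) ^ (1 / 2 : ℝ) := by
      rw [div_le_iff₀ (by positivity)] at g7
      linarith
    rw [div_le_iff₀ hP0]
    calc 18 * 8 ^ k * H ^ (k + 1) ≤ 18 * 8 ^ L * (p : ℝ) ^ (1 / 2 : ℝ) := by gcongr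
      _ ≤ (δ / 2 * (p : ℝ) ^ (1 / 2 : ℝ)) * (p : ℝ) ^ (1 / 2 : ℝ) := by gcongr
      _ = δ / 2 * p := by rw [mul_assoc, hPh]
  constructor
  · intro t
    have s1 := swap_law hp hb2 hb1 hagree hH1 hHX' t
    have s2 := herr 0 (Nat.zero_le _)
    have s3 : 9 * H / p ≤ δ / 2 := by
      refine le_trans ?_ s2
      have : 9 * H ≤ 18 * 8 ^ 0 * H ^ (0 + 1) := by
        simp only [pow_zero, zero_add, pow_one]
        linarith
      exact div_le_div_of_nonneg_right this hP0.le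
    have s4 := r1 t
    calc |Gd (cu (fun n => χ (n : ZMod p)) u) X H t - cdf (gaussianReal 0 1) t|
        = |(Gd (cu (fun n => χ (n : ZMod p)) u) X H t - Gd (cu (xc χ) u) X H t) +
            (Gd (cu (xc χ) u) X H t - cdf (gaussianReal 0 1) t)| := by
          congr 1; ring
      _ ≤ _ := abs_add_le _ _
      _ ≤ δ := by linarith
  · intro k hk
    have s1 := swap_mom hp hb2 hb1 hagree hH1 hHX' k
    have s2 := herr k hk
    have s4 := r2 k hk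
    calc |Md (cu (fun n => χ (n : ZMod p)) u) k X H - gm k|
        = |(Md (cu (fun n => χ (n : ZMod p)) u) k X H - Md (cu (xc χ) u) k X H) +
            (Md (cu (xc χ) u) k X H - gm k)| := by
          congr 1; ring
      _ ≤ _ := abs_add_le _ _
      _ ≤ δ := by linarith

theorem main (ε δ η B : ℝ) (L : ℕ) (hε : 0 < ε) (hδ : 0 < δ) (hη : 0 < η) (hB : 0 < B) :
    ∃ c H₀ : ℝ, 0 < c ∧ ∀ q : ℕ, q.Prime → ∀ Y : ℝ, H₀ ≤ Y →
      ∃ E : Finset (DirichletCharacter ℂ q),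
        (Y ≤ (q : ℝ) ^ c → (E.card : ℝ) ≤ q * Y ^ (-B)) ∧
        ((q : ℝ) ^ c < Y → (E.card : ℝ) ≤ (q : ℝ) ^ (1 + η) / min Y q) ∧
        ∀ χ : DirichletCharacter ℂ q, χ ∉ E →
          ∀ X H : ℝ, Y ≤ X → X ≤ Real.exp ((q : ℝ) ^ c) → H₀ ≤ H →
            (H ≤ (min X q) ^ c ∨ (X ≤ (q : ℝ) ^ c ∧ H ≤ X ^ (1 - ε))) →
            ∀ u : ℂ, ‖u‖ = 1 →
              (∀ t, |Gd (cu (fun n => χ (n : ZMod q)) u) X H t - cdf (gaussianReal 0 1) t| ≤ δ) ∧
                (∀ k ≤ L, |Md (cu (fun n => χ (n : ZMod q)) u) k X H - gm k| ≤ δ) := by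
  classical
  set ε' : ℝ := min ε (1 / 2) with hε'
  have hε'0 : 0 < ε' := lt_min hε (by norm_num)
  have hε'1 : ε' ≤ 1 / 2 := min_le_right _ _
  have hε'2 : ε' ≤ ε := min_le_left _ _
  obtain ⟨K, q₁, hK1, hq0, c₁, X₁, hc₁, P₁, hcore⟩ := core ε' δ L hε'0 hε'1 hδ
  obtain ⟨cs, hcs, hcs2, Y₀, hS⟩ := bad_smallC K q₁ hK1 hq0 B hB
  set η' : ℝ := min (η / 2) (cs / 4) with hη'
  have hη'0 : 0 < η' := by positivity
  have hη'1 : η' ≤ η / 2 := min_le_left _ _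
  have hη'2 : η' ≤ cs / 4 := min_le_right _ _
  obtain ⟨c₀, hc₀, hN⟩ := bad_netE K hK1 η' hη'0
  set c : ℝ := min (min cs c₀) (min (min (cs / (8 * B)) (1 / 4)) c₁) with hc
  have hc0 : 0 < c := by
    rw [hc]; positivity
  have hc1 : c ≤ cs := (min_le_left _ _).trans (min_le_left _ _)
  have hc2 : c ≤ c₀ := (min_le_left _ _).trans (min_le_right _ _)
  have hc3 : c ≤ cs / (8 * B) :=
    (min_le_right _ _).trans ((min_le_left _ _).trans (min_le_left _ _))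
  have hc4 : c ≤ 1 / 4 := (min_le_right _ _).trans ((min_le_left _ _).trans (min_le_right _ _))
  have hc5 : c ≤ c₁ := (min_le_right _ _).trans (min_le_right _ _)
  have hcB : c * B ≤ cs / 8 := by
    have := (le_div_iff₀ (by positivity)).1 hc3
    linarith
  obtain ⟨P₂, hN2⟩ := hN c hc0 hc2
  -- the largeness of the modulus
  obtain ⟨P₃, hP₃⟩ := eventually_atTop.1
    ((((ev_rpow_le (cs / 8) 2 (by positivity)).and (ev_rpow_le (cs / 2) 4 (by positivity))).and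
      (ev_rpow_le (η / 2) 4 (by positivity))).and (eventually_ge_atTop (max (max P₁ P₂) 4)))
  have hP₃0 : (0:ℝ) ≤ P₃ := Nat.cast_nonneg _
  set H₀ : ℝ := max (max Y₀ X₁) (max (max 4 ((K : ℝ) + 1))
    (max ((P₃ : ℝ) + 1) (Real.exp ((P₃ : ℝ) ^ c) + 1))) with hH₀
  have hH₀1 : Y₀ ≤ H₀ := (le_max_left _ _).trans (le_max_left _ _)
  have hH₀2 : X₁ ≤ H₀ := (le_max_right _ _).trans (le_max_left _ _)
  have hH₀3 : 4 ≤ H₀ := (le_max_left _ _).trans ((le_max_left _ _).trans (le_max_right _ _))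
  have hH₀4 : (K : ℝ) + 1 ≤ H₀ :=
    (le_max_right _ _).trans ((le_max_left _ _).trans (le_max_right _ _))
  have hH₀5 : (P₃ : ℝ) + 1 ≤ H₀ :=
    (le_max_left _ _).trans ((le_max_right _ _).trans (le_max_right _ _))
  have hH₀6 : Real.exp ((P₃ : ℝ) ^ c) + 1 ≤ H₀ :=
    (le_max_right _ _).trans ((le_max_right _ _).trans (le_max_right _ _))
  refine ⟨c, H₀, hc0, ?_⟩
  intro p hp Y hHY
  have hp2 : 2 ≤ p := hp.two_le
  have hp2r : (2:ℝ) ≤ p := by exact_mod_cast hp2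
  have hP0 : (0:ℝ) < p := by linarith
  have hP1 : (1:ℝ) ≤ p := by linarith
  have hY4 : 4 ≤ Y := hH₀3.trans hHY
  have hY0 : 0 < Y := by linarith
  -- small moduli: nothing to prove
  rcases lt_or_ge p P₃ with hsmall | hPP₃
  · have hlt : Real.exp ((p : ℝ) ^ c) < Y := by
      have h1 : (p : ℝ) ^ c ≤ (P₃ : ℝ) ^ c :=
        Real.rpow_le_rpow hP0.le (by exact_mod_cast hsmall.le) hc0.le
      have h2 := Real.exp_le_exp.2 h1
      linarith
    refine ⟨∅, ?_, ?_, ?_⟩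
    · intro _
      simp only [Finset.card_empty, Nat.cast_zero]
      positivity
    · intro _
      simp only [Finset.card_empty, Nat.cast_zero]
      positivity
    · intro χ _ X H hYX hXe
      exact absurd (hYX.trans hXe) (not_le.2 hlt)
  have hpc : (p : ℝ) ^ c ≤ p := by
    calc (p : ℝ) ^ c ≤ (p : ℝ) ^ (1 : ℝ) :=
          Real.rpow_le_rpow_of_exponent_le hP1 (by linarith)
      _ = p := Real.rpow_one _
  obtain ⟨⟨⟨g4, g5⟩, g6⟩, g8⟩ := hP₃ p hPP₃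
  have hP1' : P₁ ≤ p := (le_max_left _ _).trans ((le_max_left _ _).trans g8)
  have hP2' : P₂ ≤ p := (le_max_right _ _).trans ((le_max_left _ _).trans g8)
  have hP4 : 4 ≤ p := (le_max_right _ _).trans g8
  have hPr : (4:ℝ) ≤ p := by exact_mod_cast hP4
  -- what is needed of the exceptional set
  have key : ∀ χ : DirichletCharacter ℂ p, (∀ X H : ℝ, Y ≤ X → X ≤ Real.exp ((p : ℝ) ^ c) →
      H ≤ (p : ℝ) ^ c → ∀ N h : ℕ, X / 4 ≤ N → (N : ℝ) ≤ X → 1 ≤ h → (h : ℝ) ≤ H →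
          (h : ℝ) ≤ (N : ℝ) ^ (1 - 1 / q₁ : ℝ) → GoodC K (xc χ) N h) →
      ∀ X H : ℝ, Y ≤ X → X ≤ Real.exp ((p : ℝ) ^ c) → H₀ ≤ H →
            (H ≤ (min X p) ^ c ∨ (X ≤ (p : ℝ) ^ c ∧ H ≤ X ^ (1 - ε))) →
            ∀ u : ℂ, ‖u‖ = 1 →
              (∀ t, |Gd (cu (fun n => χ (n : ZMod p)) u) X H t - cdf (gaussianReal 0 1) t| ≤ δ) ∧
                (∀ k ≤ L, |Md (cu (fun n => χ (n : ZMod p)) u) k X H - gm k| ≤ δ) := by
    intro χ hχ X H hYX hXe hH0 halt u hu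
    have hX4 : 4 ≤ X := hY4.trans hYX
    have hX0 : 0 < X := by linarith
    have hX1 : 1 ≤ X := by linarith
    have hHP : H ≤ (p : ℝ) ^ c := by
      rcases halt with h | ⟨h1, h2⟩
      · exact h.trans (Real.rpow_le_rpow (by positivity) (min_le_right _ _) hc0.le)
      · refine h2.trans (le_trans ?_ h1)
        calc X ^ (1 - ε) ≤ X ^ (1:ℝ) := Real.rpow_le_rpow_of_exponent_le hX1 (by linarith)
          _ = X := Real.rpow_one _
    have hHX : H ≤ X ^ (1 - ε') := by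
      rcases halt with h | ⟨h1, h2⟩
      · refine h.trans ?_
        calc (min X p) ^ c ≤ X ^ c := Real.rpow_le_rpow (by positivity) (min_le_left _ _) hc0.le
          _ ≤ X ^ (1 - ε') := Real.rpow_le_rpow_of_exponent_le hX1 (by linarith)
      · exact h2.trans (Real.rpow_le_rpow_of_exponent_le hX1 (by linarith))
    exact hcore p hp hP1' χ X H ((hH₀2.trans hHY).trans hYX) (hH₀4.trans hH0)
      (hHP.trans (Real.rpow_le_rpow_of_exponent_le hP1 hc5)) hHX (hχ X H hYX hXe hHP) u hu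
  rcases le_or_gt Y ((p : ℝ) ^ c) with hY2 | hY2
  · -- small `Y`
    obtain ⟨E₁, hE₁, hE₁'⟩ := hS p hp Y (hH₀1.trans hHY)
    have hcs1 : (p : ℝ) ^ (cs / 2) ≤ p := by
      calc (p : ℝ) ^ (cs / 2) ≤ (p : ℝ) ^ (1 : ℝ) :=
            Real.rpow_le_rpow_of_exponent_le hP1 (by linarith)
        _ = p := Real.rpow_one _
    obtain ⟨E₂, hE₂, hE₂'⟩ := hN2 p hp hP2' ((p : ℝ) ^ (cs / 2)) (Real.one_le_rpow hP1 (by positivity))
    rw [min_eq_left hcs1] at hE₂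
    refine ⟨E₁ ∪ E₂, ?_, ?_, ?_⟩
    · intro _
      have h1 : ((E₁ ∪ E₂).card : ℝ) ≤ (E₁.card : ℝ) + E₂.card := by
        exact_mod_cast Finset.card_union_le _ _
      have h2 : (p : ℝ) ^ (1 + η') / (p : ℝ) ^ (cs / 2) ≤ p * Y ^ (-B) / 2 := by
        have e1 : Y ^ B ≤ (p : ℝ) ^ (cs / 8) := by
          calc Y ^ B ≤ ((p : ℝ) ^ c) ^ B := Real.rpow_le_rpow hY0.le hY2 hB.le
            _ = (p : ℝ) ^ (c * B) := by rw [← Real.rpow_mul hP0.le]
            _ ≤ (p : ℝ) ^ (cs / 8) := Real.rpow_le_rpow_of_exponent_le hP1 hcB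
        have e2 : (p : ℝ) ^ (1 + η') * ((p : ℝ) ^ (cs / 8) * (p : ℝ) ^ (cs / 8)) ≤
            p * (p : ℝ) ^ (cs / 2) := by
          rw [← Real.rpow_add hP0, ← Real.rpow_add hP0]
          calc (p : ℝ) ^ (1 + η' + (cs / 8 + cs / 8)) ≤ (p : ℝ) ^ (1 + cs / 2) :=
                Real.rpow_le_rpow_of_exponent_le hP1 (by linarith)
            _ = p * (p : ℝ) ^ (cs / 2) := by rw [Real.rpow_add hP0, Real.rpow_one]
        have e3 : 0 < (p : ℝ) ^ (1 + η') := Real.rpow_pos_of_pos hP0 _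
        have e4 : 0 < Y ^ B := Real.rpow_pos_of_pos hY0 _
        have e5 : 0 < (p : ℝ) ^ (cs / 2) := Real.rpow_pos_of_pos hP0 _
        rw [Real.rpow_neg hY0.le, ← div_eq_mul_inv, div_div, div_le_div_iff₀ e5 (by positivity)]
        calc (p : ℝ) ^ (1 + η') * (Y ^ B * 2)
            ≤ (p : ℝ) ^ (1 + η') * ((p : ℝ) ^ (cs / 8) * (p : ℝ) ^ (cs / 8)) := by gcongr
          _ ≤ _ := e2
      linarith
    · intro hc
      exact absurd hY2 (not_le.2 hc)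
    · intro χ hχ
      rw [Finset.notMem_union] at hχ
      apply key χ
      intro X H hYX hXe hHP N h hXN hNX hh1 hhH hhN
      rcases le_total X ((p : ℝ) ^ cs) with hcase | hcase
      · exact hE₁' χ hχ.1 N (by linarith) (hNX.trans hcase) h hh1 hhN
      · have hlow : (p : ℝ) ^ (cs / 2) ≤ X / 4 := by
          have e2 : (p : ℝ) ^ cs = (p : ℝ) ^ (cs / 2) * (p : ℝ) ^ (cs / 2) := by
            rw [← Real.rpow_add hP0]; ring_nf
          nlinarith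
        exact hE₂' χ hχ.2 h hh1 (hhH.trans hHP) N (hlow.trans hXN) (hNX.trans hXe)
  · -- large `Y`
    obtain ⟨E, hE, hE'⟩ := hN2 p hp hP2' (Y / 4) (by linarith)
    refine ⟨E, ?_, ?_, ?_⟩
    · intro hc
      exact absurd hc (not_le.2 hY2)
    · intro _
      refine hE.trans ?_
      have e1 : min Y p / 4 ≤ min (Y / 4) p := by
        refine le_min ?_ ?_
        · exact div_le_div_of_nonneg_right (min_le_left _ _) (by norm_num)
        · have := min_le_right Y (p : ℝ)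
          linarith
      have e2 : 0 < min Y p := lt_min hY0 hP0
      have e3 : (p : ℝ) ^ (1 + η') * 4 ≤ (p : ℝ) ^ (1 + η) := by
        calc (p : ℝ) ^ (1 + η') * 4 ≤ (p : ℝ) ^ (1 + η') * (p : ℝ) ^ (η / 2) := by gcongr
          _ = (p : ℝ) ^ (1 + η' + η / 2) := by rw [← Real.rpow_add hP0]
          _ ≤ (p : ℝ) ^ (1 + η) := Real.rpow_le_rpow_of_exponent_le hP1 (by linarith)
      calc (p : ℝ) ^ (1 + η') / min (Y / 4) p ≤ (p : ℝ) ^ (1 + η') / (min Y p / 4) :=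
            div_le_div_of_nonneg_left (by positivity) (by positivity) e1
        _ = ((p : ℝ) ^ (1 + η') * 4) / min Y p := by field_simp
        _ ≤ _ := div_le_div_of_nonneg_right e3 e2.le
    · intro χ hχ
      apply key χ
      intro X H hYX hXe hHP N h hXN hNX hh1 hhH hhN
      exact hE' χ hχ h hh1 (hhH.trans hHP) N (by linarith) (hNX.trans hXe)

/-- the real part of the twisted sum -/
theorem Ms_cu (g : ℕ → ℂ) (u : ℂ) (x H : ℝ) :
    Ms (cu g u) x H = Real.sqrt 2 * (u * ∑ n ∈ (Finset.range (⌊x + H⌋₊ + 1)).filter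
      (fun n : ℕ => |(n : ℝ) - x| < H / 2), (ArithmeticFunction.moebius n : ℂ) * g n).re := by
  unfold Ms cu mu
  rw [Finset.mul_sum, Complex.re_sum, Finset.mul_sum]
  apply Finset.sum_congr rfl
  intro n _
  have : u * ((ArithmeticFunction.moebius n : ℂ) * g n) =
      (((ArithmeticFunction.moebius n : ℤ) : ℝ) : ℂ) * (u * g n) := by
    push_cast; ring
  rw [this, Complex.re_ofReal_mul]

end Pool.Agent.P4f18dfC
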