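import Pool.Agent.Lib.P4f18dfC.Gm

/-!
# The method of moments for the Gaussian law, uniform version

Module CX.MoM.  By contradiction: for every `K ≥ 1` there are a probability measure `ν_K` with finite moments
within `1/K` of the Gaussian ones up to order `K`, and `t_K` with `|cdf ν_K t_K - Φ(t_K)| > δ`.
(1) Characteristic functions: for fixed `θ`, `m ≥ 1` and `K ≥ 2m`:
`|charFun ν_K θ - ∑_{k<2m} (iθ)^k/k! ∫x^k dν_K| ≤ |θ|^(2m)/(2m)! ∫ x^(2m) dν_K` (Taylor remainder of `exp (iy)`: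
`norm_exp_sub_Tp`, `Lib/P4f18df/Taylor.lean`, or Mathlib), the same for the Gaussian law, so
`limsup_K |charFun ν_K θ - e^(-θ²/2)| ≤ 2 |θ|^(2m) (gm (2m) + 1)/(2m)! → 0` as `m → ∞` (`gm_even`).
(2) `ProbabilityMeasure.tendsto_iff_tendsto_charFun` gives weak convergence, hence `cdf ν_K t → Φ(t)` for every
`t` (see `Lib/P4f18dfT/Quant2.lean`, `hfront`).
(3) uniformity in `t`: `Φ` is continuous and monotone with limits `0`, `1`; the argument is in
`Lib/P4f18dfT/Quant2.lean` / `Lib/P4f18dfQ/Quant.lean` (`monotone`).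
-/

set_option autoImplicit false

namespace Pool.Agent.P4f18dfC

open Finset Filter MeasureTheory ProbabilityTheory Pool.Agent.P4f18dfT

namespace MoMAux

open Pool.Agent.P4f18df in
/-- Taylor expansion of the characteristic function -/
theorem charFun_taylor (ν : Measure ℝ) [IsProbabilityMeasure ν]
    (hi : ∀ k : ℕ, Integrable (fun x : ℝ => x ^ k) ν) (θ : ℝ) (m : ℕ) :
    ‖charFun ν θ - ∑ k ∈ range (2 * m), (Complex.I * θ) ^ k / (k.factorial : ℂ) *
        ((∫ x, x ^ k ∂ν : ℝ) : ℂ)‖ ≤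
      |θ| ^ (2 * m) / ((2 * m).factorial : ℝ) * ∫ x, x ^ (2 * m) ∂ν := by
  have hI : ∀ k : ℕ, Integrable
      (fun x : ℝ => (Complex.I * θ) ^ k / (k.factorial : ℂ) * ((x ^ k : ℝ) : ℂ)) ν := by
    intro k
    exact ((hi k).ofReal).const_mul _
  have hT : ∀ x : ℝ, Tp (2 * m) (Complex.I * ((θ * x : ℝ) : ℂ)) =
      ∑ k ∈ range (2 * m), (Complex.I * θ) ^ k / (k.factorial : ℂ) * ((x ^ k : ℝ) : ℂ) := by
    intro x
    unfold Tp
    refine Finset.sum_congr rfl fun k _ => ?_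
    push_cast
    rw [← mul_assoc, mul_pow]
    ring
  have e1 : ∑ k ∈ range (2 * m), (Complex.I * θ) ^ k / (k.factorial : ℂ) *
        ((∫ x, x ^ k ∂ν : ℝ) : ℂ) = ∫ x, Tp (2 * m) (Complex.I * ((θ * x : ℝ) : ℂ)) ∂ν := by
    simp_rw [hT]
    rw [integral_finsetSum _ fun k _ => hI k]
    refine Finset.sum_congr rfl fun k _ => ?_
    rw [integral_const_mul, integral_complex_ofReal]
  have hTi : Integrable (fun x : ℝ => Tp (2 * m) (Complex.I * ((θ * x : ℝ) : ℂ))) ν := by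
    simp_rw [hT]
    exact integrable_finsetSum _ fun k _ => hI k
  have hexp : Integrable (fun x : ℝ => Complex.exp (Complex.I * ((θ * x : ℝ) : ℂ))) ν := by
    refine Integrable.mono' (integrable_const (1 : ℝ)) (by fun_prop)
      (Eventually.of_forall fun x => ?_)
    rw [mul_comm, Complex.norm_exp_ofReal_mul_I]
  have e2 : charFun ν θ = ∫ x, Complex.exp (Complex.I * ((θ * x : ℝ) : ℂ)) ∂ν := by
    rw [charFun_apply_real]
    congr 1
    funext x
    congr 1
    push_cast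
    ring
  rw [e1, e2, ← integral_sub hexp hTi, ← integral_const_mul]
  refine le_trans (norm_integral_le_integral_norm _) ?_
  refine integral_mono_of_nonneg (Eventually.of_forall fun x => norm_nonneg _)
    ((hi (2 * m)).const_mul _) (Eventually.of_forall fun x => ?_)
  refine le_trans (norm_exp_sub_Tp (2 * m) (θ * x)) (le_of_eq ?_)
  rw [abs_mul, mul_pow, (even_two_mul m).pow_abs x]
  ring

theorem small_tail (θ : ℝ) {δ : ℝ} (hδ : 0 < δ) : ∃ m : ℕ, 1 ≤ m ∧
    |θ| ^ (2 * m) / ((2 * m).factorial : ℝ) * (2 * gm (2 * m) + 1) < δ := by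
  have h1 : Tendsto (fun m : ℕ => (θ ^ 2 / 2) ^ m / (m.factorial : ℝ)) atTop (nhds 0) :=
    FloorSemiring.tendsto_pow_div_factorial_atTop _
  have h2 : Tendsto (fun m : ℕ => |θ| ^ (2 * m) / ((2 * m).factorial : ℝ)) atTop (nhds 0) := by
    have := (FloorSemiring.tendsto_pow_div_factorial_atTop |θ|).comp
      (tendsto_id.const_mul_atTop' (show 0 < 2 by norm_num) : Tendsto (fun m : ℕ => 2 * m) _ _)
    exact this
  have h3 := (h1.const_mul 2).add h2
  rw [mul_zero, add_zero] at h3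
  obtain ⟨m, hm1, hm2⟩ := ((h3.eventually (gt_mem_nhds hδ)).and (eventually_ge_atTop 1)).exists
  refine ⟨m, hm2, lt_of_le_of_lt (le_of_eq ?_) hm1⟩
  have hf : ((2 * m).factorial : ℝ) ≠ 0 := by positivity
  have e := gm_even m
  have e3 : |θ| ^ (2 * m) / ((2 * m).factorial : ℝ) * (2 * gm (2 * m) + 1) =
      2 * (|θ| ^ (2 * m) * (gm (2 * m) / (2 * m).factorial)) +
        |θ| ^ (2 * m) / ((2 * m).factorial : ℝ) := by
    field_simp
  rw [e3, e, pow_mul, sq_abs, div_pow]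
  congr 2
  have h2m : (2 : ℝ) ^ m ≠ 0 := by positivity
  field_simp

/-- convergence of the characteristic functions -/
theorem charFun_tendsto (ν : ℕ → Measure ℝ) (hp : ∀ i, IsProbabilityMeasure (ν i))
    (hi : ∀ i, ∀ k : ℕ, Integrable (fun x : ℝ => x ^ k) (ν i))
    (hm : ∀ i : ℕ, ∀ k ≤ i + 1, |(∫ x, x ^ k ∂(ν i)) - gm k| ≤ 1 / ((i + 1 : ℕ) : ℝ)) (θ : ℝ) :
    Tendsto (fun i => charFun (ν i) θ) atTop (nhds (charFun (gaussianReal 0 1) θ)) := by
  rw [Metric.tendsto_nhds]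
  intro δ hδ
  obtain ⟨m, hm1, hm2⟩ := small_tail θ (δ := δ / 2) (by positivity)
  set C : ℝ := ∑ k ∈ range (2 * m), |θ| ^ k / (k.factorial : ℝ) with hC
  have hlim : Tendsto (fun i : ℕ => C * (1 / ((i + 1 : ℕ) : ℝ))) atTop (nhds (C * 0)) := by
    apply Tendsto.const_mul
    have := tendsto_one_div_add_atTop_nhds_zero_nat (𝕜 := ℝ)
    refine this.congr fun i => ?_
    push_cast
    rfl
  rw [mul_zero] at hlim
  filter_upwards [hlim.eventually (gt_mem_nhds (show 0 < δ / 2 by positivity)),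
    eventually_ge_atTop (2 * m)] with i hi1 hi2
  have := hp i
  have a1 := charFun_taylor (ν i) (hi i) θ m
  have a2 := charFun_taylor (gaussianReal 0 1) Pool.Agent.P4f18df.gauss_int θ m
  have a3 : ‖(∑ k ∈ range (2 * m), (Complex.I * θ) ^ k / (k.factorial : ℂ) *
        ((∫ x, x ^ k ∂(ν i) : ℝ) : ℂ)) - ∑ k ∈ range (2 * m), (Complex.I * θ) ^ k /
          (k.factorial : ℂ) * ((∫ x, x ^ k ∂(gaussianReal 0 1) : ℝ) : ℂ)‖ ≤
      C * (1 / ((i + 1 : ℕ) : ℝ)) := by
    rw [← Finset.sum_sub_distrib]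
    refine le_trans (norm_sum_le _ _) ?_
    rw [hC, Finset.sum_mul]
    refine Finset.sum_le_sum fun k hk => ?_
    rw [← mul_sub, norm_mul]
    have b1 : ‖(Complex.I * (θ : ℂ)) ^ k / (k.factorial : ℂ)‖ = |θ| ^ k / (k.factorial : ℝ) := by
      rw [norm_div, norm_pow, norm_mul, Complex.norm_I, one_mul, Complex.norm_real,
        Real.norm_eq_abs, Complex.norm_natCast]
    rw [b1]
    refine mul_le_mul_of_nonneg_left ?_ (by positivity)
    rw [← Complex.ofReal_sub, Complex.norm_real, Real.norm_eq_abs]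
    have := hm i k (by have := Finset.mem_range.1 hk; omega)
    exact this
  have a4 : ∫ x, x ^ (2 * m) ∂(ν i) ≤ gm (2 * m) + 1 := by
    have h := hm i (2 * m) (by omega)
    have h' := (abs_le.1 h).2
    have h1 : (1 : ℝ) / ((i + 1 : ℕ) : ℝ) ≤ 1 := by
      rw [div_le_one (by positivity)]
      exact_mod_cast Nat.succ_le_succ (Nat.zero_le i)
    linarith
  have hq : 0 ≤ |θ| ^ (2 * m) / ((2 * m).factorial : ℝ) := by positivity
  have a5 := mul_le_mul_of_nonneg_left a4 hq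
  have a6 : |θ| ^ (2 * m) / ((2 * m).factorial : ℝ) * ∫ x, x ^ (2 * m) ∂(gaussianReal 0 1) =
      |θ| ^ (2 * m) / ((2 * m).factorial : ℝ) * gm (2 * m) := rfl
  have a7 : |θ| ^ (2 * m) / ((2 * m).factorial : ℝ) * (2 * gm (2 * m) + 1) =
      |θ| ^ (2 * m) / ((2 * m).factorial : ℝ) * (gm (2 * m) + 1) +
        |θ| ^ (2 * m) / ((2 * m).factorial : ℝ) * gm (2 * m) := by ring
  rw [dist_eq_norm]
  set S1 := ∑ k ∈ range (2 * m), (Complex.I * θ) ^ k / (k.factorial : ℂ) *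
        ((∫ x, x ^ k ∂(ν i) : ℝ) : ℂ) with hS1
  set S2 := ∑ k ∈ range (2 * m), (Complex.I * θ) ^ k / (k.factorial : ℂ) *
        ((∫ x, x ^ k ∂(gaussianReal 0 1) : ℝ) : ℂ) with hS2
  calc ‖charFun (ν i) θ - charFun (gaussianReal 0 1) θ‖
      = ‖(charFun (ν i) θ - S1) + (S1 - S2) - (charFun (gaussianReal 0 1) θ - S2)‖ := by
        congr 1; ring
    _ ≤ ‖(charFun (ν i) θ - S1) + (S1 - S2)‖ + ‖charFun (gaussianReal 0 1) θ - S2‖ :=
        norm_sub_le _ _
    _ ≤ ‖charFun (ν i) θ - S1‖ + ‖S1 - S2‖ + ‖charFun (gaussianReal 0 1) θ - S2‖ := by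
        gcongr
        exact norm_add_le _ _
    _ < δ := by linarith

/-- convergence of the distribution functions -/
theorem cdf_tendsto (ν : ℕ → Measure ℝ) (hp : ∀ i, IsProbabilityMeasure (ν i))
    (hi : ∀ i, ∀ k : ℕ, Integrable (fun x : ℝ => x ^ k) (ν i))
    (hm : ∀ i : ℕ, ∀ k ≤ i + 1, |(∫ x, x ^ k ∂(ν i)) - gm k| ≤ 1 / ((i + 1 : ℕ) : ℝ)) (t : ℝ) :
    Tendsto (fun i => cdf (ν i) t) atTop (nhds (cdf (gaussianReal 0 1) t)) := by
  set μs : ℕ → ProbabilityMeasure ℝ := fun n => ⟨ν n, hp n⟩ with hμs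
  set μ0 : ProbabilityMeasure ℝ := ⟨gaussianReal 0 1, inferInstance⟩ with hμ0
  have hconv : Tendsto μs atTop (nhds μ0) := by
    rw [ProbabilityMeasure.tendsto_iff_tendsto_charFun]
    intro θ
    exact charFun_tendsto ν hp hi hm θ
  have hfront : (μ0 : Measure ℝ) (frontier (Set.Iic t)) = 0 := by
    rw [frontier_Iic]
    have := nullSingletonClass_gaussianReal (μ := 0) (v := 1) (by norm_num)
    show (gaussianReal 0 1) {t} = 0
    exact measure_singleton t
  have hlim := ProbabilityMeasure.tendsto_measure_of_null_frontier_of_tendsto' hconv hfront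
  have hlim2 : Tendsto (fun n => ((μs n : Measure ℝ) (Set.Iic t)).toReal) atTop
      (nhds ((μ0 : Measure ℝ) (Set.Iic t)).toReal) :=
    (ENNReal.tendsto_toReal (measure_ne_top _ _)).comp hlim
  have h0 : ((μ0 : Measure ℝ) (Set.Iic t)).toReal = cdf (gaussianReal 0 1) t := by
    rw [cdf_eq_real]; rfl
  rw [h0] at hlim2
  refine hlim2.congr fun n => ?_
  have := hp n
  rw [cdf_eq_real]; rfl

/-- the hypothesis -/
def Hyp (K : ℕ) (ν : Measure ℝ) : Prop :=
  IsProbabilityMeasure ν ∧ (∀ k : ℕ, Integrable (fun x : ℝ => x ^ k) ν) ∧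
    ∀ k ≤ K, |(∫ x, x ^ k ∂ν) - gm k| ≤ 1 / (K : ℝ)

theorem Hyp.anti {K L : ℕ} (hK : 1 ≤ K) (hKL : K ≤ L) {ν : Measure ℝ} (h : Hyp L ν) : Hyp K ν := by
  obtain ⟨h1, h2, h3⟩ := h
  have hK0 : (0 : ℝ) < K := by exact_mod_cast hK
  refine ⟨h1, h2, fun k hk => le_trans (h3 k (hk.trans hKL)) ?_⟩
  exact one_div_le_one_div_of_le hK0 (by exact_mod_cast hKL)

theorem pointwise (t δ : ℝ) (hδ : 0 < δ) : ∃ K : ℕ, 1 ≤ K ∧ ∀ ν : Measure ℝ, Hyp K ν →
    |cdf ν t - cdf (gaussianReal 0 1) t| ≤ δ := by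
  by_contra hcon
  push Not at hcon
  have hc : ∀ i : ℕ, ∃ ν : Measure ℝ, Hyp (i + 1) ν ∧
      δ < |cdf ν t - cdf (gaussianReal 0 1) t| := fun i => hcon (i + 1) (by omega)
  choose ν hh hd using hc
  have hT := cdf_tendsto ν (fun i => (hh i).1) (fun i => (hh i).2.1) (fun i => (hh i).2.2) t
  rw [Metric.tendsto_nhds] at hT
  obtain ⟨i, hi⟩ := (hT δ hδ).exists
  have h2 := hd i
  rw [Real.dist_eq] at hi
  linarith

theorem cdf_cont : Continuous (cdf (gaussianReal 0 1)) := by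
  rw [continuous_iff_continuousAt]
  intro a
  rw [(monotone_cdf (gaussianReal 0 1)).continuousAt_iff_leftLim_eq_rightLim]
  rw [StieltjesFunction.rightLim_eq]
  have h1 := (cdf (gaussianReal 0 1)).measure_singleton a
  rw [measure_cdf] at h1
  have : NullSingletonClass (gaussianReal 0 1) := nullSingletonClass_gaussianReal (by norm_num)
  rw [measure_singleton] at h1
  have h2 : cdf (gaussianReal 0 1) a - Function.leftLim (cdf (gaussianReal 0 1)) a ≤ 0 := by
    rw [← ENNReal.ofReal_eq_zero]; exact h1.symm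
  have h3 := (monotone_cdf (gaussianReal 0 1)).leftLim_le (le_refl a)
  linarith

theorem exists_value {c : ℝ} (h0 : 0 < c) (h1 : c < 1) : ∃ t, cdf (gaussianReal 0 1) t = c := by
  have e1 : ∃ a, cdf (gaussianReal 0 1) a ≤ c := by
    have := (tendsto_cdf_atBot (gaussianReal 0 1)).eventually (gt_mem_nhds h0)
    obtain ⟨a, ha⟩ := this.exists
    exact ⟨a, ha.le⟩
  have e2 : ∃ b, c ≤ cdf (gaussianReal 0 1) b := by
    have := (tendsto_cdf_atTop (gaussianReal 0 1)).eventually (lt_mem_nhds h1)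
    obtain ⟨a, ha⟩ := this.exists
    exact ⟨a, ha.le⟩
  exact mem_range_of_exists_le_of_exists_ge cdf_cont e1 e2

end MoMAux

theorem mom_law (δ : ℝ) (hδ : 0 < δ) : ∃ K : ℕ, 1 ≤ K ∧
    ∀ ν : Measure ℝ, IsProbabilityMeasure ν → (∀ k : ℕ, Integrable (fun x : ℝ => x ^ k) ν) →
      (∀ k ≤ K, |(∫ x, x ^ k ∂ν) - gm k| ≤ 1 / K) →
        ∀ t, |cdf ν t - cdf (gaussianReal 0 1) t| ≤ δ := by
  classical
  obtain ⟨n, hn⟩ := exists_nat_gt (4 / δ)
  have hn0 : (0:ℝ) < n := lt_trans (by positivity) hn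
  have hn2 : 2 / (n : ℝ) ≤ δ / 2 := by
    rw [div_lt_iff₀ hδ] at hn
    rw [div_le_iff₀ hn0]
    linarith
  have hT : ∀ j : ℕ, ∃ t : ℝ, (1 ≤ j ∧ j < n) → cdf (gaussianReal 0 1) t = (j : ℝ) / n := by
    intro j
    by_cases hj : 1 ≤ j ∧ j < n
    · have h1 : (0:ℝ) < (j : ℝ) / n := by
        apply div_pos _ hn0
        exact_mod_cast hj.1
      have h2 : (j : ℝ) / n < 1 := by
        rw [div_lt_one hn0]; exact_mod_cast hj.2
      obtain ⟨t, ht⟩ := MoMAux.exists_value h1 h2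
      exact ⟨t, fun _ => ht⟩
    · exact ⟨0, fun h => absurd h hj⟩
  choose T hT using hT
  have hK : ∀ j : ℕ, ∃ K : ℕ, 1 ≤ K ∧ ∀ ν : Measure ℝ, MoMAux.Hyp K ν →
      |cdf ν (T j) - cdf (gaussianReal 0 1) (T j)| ≤ δ / 2 :=
    fun j => MoMAux.pointwise (T j) (δ / 2) (by positivity)
  choose K hK1 hK2 using hK
  set L : ℕ := ∑ j ∈ range (n + 1), K j with hL
  have hKL : ∀ j, j ≤ n → K j ≤ L := by
    intro j hj
    exact Finset.single_le_sum (f := K) (fun _ _ => Nat.zero_le _)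
      (Finset.mem_range.2 (by omega))
  have hL1 : 1 ≤ L := le_trans (hK1 0) (hKL 0 (by omega))
  refine ⟨L, hL1, ?_⟩
  intro ν hν hint hmom t
  have hyp : MoMAux.Hyp L ν := ⟨hν, hint, hmom⟩
  set Φ := cdf (gaussianReal 0 1) with hΦ
  have hΦm : Monotone Φ := monotone_cdf _
  have hΦ0 : 0 ≤ Φ t := cdf_nonneg _ _
  have hΦ1 : Φ t ≤ 1 := cdf_le_one _ _
  have hGm := monotone_cdf ν
  have hG0 := cdf_nonneg ν t
  have hG1 := cdf_le_one ν t
  have hnet : ∀ j : ℕ, 1 ≤ j → j < n → |cdf ν (T j) - (j : ℝ) / n| ≤ δ / 2 := by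
    intro j hj1 hj2
    have := hK2 j ν (hyp.anti (hK1 j) (hKL j hj2.le))
    rw [hT j ⟨hj1, hj2⟩] at this
    exact this
  have hlt : ∀ j : ℕ, 1 ≤ j → j < n → Φ t < (j : ℝ) / n → t ≤ T j := by
    intro j hj1 hj2 hlt
    rw [← hT j ⟨hj1, hj2⟩] at hlt
    exact (hΦm.reflect_lt hlt).le
  have hgt : ∀ j : ℕ, 1 ≤ j → j < n → (j : ℝ) / n < Φ t → T j ≤ t := by
    intro j hj1 hj2 hlt
    rw [← hT j ⟨hj1, hj2⟩] at hlt
    exact (hΦm.reflect_lt hlt).le
  set j := ⌊(n : ℝ) * Φ t⌋₊ with hj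
  have j1 : (j : ℝ) ≤ n * Φ t := Nat.floor_le (by positivity)
  have j2 : (n : ℝ) * Φ t < j + 1 := Nat.lt_floor_add_one _
  have e1n : 0 < 1 / (n : ℝ) := by positivity
  have e2n : 2 / (n : ℝ) = 1 / n + 1 / n := by ring
  rw [abs_le]
  constructor
  · -- lower bound
    by_cases hj3 : 2 ≤ j
    · have hjn : j - 1 < n := by
        have h5 : (j : ℝ) ≤ n := by nlinarith
        have h6 : j ≤ n := by exact_mod_cast h5
        omega
      have h7 : ((j - 1 : ℕ) : ℝ) = j - 1 := by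
        rw [Nat.cast_sub (by omega)]; norm_num
      have h8 : ((j - 1 : ℕ) : ℝ) / n < Φ t := by
        rw [h7, div_lt_iff₀ hn0]; linarith
      have h9 := hgt (j - 1) (by omega) hjn h8
      have h10 := hGm h9
      have h11 := hnet (j - 1) (by omega) hjn
      rw [abs_le] at h11
      have h12 : Φ t ≤ ((j - 1 : ℕ) : ℝ) / n + 2 / n := by
        rw [h7, ← add_div, le_div_iff₀ hn0]; linarith
      linarith [h11.1]
    · have h5 : (j : ℝ) ≤ 1 := by exact_mod_cast (by omega : j ≤ 1)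
      have h6 : Φ t ≤ 2 / n := by
        rw [le_div_iff₀ hn0]; linarith
      linarith
  · -- upper bound
    by_cases hj3 : j + 1 < n
    · have h8 : Φ t < ((j + 1 : ℕ) : ℝ) / n := by
        rw [lt_div_iff₀ hn0]; push_cast; linarith
      have h9 := hlt (j + 1) (by omega) hj3 h8
      have h10 := hGm h9
      have h11 := hnet (j + 1) (by omega) hj3
      rw [abs_le] at h11
      have h12 : ((j + 1 : ℕ) : ℝ) / n ≤ Φ t + 1 / n := by
        rw [div_le_iff₀ hn0]; push_cast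
        have : (Φ t + 1 / n) * n = Φ t * n + 1 := by field_simp
        rw [this]; linarith
      linarith [h11.2]
    · have h5 : (n : ℝ) ≤ j + 1 := by exact_mod_cast (by omega : n ≤ j + 1)
      have h6 : 1 ≤ Φ t + 1 / n := by
        have : (1:ℝ) ≤ (n * Φ t + 1) / n := by
          rw [le_div_iff₀ hn0]; linarith
        have e : (n * Φ t + 1) / n = Φ t + 1 / n := by field_simp
        rw [e] at this
        exact this
      linarith

end Pool.Agent.P4f18dfC
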