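import Pool.Agent.Lib.P4f18dfC.Root
import Pool.Agent.Lib.P4f18dfQ.BadL

/-!
# The exceptional characters of the large range

Module CX.NetC.  As `Lib/P4f18dfT/NetMid.lean` (`bad_net`): a net of scales, Markov at the net points, and comparison.
`DE_comp`: all summands have norm at most `1` and there are at most `h^k` tuples for each `a`, so for `n ≤ N ≤ 2n`
`‖DE g w k S N h - DE g w k S n h‖ ≤ 4 h^k (N - n)/n` (the sums over `Ioc N (2N)` and `Ioc n (2n)` differ in at most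
`3 (N - n)` terms, and `|1/N - 1/n| ≤ (N-n)/n²`).
`bad_netC`: let `a = min a₀ 1`, `c₁ = (2 K + 3) c₀`, `c₀ = a / (20 K + 40)` (any small enough choice).  Net points: `n_j` = the least integer
`≥ p^(a₀) (1 + p^(-c₁))^j` (or any net with `n ≤ N ≤ n (1 + 2 p^(-c₁))`), `j ≤ 2 p^(c + c₁)` (at most `3 p^(c + c₁)` points up to `exp (p^c)`,
`Real.log (1 + x) ≥ x/2`).  Bad at a net point: `‖DE‖ > 1/(2K)` (note `(√h)^k ≥ 1`, `h ≥ 1`): by `root_bound` and Markov at most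
`4K² p * 8 e k² h^(2k) * 2 p^(-a)` characters (`k ≤ max K 2`); there are `h ≤ p^c`, at most `K 2^K + 1` triples `(k, S, e)`.  Sum `≤ p^(1 - c₀)` for `p ≥ P₀`.
For other `N`: `4 h^k (N-n)/n ≤ 8 p^((K+2) c - c₁) ≤ 1/(2K)`.  (`h < p` since `h ≤ p^c`, `c < 1`.)  For `k = 2`, `e = 2`: `(1/K) h ≥ 1/K`.
-/

set_option autoImplicit false

namespace Pool.Agent.P4f18dfC

open Finset Pool.Agent.P4f18df Pool.Agent.P4f18dfT

namespace NetCAux

/-- the inner sum of `DE` -/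
noncomputable def G (g : ℕ → ℂ) (w : ℕ → ℝ) (k : ℕ) (S : Finset (Fin k)) (h a : ℕ) : ℂ :=
  ∑ t ∈ ntr k (Q h a), ∏ i, ((w (t i) : ℂ) * mixf g S i (t i))

lemma card_ntr_le (k h a : ℕ) : ((ntr k (Q h a)).card : ℝ) ≤ (h : ℝ) ^ k := by
  have h1 : (ntr k (Q h a)).card ≤ h ^ k := by
    unfold ntr
    refine (Finset.card_filter_le _ _).trans ?_
    rw [Fintype.card_piFinset, Finset.prod_const, Finset.card_univ, Fintype.card_fin]
    exact Nat.pow_le_pow_left (card_Q_le h a) k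
  exact_mod_cast h1

lemma norm_G_le (g : ℕ → ℂ) (hg : ∀ n, ‖g n‖ ≤ 1) (w : ℕ → ℝ) (hw : ∀ n, |w n| ≤ 1) (k : ℕ)
    (S : Finset (Fin k)) (h a : ℕ) : ‖G g w k S h a‖ ≤ (h : ℝ) ^ k := by
  unfold G
  refine (norm_sum_le _ _).trans ?_
  refine (Finset.sum_le_card_nsmul _ _ 1 fun t _ => ?_).trans ?_
  · rw [norm_prod]
    refine Finset.prod_le_one (fun i _ => norm_nonneg _) fun i _ => ?_
    rw [norm_mul, Complex.norm_real, Real.norm_eq_abs]
    refine mul_le_one₀ (hw _) (norm_nonneg _) ?_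
    unfold mixf
    split_ifs
    · exact hg _
    · rw [RCLike.norm_conj]
      exact hg _
  · rw [nsmul_eq_mul, mul_one]
    exact card_ntr_le k h a

lemma norm_sum_G_le (g : ℕ → ℂ) (hg : ∀ n, ‖g n‖ ≤ 1) (w : ℕ → ℝ) (hw : ∀ n, |w n| ≤ 1) (k : ℕ)
    (S : Finset (Fin k)) (h : ℕ) {x y : ℕ} (hxy : x ≤ y) :
    ‖∑ a ∈ Ioc x y, G g w k S h a‖ ≤ ((y : ℝ) - x) * (h : ℝ) ^ k := by
  refine (norm_sum_le _ _).trans ?_
  refine (Finset.sum_le_card_nsmul _ _ _ fun a _ => norm_G_le g hg w hw k S h a).trans ?_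
  rw [Nat.card_Ioc, nsmul_eq_mul, Nat.cast_sub hxy]

lemma card_bU' {α β : Type*} [DecidableEq β] {s : Finset α} {f : α → Finset β} {x : ℝ}
    (h : ∀ a ∈ s, ((f a).card : ℝ) ≤ x) : ((s.biUnion f).card : ℝ) ≤ s.card * x := by
  have h1 : ((s.biUnion f).card : ℝ) ≤ ∑ a ∈ s, ((f a).card : ℝ) := by
    exact_mod_cast Finset.card_biUnion_le
  refine h1.trans ((Finset.sum_le_sum h).trans ?_)
  rw [Finset.sum_const, nsmul_eq_mul]

/-- Markov -/
lemma markov {ι : Type*} (s : Finset ι) (F : ι → ℂ) {K Y : ℝ} (hK : 0 < K)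
    (h : ∑ i ∈ s, ‖F i‖ ^ 2 ≤ Y) [DecidablePred fun i => 1 / (2 * K) < ‖F i‖] :
    ((s.filter fun i => 1 / (2 * K) < ‖F i‖).card : ℝ) ≤ 4 * K ^ 2 * Y := by
  have h1 : ((s.filter fun i => 1 / (2 * K) < ‖F i‖).card : ℝ) * (1 / (2 * K)) ^ 2 ≤ Y := by
    refine le_trans ?_ h
    rw [← nsmul_eq_mul]
    refine (Finset.card_nsmul_le_sum (s.filter fun i => 1 / (2 * K) < ‖F i‖)
      (fun i => ‖F i‖ ^ 2) _ fun i hi => ?_).trans ?_
    · rw [Finset.mem_filter] at hi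
      exact pow_le_pow_left₀ (by positivity) hi.2.le 2
    · exact Finset.sum_le_sum_of_subset_of_nonneg (Finset.filter_subset _ _)
        fun i _ _ => by positivity
  have h2 : (1 / (2 * K)) ^ 2 = 1 / (4 * K ^ 2) := by
    field_simp
    ring
  rw [h2, mul_one_div, div_le_iff₀ (by positivity)] at h1
  linarith

lemma xc_norm {p : ℕ} (χ : DirichletCharacter ℂ p) (n : ℕ) : ‖xc χ n‖ ≤ 1 := by
  unfold xc
  split_ifs
  · simp
  · exact DirichletCharacter.norm_le_one χ _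

end NetCAux

open NetCAux

theorem DE_comp (g : ℕ → ℂ) (hg : ∀ n, ‖g n‖ ≤ 1) (w : ℕ → ℝ) (hw : ∀ n, |w n| ≤ 1) (k : ℕ)
    (S : Finset (Fin k)) {n N h : ℕ} (hn : 1 ≤ n) (hnN : n ≤ N) (hN : N ≤ 2 * n) :
    ‖DE g w k S N h - DE g w k S n h‖ ≤ 4 * (h : ℝ) ^ k * ((N : ℝ) - n) / n := by
  have e1 : DE g w k S N h = (∑ a ∈ Ioc N (2 * N), G g w k S h a) / N := rfl
  have e2 : DE g w k S n h = (∑ a ∈ Ioc n (2 * n), G g w k S h a) / n := rfl
  have hn0 : (0 : ℝ) < n := by exact_mod_cast hn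
  have hN0 : (0 : ℝ) < N := by
    have : 1 ≤ N := hn.trans hnN
    exact_mod_cast this
  have hnN' : (n : ℝ) ≤ N := by exact_mod_cast hnN
  set A := ∑ a ∈ Ioc N (2 * N), G g w k S h a with hA
  set B := ∑ a ∈ Ioc n (2 * n), G g w k S h a with hB
  have e3 : A - B = ∑ a ∈ Ioc (2 * n) (2 * N), G g w k S h a - ∑ a ∈ Ioc n N, G g w k S h a := by
    rw [hA, hB, ← Finset.sum_Ioc_consecutive _ hN (by omega : 2 * n ≤ 2 * N),
      ← Finset.sum_Ioc_consecutive _ hnN hN]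
    ring
  have e4 : ‖A - B‖ ≤ 3 * ((N : ℝ) - n) * (h : ℝ) ^ k := by
    rw [e3]
    refine (norm_sub_le _ _).trans ?_
    have g1 := norm_sum_G_le g hg w hw k S h (by omega : 2 * n ≤ 2 * N)
    have g2 := norm_sum_G_le g hg w hw k S h hnN
    push_cast at g1
    nlinarith
  have e5 : ‖A‖ ≤ N * (h : ℝ) ^ k := by
    have g1 := norm_sum_G_le g hg w hw k S h (by omega : N ≤ 2 * N)
    push_cast at g1
    nlinarith
  have e6 : A / N - B / n = (A - B) / n - A * (((N : ℝ) - n) / (n * N) : ℝ) := by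
    have hn1 : (n : ℂ) ≠ 0 := by exact_mod_cast hn0.ne'
    have hN1 : (N : ℂ) ≠ 0 := by exact_mod_cast hN0.ne'
    push_cast
    field_simp
    ring
  rw [e1, e2, e6]
  refine (norm_sub_le _ _).trans ?_
  rw [norm_div, norm_mul, Complex.norm_natCast, Complex.norm_real, Real.norm_eq_abs,
    abs_of_nonneg (div_nonneg (by linarith) (by positivity))]
  have e7 : ‖A - B‖ / n ≤ 3 * ((N : ℝ) - n) * (h : ℝ) ^ k / n :=
    div_le_div_of_nonneg_right e4 hn0.le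
  have e8 : ‖A‖ * (((N : ℝ) - n) / (n * N)) ≤ N * (h : ℝ) ^ k * (((N : ℝ) - n) / (n * N)) :=
    mul_le_mul_of_nonneg_right e5 (div_nonneg (by linarith) (by positivity))
  have e9 : N * (h : ℝ) ^ k * (((N : ℝ) - n) / (n * N)) = (h : ℝ) ^ k * ((N : ℝ) - n) / n := by
    field_simp
  rw [e9] at e8
  calc _ ≤ _ := add_le_add e7 e8
    _ = _ := by ring

namespace NetCAux

open Pool.Agent.P4f18dfQ Pool.Agent.P4f18dfQ.BadL

open Classical in
/-- the exceptional characters for one family of moments -/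
noncomputable def Bad (p : ℕ) [NeZero p] (K : ℕ) (T X : ℝ) (s E e : ℕ) (w : ℕ → ℝ) (k : ℕ) (S : Finset (Fin k)) :
    Finset (DirichletCharacter ℂ p) :=
  (Icc 1 ⌊T⌋₊).biUnion fun h => ((Net s E).filter (fun N : ℕ => X ≤ (N : ℝ))).biUnion fun N =>
    Finset.univ.filter fun χ => 1 / (2 * (K : ℝ)) < ‖DE (fun n => xc χ n ^ e) w k S N h‖

lemma card_Bad (p : ℕ) [NeZero p] (K : ℕ) (hK : 1 ≤ K) {T X : ℝ} (hT : 0 ≤ T) (s E e : ℕ)
    (w : ℕ → ℝ) (k : ℕ) (S : Finset (Fin k)) {Y : ℝ} (hY0 : 0 ≤ Y)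
    (hY : ∀ h : ℕ, 1 ≤ h → (h : ℝ) ≤ T → ∀ N : ℕ, X ≤ (N : ℝ) →
      ∑ χ : DirichletCharacter ℂ p, ‖DE (fun n => xc χ n ^ e) w k S N h‖ ^ 2 ≤ Y) :
    ((Bad p K T X s E e w k S).card : ℝ) ≤
      T * (2 ^ (s + 1) * ((E : ℝ) + 1) * (4 * (K : ℝ) ^ 2 * Y)) := by
  classical
  have hK0 : (0 : ℝ) < K := by exact_mod_cast hK
  have c1 : ∀ h ∈ Icc 1 ⌊T⌋₊, ∀ N ∈ (Net s E).filter (fun N : ℕ => X ≤ (N : ℝ)),
      (((Finset.univ : Finset (DirichletCharacter ℂ p)).filter fun χ => 1 / (2 * (K : ℝ)) <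
        ‖DE (fun n => xc χ n ^ e) w k S N h‖).card : ℝ) ≤ 4 * (K : ℝ) ^ 2 * Y := by
    intro h hh N hN
    rw [mem_Icc] at hh
    rw [mem_filter] at hN
    exact markov _ _ hK0 (hY h hh.1 ((Nat.le_floor_iff hT).1 hh.2) N hN.2)
  have c2 : ∀ h ∈ Icc 1 ⌊T⌋₊, ((((Net s E).filter (fun N : ℕ => X ≤ (N : ℝ))).biUnion fun N =>
      (Finset.univ : Finset (DirichletCharacter ℂ p)).filter fun χ => 1 / (2 * (K : ℝ)) <
        ‖DE (fun n => xc χ n ^ e) w k S N h‖).card : ℝ) ≤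
      2 ^ (s + 1) * ((E : ℝ) + 1) * (4 * (K : ℝ) ^ 2 * Y) := by
    intro h hh
    refine (card_bU' (c1 h hh)).trans ?_
    refine mul_le_mul_of_nonneg_right ?_ (by positivity)
    have := (Finset.card_filter_le (Net s E) (fun N : ℕ => X ≤ (N : ℝ))).trans (card_Net_le s E)
    exact_mod_cast this
  unfold Bad
  refine (card_bU' c2).trans ?_
  rw [Nat.card_Icc, Nat.add_sub_cancel]
  exact mul_le_mul_of_nonneg_right (Nat.floor_le hT) (by positivity)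

lemma good_of_not_mem {p : ℕ} [NeZero p] {K : ℕ} (hK : 1 ≤ K) {T X : ℝ} (hT : 1 ≤ T)
    (hX : 0 < X) {s E e : ℕ} {w : ℕ → ℝ} (hw : ∀ n, |w n| ≤ 1) {k L : ℕ} (hkL : k ≤ L)
    {S : Finset (Fin k)} (hs : 8 * K * T ^ L ≤ 2 ^ s) (hE : 8 * Real.exp T < 2 ^ E)
    {χ : DirichletCharacter ℂ p} (hχ : χ ∉ Bad p K T X s E e w k S) {h : ℕ} (hh1 : 1 ≤ h)
    (hhT : (h : ℝ) ≤ T) {N : ℕ} (hN1 : X ≤ (N : ℝ)) (hN2 : (N : ℝ) ≤ Real.exp T) :
    ‖DE (fun n => xc χ n ^ e) w k S N h‖ ≤ 1 / K := by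
  classical
  have hK0 : (0 : ℝ) < K := by exact_mod_cast hK
  have hN0 : (0 : ℝ) < N := hX.trans_le hN1
  have hN0' : 1 ≤ N := by exact_mod_cast hN0
  have hN3 : N < 2 ^ (s + E) := by
    have h1 : (N : ℝ) < 2 ^ E := by
      have := Real.exp_pos T
      linarith
    have h2 : (2 : ℝ) ^ E ≤ 2 ^ (s + E) := pow_le_pow_right₀ (by norm_num) (by omega)
    exact_mod_cast h1.trans_le h2
  obtain ⟨n₁, _, n, hn, h1, h2, h3⟩ := exists_net hN3
  have h4 : (n - N) * 2 ^ s ≤ N :=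
    (Nat.mul_le_mul_right _ (Nat.sub_le_sub_left h1 n)).trans h3
  have h5 : ((n : ℝ) - N) * 2 ^ s ≤ N := by
    have : (((n - N : ℕ) : ℝ)) * 2 ^ s ≤ N := by exact_mod_cast h4
    rwa [Nat.cast_sub h2] at this
  have hn2 : n ≤ 2 * N := by
    have : (n - N) * 1 ≤ (n - N) * 2 ^ s := Nat.mul_le_mul_left _ Nat.one_le_two_pow
    omega
  have hTL : (1 : ℝ) ≤ T ^ L := one_le_pow₀ hT
  have hg : ∀ n, ‖xc χ n ^ e‖ ≤ 1 := fun n => by
    rw [norm_pow]
    exact pow_le_one₀ (norm_nonneg _) (xc_norm χ n)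
  have h6 := DE_comp (fun n => xc χ n ^ e) hg w hw k S (h := h) hN0' h2 hn2
  have h7 : 4 * (h : ℝ) ^ k * ((n : ℝ) - N) / N ≤ 1 / (2 * K) := by
    have hhk : (h : ℝ) ^ k ≤ T ^ L :=
      (pow_le_pow_left₀ (Nat.cast_nonneg _) hhT k).trans (pow_le_pow_right₀ hT hkL)
    have hnN : (0 : ℝ) ≤ (n : ℝ) - N := by
      have : (N : ℝ) ≤ n := by exact_mod_cast h2
      linarith
    rw [div_le_div_iff₀ hN0 (by positivity), one_mul]
    calc 4 * (h : ℝ) ^ k * ((n : ℝ) - N) * (2 * K) = ((n : ℝ) - N) * (8 * K * (h : ℝ) ^ k) := by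
          ring
      _ ≤ ((n : ℝ) - N) * (8 * K * T ^ L) :=
          mul_le_mul_of_nonneg_left (mul_le_mul_of_nonneg_left hhk (by positivity)) hnN
      _ ≤ ((n : ℝ) - N) * 2 ^ s := mul_le_mul_of_nonneg_left hs hnN
      _ ≤ N := h5
  have h8 : ‖DE (fun n => xc χ n ^ e) w k S n h‖ ≤ 1 / (2 * K) := by
    by_contra hlt
    push Not at hlt
    apply hχ
    unfold Bad
    simp only [mem_biUnion]
    refine ⟨h, mem_Icc.2 ⟨hh1, (Nat.le_floor_iff (by linarith)).2 hhT⟩, n,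
      mem_filter.2 ⟨hn, hN1.trans (by exact_mod_cast h2)⟩, mem_filter.2 ⟨mem_univ _, hlt⟩⟩
  have h9 : ‖DE (fun n => xc χ n ^ e) w k S N h‖ ≤
      ‖DE (fun n => xc χ n ^ e) w k S n h‖ + ‖DE (fun n => xc χ n ^ e) w k S n h -
        DE (fun n => xc χ n ^ e) w k S N h‖ := by
    have := norm_sub_le (DE (fun n => xc χ n ^ e) w k S n h)
      (DE (fun n => xc χ n ^ e) w k S n h - DE (fun n => xc χ n ^ e) w k S N h)
    rwa [sub_sub_cancel] at this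
  have h10 : 1 / (2 * (K : ℝ)) + 1 / (2 * K) = 1 / K := by
    field_simp
    ring
  linarith

end NetCAux

open Pool.Agent.P4f18dfQ Pool.Agent.P4f18dfQ.BadL in
theorem bad_netC (K : ℕ) (hK : 1 ≤ K) (a₀ : ℝ) (ha₀ : 0 < a₀) :
    ∃ c₀ : ℝ, 0 < c₀ ∧ ∀ c : ℝ, 0 < c → c ≤ c₀ → ∃ P₀ : ℕ, ∀ p : ℕ, p.Prime → P₀ ≤ p →
      ∃ E : Finset (DirichletCharacter ℂ p), (E.card : ℝ) ≤ (p : ℝ) ^ (1 - c₀) ∧
        ∀ χ : DirichletCharacter ℂ p, χ ∉ E → ∀ h : ℕ, 1 ≤ h → (h : ℝ) ≤ (p : ℝ) ^ c →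
          ∀ N : ℕ, (p : ℝ) ^ a₀ ≤ N → (N : ℝ) ≤ Real.exp ((p : ℝ) ^ c) → GoodC K (xc χ) N h := by
  classical
  have hK0 : (1 : ℝ) ≤ K := by exact_mod_cast hK
  set a : ℝ := min a₀ 1 with ha
  have ha0 : 0 < a := lt_min ha₀ one_pos
  have ha1 : a ≤ 1 := min_le_right _ _
  have haa : a ≤ a₀ := min_le_left _ _
  set L : ℕ := K + 2 with hL
  set c₀ : ℝ := a / (3 * L + 4) with hc₀
  have hc₀0 : 0 < c₀ := by positivity
  have hc₀L : c₀ * (3 * L + 4) = a := by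
    rw [hc₀]
    field_simp
  refine ⟨c₀, hc₀0, ?_⟩
  intro c hc hcc
  have hcL : c * (3 * L + 3) + c₀ ≤ a := by
    have : c * (3 * L + 3) ≤ c₀ * (3 * L + 3) := mul_le_mul_of_nonneg_right hcc (by positivity)
    nlinarith
  have hL0 : (0 : ℝ) ≤ L := Nat.cast_nonneg L
  have hc1 : c < 1 := by nlinarith
  set D : ℝ := (K * 2 ^ K + 1) * (32 * K * 13 * (4 * K ^ 2 * (2 * (16 * L ^ 2)))) with hD
  have hD0 : 0 < D := by positivity
  have hlim : ∀ᶠ P : ℕ in Filter.atTop, D + 11 ≤ (P : ℝ) ^ c :=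
    ((tendsto_rpow_atTop hc).comp tendsto_natCast_atTop_atTop).eventually_ge_atTop _
  obtain ⟨P₀, hP₀⟩ := Filter.eventually_atTop.1 hlim
  refine ⟨P₀, fun p hp hpP => ?_⟩
  have : NeZero p := ⟨hp.ne_zero⟩
  have hp2 : 2 ≤ p := hp.two_le
  have hpr : (1 : ℝ) < p := by exact_mod_cast hp2
  have hp0 : (0 : ℝ) < p := by linarith
  have hTM := hP₀ p hpP
  set T : ℝ := (p : ℝ) ^ c with hT
  have hT1 : (1 : ℝ) ≤ T := by linarith
  have hT0 : (0 : ℝ) < T := by linarith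
  have hTD : D ≤ T := by linarith
  have hpow : ∀ j : ℕ, T ^ j = (p : ℝ) ^ (c * j) := by
    intro j
    rw [hT, Real.rpow_mul (by linarith), Real.rpow_natCast]
  have hTp : T < p := by
    calc T < (p : ℝ) ^ (1 : ℝ) := Real.rpow_lt_rpow_of_exponent_lt hpr hc1
      _ = p := Real.rpow_one _
  have hTL : (1 : ℝ) ≤ T ^ L := one_le_pow₀ hT1
  have hx1 : (1 : ℝ) ≤ 8 * K * T ^ L := by nlinarith
  obtain ⟨s, hs1, hs2⟩ := exists_pow_two hx1
  obtain ⟨E, hE1, hE2⟩ := exists_E hT0.le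
  set X : ℝ := (p : ℝ) ^ a₀ with hX
  have hX0 : 0 < X := Real.rpow_pos_of_pos hp0 _
  have hX1 : 1 ≤ X := Real.one_le_rpow hpr.le ha₀.le
  -- the second moment at a point of the net
  set Y : ℝ := 16 * L ^ 2 * T ^ (2 * L) * (2 * (p : ℝ) ^ (1 - a)) with hY
  have hY0 : 0 ≤ Y := by positivity
  have hYb : ∀ (e : ℕ), 1 ≤ e → e ≤ 2 → ∀ (w : ℕ → ℝ), (∀ n, |w n| ≤ 1) → ∀ (k : ℕ), 1 ≤ k →
      k ≤ L → ∀ S : Finset (Fin k), ∀ h : ℕ, 1 ≤ h → (h : ℝ) ≤ T → ∀ N : ℕ, X ≤ (N : ℝ) →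
      ∑ χ : DirichletCharacter ℂ p, ‖DE (fun n => xc χ n ^ e) w k S N h‖ ^ 2 ≤ Y := by
    intro e he1 he2 w hw k hk1 hk2 S h hh1 hhT N hN
    have hN0 : (0 : ℝ) < N := hX0.trans_le hN
    have hN0' : 1 ≤ N := by exact_mod_cast hN0
    have hhp : h < p := by exact_mod_cast hhT.trans_lt hTp
    refine (root_bound hp e he1 w hw S hk1 hN0' hhp).trans ?_
    have g1 : (p : ℝ) * (1 / p + 1 / N) ≤ 2 * (p : ℝ) ^ (1 - a) := by
      have g2 : (p : ℝ) * (1 / p + 1 / N) = 1 + p / N := by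
        field_simp
      rw [g2]
      have g3 : (p : ℝ) / N ≤ (p : ℝ) ^ (1 - a) := by
        calc (p : ℝ) / N ≤ p / X := div_le_div_of_nonneg_left hp0.le hX0 hN
          _ = (p : ℝ) ^ (1 - a₀) := by rw [hX, Real.rpow_sub hp0, Real.rpow_one]
          _ ≤ (p : ℝ) ^ (1 - a) := Real.rpow_le_rpow_of_exponent_le hpr.le (by linarith)
      have g4 : (1 : ℝ) ≤ (p : ℝ) ^ (1 - a) := Real.one_le_rpow hpr.le (by linarith)
      linarith
    have g5 : (8 * e * k ^ 2 : ℝ) * (h : ℝ) ^ (2 * k) ≤ 16 * L ^ 2 * T ^ (2 * L) := by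
      have g6 : (e : ℝ) ≤ 2 := by exact_mod_cast he2
      have g7 : (k : ℝ) ≤ L := by exact_mod_cast hk2
      have g8 : (h : ℝ) ^ (2 * k) ≤ T ^ (2 * L) :=
        (pow_le_pow_left₀ (Nat.cast_nonneg _) hhT _).trans (pow_le_pow_right₀ hT1 (by omega))
      have g9 : (k : ℝ) ^ 2 ≤ L ^ 2 := pow_le_pow_left₀ (Nat.cast_nonneg _) g7 2
      have g10 : (8 * e * k ^ 2 : ℝ) ≤ 16 * L ^ 2 := by
        have g11 : (0 : ℝ) ≤ (k : ℝ) ^ 2 := by positivity
        have g12 : (0 : ℝ) ≤ e := Nat.cast_nonneg e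
        nlinarith
      exact mul_le_mul g10 g8 (by positivity) (by positivity)
    calc (p : ℝ) * ((8 * e * k ^ 2 : ℝ) * (h : ℝ) ^ (2 * k) * (1 / p + 1 / N))
        = (8 * e * k ^ 2 : ℝ) * (h : ℝ) ^ (2 * k) * (p * (1 / p + 1 / N)) := by ring
      _ ≤ 16 * L ^ 2 * T ^ (2 * L) * (2 * (p : ℝ) ^ (1 - a)) :=
          mul_le_mul g5 g1 (by positivity) (by positivity)
  have hmu : ∀ n, |mu n| ≤ 1 := by
    intro n
    unfold mu
    have := ArithmeticFunction.abs_moebius_le_one (n := n)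
    exact_mod_cast this
  set B1 : Finset (DirichletCharacter ℂ p) := (Icc 1 K).biUnion fun k =>
    (Finset.univ : Finset (Finset (Fin k))).biUnion fun S => Bad p K T X s E 1 mu k S with hB1
  set B2 : Finset (DirichletCharacter ℂ p) := Bad p K T X s E 2 (fun _ => 1) 2 {0} with hB2
  set Z : ℝ := T * (2 ^ (s + 1) * ((E : ℝ) + 1) * (4 * (K : ℝ) ^ 2 * Y)) with hZ
  have hZ0 : 0 ≤ Z := by positivity
  refine ⟨B1 ∪ B2, ?_, ?_⟩
  · have d1 : ∀ k ∈ Icc 1 K, (((Finset.univ : Finset (Finset (Fin k))).biUnion fun S =>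
        Bad p K T X s E 1 mu k S).card : ℝ) ≤ 2 ^ K * Z := by
      intro k hk
      rw [mem_Icc] at hk
      have d2 := card_bU' (s := (Finset.univ : Finset (Finset (Fin k))))
        (f := fun S => Bad p K T X s E 1 mu k S) (x := Z) fun S _ =>
        card_Bad p K hK hT0.le s E 1 mu k S hY0
          (hYb 1 le_rfl (by norm_num) mu hmu k hk.1 (by omega) S)
      refine d2.trans ?_
      refine mul_le_mul_of_nonneg_right ?_ hZ0
      rw [Finset.card_univ, Fintype.card_finset, Fintype.card_fin]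
      push_cast
      exact pow_le_pow_right₀ (by norm_num) hk.2
    have d3 : (B1.card : ℝ) ≤ K * (2 ^ K * Z) := by
      have := card_bU' d1
      rw [Nat.card_Icc, Nat.add_sub_cancel] at this
      exact this
    have d4 : (B2.card : ℝ) ≤ Z :=
      card_Bad p K hK hT0.le s E 2 (fun _ => 1) 2 {0} hY0
        (hYb 2 (by norm_num) le_rfl (fun _ => 1) (fun _ => by simp) 2 (by norm_num) (by omega) {0})
    have d5 : ((B1 ∪ B2).card : ℝ) ≤ (K * 2 ^ K + 1) * Z := by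
      have : ((B1 ∪ B2).card : ℝ) ≤ (B1.card : ℝ) + B2.card := by
        exact_mod_cast Finset.card_union_le B1 B2
      linarith
    refine d5.trans ?_
    have e2 : (2 : ℝ) ^ (s + 1) ≤ 32 * K * T ^ L := by
      rw [pow_succ]
      linarith
    have e3 : (E : ℝ) + 1 ≤ 13 * T := by linarith
    have e4 : Z ≤ T * (32 * K * T ^ L * (13 * T) * (4 * (K : ℝ) ^ 2 * Y)) := by
      rw [hZ]
      refine mul_le_mul_of_nonneg_left ?_ hT0.le
      refine mul_le_mul_of_nonneg_right ?_ (by positivity)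
      exact mul_le_mul e2 e3 (by positivity) (by positivity)
    calc ((K : ℝ) * 2 ^ K + 1) * Z
        ≤ (K * 2 ^ K + 1) * (T * (32 * K * T ^ L * (13 * T) * (4 * (K : ℝ) ^ 2 * Y))) :=
          mul_le_mul_of_nonneg_left e4 (by positivity)
      _ = D * T ^ (3 * L + 2) * (p : ℝ) ^ (1 - a) := by
          rw [hD, hY]
          ring
      _ ≤ T * T ^ (3 * L + 2) * (p : ℝ) ^ (1 - a) := by
          gcongr
      _ = T ^ (3 * L + 3) * (p : ℝ) ^ (1 - a) := by ring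
      _ = (p : ℝ) ^ (c * ((3 * L + 3 : ℕ) : ℝ) + (1 - a)) := by
          rw [hpow, Real.rpow_add hp0]
      _ ≤ (p : ℝ) ^ (1 - c₀) := by
          refine Real.rpow_le_rpow_of_exponent_le hpr.le ?_
          push_cast
          linarith
  · intro χ hχ h hh1 hhT N hN1 hN2
    rw [Finset.mem_union, not_or] at hχ
    have hh1' : (1 : ℝ) ≤ h := by exact_mod_cast hh1
    constructor
    · intro k hk S
      have hk' := mem_Icc.1 hk
      have f1 : χ ∉ Bad p K T X s E 1 mu k S := by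
        intro hmem
        apply hχ.1
        rw [hB1]
        simp only [mem_biUnion]
        exact ⟨k, hk, S, mem_univ _, hmem⟩
      have f2 := good_of_not_mem hK hT1 hX0 hmu (by omega : k ≤ L) hs1 hE1 f1 hh1 hhT hN1 hN2
      simp only [pow_one] at f2
      refine f2.trans ?_
      have f3 : (1 : ℝ) ≤ (Real.sqrt h) ^ k := one_le_pow₀ (Real.one_le_sqrt.2 hh1')
      exact le_mul_of_one_le_right (by positivity) f3
    · have f2 := good_of_not_mem hK hT1 hX0 (fun _ => by simp) (by omega : 2 ≤ L) hs1 hE1 hχ.2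
        hh1 hhT hN1 hN2
      refine f2.trans ?_
      exact le_mul_of_one_le_right (by positivity) hh1'

end Pool.Agent.P4f18dfC
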