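import Pool.Agent.Lib.P4f18dfC.Disc
import Pool.Agent.Lib.P4f18dfC.Cont
import Pool.Agent.Lib.P4f18dfC.MoM

/-!
# Law and moments of a real function from its discrete moments

Module CX.Quant.  `mom_law` with `δ` gives `K₁`; `cont_mom` with `k ≤ max L K₁` and accuracy `min δ (1/K₁)` gives
`K₂` (maximum over `k`; note that the hypotheses of `cont_mom` get stronger when `K` grows); `disc_mom` for
`j ≤ K₂` with accuracy `1/K₂` gives `K₃`; `K` = a large common bound (`1/K ≤ 1/K₃`, `K ≥ K₃ + 1` so that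
`⌊H⌋₊ ≥ K₃`).  `N = ⌊X⌋₊ ≥ 1` and `N' ≥ 1` because `1 ≤ K ≤ H ≤ X^(1-ε)` gives `X ≥ 1`.
For the law: `ν` = law of `Ms c x H / √(H/ζ(2))` for `x` uniform in `[X, 2X]` (`unif X`, `Zm c X H`,
`measurable_Zm`, `Zm_eq`, `unif_prob` in `Lib/P4f18df/Real.lean`; see the end of `gauss_of_momLoc2` in
`Lib/P4f18dfT/Quant2.lean` and `hint`, `hinteg` in `Lib/P4f18dfT/QMom.lean`): `cdf ν t = Gd c X H t` and
`∫ x^k dν = Md c k X H`; all moments are finite as `Zm` is bounded.  (`Gd`, `Md`: `Lib/P4f18dfT/Defs.lean`.)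
-/

set_option autoImplicit false

namespace Pool.Agent.P4f18dfC

open Finset MeasureTheory ProbabilityTheory Pool.Agent.P4f18df Pool.Agent.P4f18dfT

namespace QuantAux

lemma X_ge {ε X H : ℝ} (hε1 : ε < 1) (hX : 0 < X) (hH : 1 ≤ H) (h : H ≤ X ^ (1 - ε)) :
    1 ≤ X := by
  by_contra hc
  have := Real.rpow_lt_one hX.le (not_le.mp hc) (by linarith : 0 < 1 - ε)
  linarith

lemma Zm_bd {c : ℕ → ℝ} (hc : ∀ n, |c n| ≤ 2) (X H x : ℝ) :
    |Zm c X H x| ≤ |(((⌊2 * X + H⌋₊ + 1 : ℕ) : ℝ) * 2) / sig H| := by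
  unfold Zm
  rw [abs_div, abs_div]
  apply div_le_div_of_nonneg_right _ (abs_nonneg _)
  refine le_trans (Finset.abs_sum_le_sum_abs _ _) ?_
  calc ∑ i ∈ Finset.range (⌊2 * X + H⌋₊ + 1), |if |(i : ℝ) - x| < H / 2 then c i else 0|
      ≤ ∑ i ∈ Finset.range (⌊2 * X + H⌋₊ + 1), (2 : ℝ) := by
        apply Finset.sum_le_sum
        intro i _
        split_ifs
        · exact hc i
        · simp
    _ ≤ _ := by
        rw [Finset.sum_const, Finset.card_range, nsmul_eq_mul]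
        exact le_abs_self _

lemma law {c : ℕ → ℝ} (hc : ∀ n, |c n| ≤ 2) {X H : ℝ} (hX : 0 < X) (hH : 0 ≤ H) :
    ∃ ν : Measure ℝ, IsProbabilityMeasure ν ∧ (∀ k : ℕ, Integrable (fun x : ℝ => x ^ k) ν) ∧
      (∀ k : ℕ, ∫ x, x ^ k ∂ν = Md c k X H) ∧ ∀ t, cdf ν t = Gd c X H t := by
  have hun := unif_prob hX
  have hpr : IsProbabilityMeasure ((unif X).map (Zm c X H)) :=
    Measure.isProbabilityMeasure_map (measurable_Zm _ _ _).aemeasurable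
  refine ⟨(unif X).map (Zm c X H), hpr, fun m => ?_, fun m => ?_, fun t => ?_⟩
  · rw [integrable_map_measure (by fun_prop) (measurable_Zm _ _ _).aemeasurable]
    apply Integrable.of_bound (C := |(((⌊2 * X + H⌋₊ + 1 : ℕ) : ℝ) * 2) / sig H| ^ m)
    · exact ((measurable_Zm _ _ _).pow_const _).aestronglyMeasurable
    · refine Filter.Eventually.of_forall (fun x => ?_)
      simp only [Function.comp]
      rw [Real.norm_eq_abs, abs_pow]
      exact pow_le_pow_left₀ (abs_nonneg _) (Zm_bd hc X H x) m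
  · rw [integral_map (measurable_Zm _ _ _).aemeasurable (by fun_prop)]
    unfold unif Md
    rw [integral_smul_measure, intervalIntegral.integral_of_le (by linarith),
      ← integral_Icc_eq_integral_Ioc, ENNReal.toReal_inv, ENNReal.toReal_ofReal hX.le,
      smul_eq_mul, div_eq_inv_mul]
    congr 1
    apply setIntegral_congr_fun measurableSet_Icc
    intro x hx
    simp only
    rw [Zm_eq hH hx.2]
    rfl
  · rw [ProbabilityTheory.cdf_eq_real, Measure.real,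
      Measure.map_apply (measurable_Zm _ _ _) measurableSet_Iic]
    unfold unif Gd
    rw [Measure.smul_apply, Measure.restrict_apply (measurable_Zm _ _ _ measurableSet_Iic),
      smul_eq_mul, ENNReal.toReal_mul, ENNReal.toReal_inv, ENNReal.toReal_ofReal hX.le]
    rw [div_eq_inv_mul]
    congr 2
    congr 1
    ext x
    simp only [Set.mem_inter_iff, Set.mem_preimage, Set.mem_Iic, Set.mem_ofPred_eq]
    constructor
    · rintro ⟨h1, h2⟩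
      refine ⟨h2, ?_⟩
      rw [Zm_eq hH h2.2] at h1
      exact h1
    · rintro ⟨h1, h2⟩
      refine ⟨?_, h1⟩
      rw [Zm_eq hH h1.2]
      exact h2

lemma gm_zero' : gm 0 = 1 := by
  unfold gm
  simp

lemma Mg_zero (c : ℕ → ℝ) {N : ℕ} (hN : 1 ≤ N) (h : ℕ) : Mg c 0 N h = 1 := by
  have hN0 : (N : ℝ) ≠ 0 := by
    have : (1 : ℝ) ≤ N := by exact_mod_cast hN
    linarith
  unfold Mg
  simp only [pow_zero, Finset.sum_const, Nat.card_Ioc, nsmul_eq_mul, mul_one, div_one]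
  rw [show 2 * N - N = N by omega]
  exact div_self hN0

/-- all discrete moments up to `K₂`, uniformly -/
lemma disc_all (K₂ : ℕ) (hK₂ : 1 ≤ K₂) : ∃ K : ℕ, 1 ≤ K ∧
    ∀ c : ℕ → ℝ, (∀ n, |c n| ≤ 2) → ∀ N h : ℕ, 1 ≤ N → K ≤ h → GoodR K c N h →
      ∀ j ≤ K₂, |Mg c j N h - gm j| ≤ 1 / K₂ := by
  have hp : (0 : ℝ) < 1 / K₂ := by
    have : (1 : ℝ) ≤ K₂ := by exact_mod_cast hK₂
    positivity
  have hd := fun j : ℕ => disc_mom j (1 / (K₂ : ℝ)) hp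
  choose Kd hKd1 hKd2 using hd
  have hle : ∀ j, j ≤ K₂ → Kd j ≤ ∑ j ∈ range (K₂ + 1), Kd j := by
    intro j hj
    exact Finset.single_le_sum (f := Kd) (fun _ _ => Nat.zero_le _)
      (Finset.mem_range.2 (by omega))
  refine ⟨(∑ j ∈ range (K₂ + 1), Kd j) + K₂, by omega, ?_⟩
  intro c hc N h hN hKh hG j hj
  rcases Nat.eq_zero_or_pos j with rfl | hj0
  · rw [Mg_zero c hN, gm_zero', sub_self, abs_zero]
    exact hp.le
  · have h1 := hle j hj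
    have hd0 : (0 : ℝ) < Kd j := by exact_mod_cast hKd1 j
    have h2 : (1 : ℝ) / (((∑ j ∈ range (K₂ + 1), Kd j) + K₂ : ℕ) : ℝ) ≤ 1 / (Kd j : ℝ) := by
      apply one_div_le_one_div_of_le hd0
      exact_mod_cast (by omega : Kd j ≤ (∑ j ∈ range (K₂ + 1), Kd j) + K₂)
    refine hKd2 j c hc N h hN (by omega) ?_ ?_
    · exact (hG.1 j (Finset.mem_Icc.2 ⟨hj0, by omega⟩)).trans
        (mul_le_mul_of_nonneg_right h2 (by positivity))
    · exact hG.2.trans (mul_le_mul_of_nonneg_right h2 (Nat.cast_nonneg _))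

/-- all continuous moments up to `L`, uniformly -/
lemma cont_all (ε : ℝ) (hε : 0 < ε) (hε1 : ε < 1) (L : ℕ) (δ : ℝ) (hδ : 0 < δ) :
    ∃ K : ℕ, 1 ≤ K ∧ ∀ c : ℕ → ℝ, (∀ n, |c n| ≤ 2) → ∀ X H : ℝ, 0 < X → (K : ℝ) ≤ H →
      H ≤ X ^ (1 - ε) →
      (∀ j ≤ K, |Mg c j ⌊X⌋₊ ⌊H⌋₊ - gm j| ≤ 1 / K) →
      (∀ j ≤ K, |Mg c j ((⌊X⌋₊ + 1) / 2) ⌊H⌋₊ - gm j| ≤ 1 / K) →
        ∀ k ≤ L, |Md c k X H - gm k| ≤ δ := by
  have hd := fun k : ℕ => cont_mom ε hε hε1 k δ hδ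
  choose Kc hKc1 hKc2 using hd
  have hle : ∀ j, j ≤ L → Kc j ≤ ∑ j ∈ range (L + 1), Kc j := by
    intro j hj
    exact Finset.single_le_sum (f := Kc) (fun _ _ => Nat.zero_le _)
      (Finset.mem_range.2 (by omega))
  refine ⟨∑ j ∈ range (L + 1), Kc j, (hKc1 0).trans (hle 0 (Nat.zero_le _)), ?_⟩
  intro c hc X H hX hKH hH h1 h2 k hk
  have h3 := hle k hk
  have hd0 : (0 : ℝ) < Kc k := by exact_mod_cast hKc1 k
  have h4 : (Kc k : ℝ) ≤ ((∑ j ∈ range (L + 1), Kc j : ℕ) : ℝ) := by exact_mod_cast h3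
  have h5 : (1 : ℝ) / ((∑ j ∈ range (L + 1), Kc j : ℕ) : ℝ) ≤ 1 / (Kc k : ℝ) :=
    one_div_le_one_div_of_le hd0 h4
  exact hKc2 k c hc X H hX (h4.trans hKH) hH (fun j hj => (h1 j (hj.trans h3)).trans h5)
    (fun j hj => (h2 j (hj.trans h3)).trans h5)

end QuantAux

open QuantAux in
theorem quantC (ε δ : ℝ) (hε : 0 < ε) (hε1 : ε < 1) (hδ : 0 < δ) (L : ℕ) : ∃ K : ℕ, 1 ≤ K ∧
    ∀ c : ℕ → ℝ, (∀ n, |c n| ≤ 2) → ∀ X H : ℝ, 0 < X → (K : ℝ) ≤ H → H ≤ X ^ (1 - ε) →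
      GoodR K c ⌊X⌋₊ ⌊H⌋₊ → GoodR K c ((⌊X⌋₊ + 1) / 2) ⌊H⌋₊ →
        (∀ t, |Gd c X H t - cdf (gaussianReal 0 1) t| ≤ δ) ∧ (∀ k ≤ L, |Md c k X H - gm k| ≤ δ) := by
  obtain ⟨K₁, hK₁, hlaw⟩ := mom_law δ hδ
  have hK₁0 : (0 : ℝ) < K₁ := by exact_mod_cast hK₁
  have hδ' : 0 < min δ (1 / (K₁ : ℝ)) := lt_min hδ (by positivity)
  obtain ⟨K₂, hK₂, hcont⟩ := cont_all ε hε hε1 (max L K₁) (min δ (1 / (K₁ : ℝ))) hδ'
  obtain ⟨K₃, hK₃, hdisc⟩ := disc_all K₂ hK₂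
  refine ⟨K₃ + K₂, by omega, ?_⟩
  intro c hc X H hX hKH hH hG hG'
  have hK2H : (K₂ : ℝ) ≤ H := by
    have : (K₂ : ℝ) ≤ ((K₃ + K₂ : ℕ) : ℝ) := by exact_mod_cast (by omega : K₂ ≤ K₃ + K₂)
    exact this.trans hKH
  have h1H : (1 : ℝ) ≤ H := by
    have : (1 : ℝ) ≤ K₂ := by exact_mod_cast hK₂
    exact this.trans hK2H
  have h1X : 1 ≤ X := X_ge hε1 hX h1H hH
  have hN : 1 ≤ ⌊X⌋₊ := Nat.le_floor (by exact_mod_cast h1X)
  have hN' : 1 ≤ (⌊X⌋₊ + 1) / 2 := by omega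
  have hh : K₃ + K₂ ≤ ⌊H⌋₊ := Nat.le_floor hKH
  have hK30 : (0 : ℝ) < K₃ := by exact_mod_cast hK₃
  have hinv : (1 : ℝ) / ((K₃ + K₂ : ℕ) : ℝ) ≤ 1 / (K₃ : ℝ) := by
    apply one_div_le_one_div_of_le hK30
    exact_mod_cast (by omega : K₃ ≤ K₃ + K₂)
  have hanti : ∀ N, GoodR (K₃ + K₂) c N ⌊H⌋₊ → GoodR K₃ c N ⌊H⌋₊ := by
    intro N hg
    refine ⟨fun k hk => ?_, ?_⟩
    · rw [Finset.mem_Icc] at hk
      exact (hg.1 k (Finset.mem_Icc.2 ⟨hk.1, by omega⟩)).trans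
        (mul_le_mul_of_nonneg_right hinv (by positivity))
    · exact hg.2.trans (mul_le_mul_of_nonneg_right hinv (Nat.cast_nonneg _))
  have hmom := hcont c hc X H hX hK2H hH
    (hdisc c hc _ _ hN (by omega) (hanti _ hG)) (hdisc c hc _ _ hN' (by omega) (hanti _ hG'))
  refine ⟨fun t => ?_, fun k hk => ?_⟩
  · obtain ⟨ν, hν, hint, hmo, hcdf⟩ := law hc hX (by linarith : 0 ≤ H)
    rw [← hcdf t]
    refine hlaw ν hν hint (fun k hk => ?_) t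
    rw [hmo k]
    exact (hmom k (hk.trans (le_max_right _ _))).trans (min_le_right _ _)
  · exact (hmom k (hk.trans (le_max_left _ _))).trans (min_le_left _ _)

end Pool.Agent.P4f18dfC
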