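import Pool.Agent.Lib.P4f18dfC.Cmp

/-!
# The second moment over all characters at an arbitrary scale

Module CX.Root.  Reindex the tuples of `ntr k (Q h a)` by their shifts `s ∈ ntr k (Ioc 0 h)`, `t i = a + s i`, with the indicator that
all `a + s i` are squarefree: `DE (...) = ∑_{s ∈ ntr k (Ioc 0 h)} F_s`, `F_s(χ) = N^(-1) ∑_{a ∈ Ioc N (2N)} w_s(a) ∏_i mixf (xc χ ^ e) S i (a + s i)`,
`|w_s(a)| ≤ 1`.  Cauchy-Schwarz: `‖DE‖² ≤ h^k ∑_s ‖F_s‖²`.  For fixed `s` split the `a`'s: those for which `p ∣ a + s i` for some `i`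
(at most `k (N/p + 1)` of them, each contributing at most `1/N`), and the others, for which `xc χ = χ` at all `a + s i`.  For the
others, with `U(a) = ∏_{i ∈ S} (a + s i)`, `V(a) = ∏_{i ∉ S} (a + s i)`, `orth` gives
`∑_χ ‖∑_a w_s(a) χ(U(a))^e conj χ(V(a))^e‖² ≤ (p-1) #{(a,b) : (U(b) V(a))^e = (U(a) V(b))^e mod p}`.
For fixed `a` the polynomial `V(a)^e ∏_{i∈S} (T + s i)^e - U(a)^e ∏_{i∉S} (T + s i)^e` over `ZMod p` is not zero: `s ∈ ntr` so some value `v`
of `s` occurs an odd number of times, hence its multiplicities in `S` and in the complement differ, so the multiplicities of the root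
`-v` in the two products differ (the values of `s` are in `[1, h]`, `h < p`, so distinct values are distinct modulo `p`; the constants
are nonzero).  Its degree is at most `e k`, so at most `e k` residues `b`, and at most `e k (N/p + 1)` integers `b ∈ Ioc N (2N)`.
Total: `∑_χ ‖F_s‖² ≤ 2 p e k (1/p + 1/N) + 2 p k² (1/p + 1/N)² ≤ 8 e k² p (1/p + 1/N)` since `1/p + 1/N ≤ 3/2`.
-/

set_option autoImplicit false

namespace Pool.Agent.P4f18dfC

open Finset Pool.Agent.P4f18df Pool.Agent.P4f18dfT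

namespace RootAux

open scoped ComplexConjugate

lemma card_class {p : ℕ} (hp : 0 < p) (N : ℕ) (r : ZMod p) :
    (((Ioc N (2 * N)).filter (fun b : ℕ => (b : ZMod p) = r)).card : ℝ) ≤ N / p + 1 := by
  have : NeZero p := ⟨hp.ne'⟩
  have h1 : (Ioc N (2 * N)).filter (fun b : ℕ => (b : ZMod p) = r) =
      (Ioc N (2 * N)).filter (fun b : ℕ => b ≡ r.val [MOD p]) := by
    apply Finset.filter_congr
    intro b _
    rw [← ZMod.natCast_eq_natCast_iff, ZMod.natCast_zmod_val]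
  rw [h1]
  have h2 := Nat.Ioc_filter_modEq_card N (2 * N) hp r.val
  have h3 : (((#{x ∈ Ioc N (2 * N) | x ≡ r.val [MOD p]} : ℕ) : ℤ) : ℚ) ≤ N / p + 1 := by
    rw [h2]
    push_cast
    apply max_le
    · have g1 := Int.floor_le (((2 * N : ℕ) - r.val : ℚ) / p)
      have g2 := Int.lt_floor_add_one ((N - r.val : ℚ) / p)
      have g3 : (((2 * N : ℕ) - r.val : ℚ) / p) = (N - r.val : ℚ) / p + N / p := by
        push_cast; ring
      rw [g3] at g1
      rw [show ((2 : ℚ) * N - r.val) / p = (N - r.val : ℚ) / p + N / p by ring]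
      linarith
    · positivity
  have h4 : (((#{x ∈ Ioc N (2 * N) | x ≡ r.val [MOD p]} : ℕ) : ℚ) : ℝ) ≤
      (((N : ℚ) / p + 1 : ℚ) : ℝ) := Rat.cast_le.2 (by exact_mod_cast h3)
  push_cast at h4
  exact h4

lemma card_set {p : ℕ} (hp : 0 < p) (N : ℕ) (R : Finset (ZMod p)) :
    (((Ioc N (2 * N)).filter (fun b : ℕ => (b : ZMod p) ∈ R)).card : ℝ) ≤
      R.card * (N / p + 1) := by
  have h1 : (Ioc N (2 * N)).filter (fun b : ℕ => (b : ZMod p) ∈ R) ⊆
      R.biUnion (fun r => (Ioc N (2 * N)).filter (fun b : ℕ => (b : ZMod p) = r)) := by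
    intro b hb
    rw [Finset.mem_filter] at hb
    rw [Finset.mem_biUnion]
    exact ⟨_, hb.2, Finset.mem_filter.2 ⟨hb.1, rfl⟩⟩
  calc (((Ioc N (2 * N)).filter (fun b : ℕ => (b : ZMod p) ∈ R)).card : ℝ)
      ≤ ((R.biUnion (fun r => (Ioc N (2 * N)).filter (fun b : ℕ => (b : ZMod p) = r))).card : ℝ) := by
        exact_mod_cast Finset.card_le_card h1
    _ ≤ ((∑ r ∈ R, ((Ioc N (2 * N)).filter (fun b : ℕ => (b : ZMod p) = r)).card : ℕ) : ℝ) := by
        exact_mod_cast Finset.card_biUnion_le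
    _ = ∑ r ∈ R, (((Ioc N (2 * N)).filter (fun b : ℕ => (b : ZMod p) = r)).card : ℝ) := by
        push_cast; rfl
    _ ≤ ∑ _r ∈ R, ((N : ℝ) / p + 1) := Finset.sum_le_sum fun r _ => card_class hp N r
    _ = R.card * (N / p + 1) := by rw [Finset.sum_const, nsmul_eq_mul]

open Polynomial in
lemma poly_ne {F : Type*} [Field F] [DecidableEq F] {k e : ℕ} (he : 1 ≤ e) (S : Finset (Fin k))
    (s : Fin k → F) (c d : F) (hc : c ≠ 0) (hd : d ≠ 0) (v : F)
    (hv : ¬ Even ((univ.filter (fun i => s i = v)).card)) :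
    C c * (∏ i ∈ S, (X + C (s i))) ^ e - C d * (∏ i ∈ Sᶜ, (X + C (s i))) ^ e ≠ 0 := by
  intro h
  rw [sub_eq_zero] at h
  have hr : ∀ (T : Finset (Fin k)) (a : F), a ≠ 0 →
      (C a * (∏ i ∈ T, (X + C (s i))) ^ e).roots.count (-v) = e * (T.filter (fun i => s i = v)).card := by
    intro T a ha
    rw [roots_C_mul _ ha, roots_pow]
    have h1 : ∏ i ∈ T, (X + C (s i)) = ((T.val.map (fun i => - s i)).map (fun a => X - C a)).prod := by
      rw [Finset.prod, Multiset.map_map]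
      congr 1
      apply Multiset.map_congr rfl
      intro i _
      simp
    rw [h1, roots_multiset_prod_X_sub_C, Multiset.count_nsmul, Multiset.count_map]
    congr 1
    rw [Finset.card, Finset.filter_val]
    congr 1
    apply Multiset.filter_congr
    intro i _
    constructor
    · intro h; exact (neg_injective h).symm
    · intro h; rw [h]
  have h1 := hr S c hc
  have h2 := hr Sᶜ d hd
  rw [h, h2] at h1
  have h3 := Nat.eq_of_mul_eq_mul_left (by omega) h1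
  apply hv
  have h4 : (univ.filter (fun i => s i = v)) =
      (S.filter (fun i => s i = v)) ∪ (Sᶜ.filter (fun i => s i = v)) := by
    rw [← Finset.filter_union, Finset.union_compl]
  rw [h4, Finset.card_union_of_disjoint, h3]
  · exact ⟨_, rfl⟩
  · exact Finset.disjoint_filter_filter disjoint_compl_right

open Polynomial in
lemma deg_le {F : Type*} [Field F] {k e : ℕ} (S : Finset (Fin k)) (s : Fin k → F) (c d : F) :
    (C c * (∏ i ∈ S, (X + C (s i))) ^ e - C d * (∏ i ∈ Sᶜ, (X + C (s i))) ^ e).natDegree ≤ e * k := by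
  have h : ∀ (T : Finset (Fin k)) (a : F),
      (C a * (∏ i ∈ T, (X + C (s i))) ^ e).natDegree ≤ e * k := by
    intro T a
    refine (natDegree_C_mul_le _ _).trans ((natDegree_pow_le).trans (Nat.mul_le_mul_left _ ?_))
    refine (natDegree_prod_le _ _).trans ?_
    calc ∑ i ∈ T, (X + C (s i)).natDegree ≤ ∑ _i ∈ T, 1 := by
          apply Finset.sum_le_sum; intro i _; rw [natDegree_X_add_C]
      _ ≤ k := by
          rw [Finset.sum_const, smul_eq_mul, mul_one]
          exact (Finset.card_le_univ T).trans (by simp)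
  exact (natDegree_sub_le _ _).trans (max_le (h S c) (h Sᶜ d))

open Polynomial in
lemma card_b {p : ℕ} (hp : p.Prime) {k e : ℕ} (he : 1 ≤ e) (N : ℕ) (S : Finset (Fin k))
    (s : Fin k → ℕ) (c d : ZMod p) (hc : c ≠ 0) (hd : d ≠ 0) (v : ZMod p)
    (hv : ¬ Even ((univ.filter (fun i => (s i : ZMod p) = v)).card)) :
    (((Ioc N (2 * N)).filter (fun b : ℕ => c * (∏ i ∈ S, ((b : ZMod p) + s i)) ^ e =
      d * (∏ i ∈ Sᶜ, ((b : ZMod p) + s i)) ^ e)).card : ℝ) ≤ (e * k : ℕ) * (N / p + 1) := by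
  have : Fact p.Prime := ⟨hp⟩
  set f : (ZMod p)[X] := C c * (∏ i ∈ S, (X + C ((s i : ℕ) : ZMod p))) ^ e -
    C d * (∏ i ∈ Sᶜ, (X + C ((s i : ℕ) : ZMod p))) ^ e with hf
  have h0 : f ≠ 0 := poly_ne he S (fun i => ((s i : ℕ) : ZMod p)) c d hc hd v hv
  have h1 : f.natDegree ≤ e * k := deg_le S _ c d
  have h2 : f.roots.toFinset.card ≤ e * k :=
    (Multiset.toFinset_card_le _).trans ((card_roots' f).trans h1)
  have h3 : (Ioc N (2 * N)).filter (fun b : ℕ => c * (∏ i ∈ S, ((b : ZMod p) + s i)) ^ e =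
      d * (∏ i ∈ Sᶜ, ((b : ZMod p) + s i)) ^ e) ⊆
      (Ioc N (2 * N)).filter (fun b : ℕ => (b : ZMod p) ∈ f.roots.toFinset) := by
    intro b hb
    rw [Finset.mem_filter] at hb ⊢
    refine ⟨hb.1, ?_⟩
    rw [Multiset.mem_toFinset, mem_roots h0, IsRoot.def, hf]
    simp only [eval_sub, eval_mul, eval_C, eval_pow, eval_prod, eval_add, eval_X]
    rw [hb.2, sub_self]
  calc _ ≤ (((Ioc N (2 * N)).filter (fun b : ℕ => (b : ZMod p) ∈ f.roots.toFinset)).card : ℝ) := by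
        exact_mod_cast Finset.card_le_card h3
    _ ≤ f.roots.toFinset.card * (N / p + 1) := card_set hp.pos N _
    _ ≤ (e * k : ℕ) * (N / p + 1) := by
        apply mul_le_mul_of_nonneg_right _ (by positivity)
        exact_mod_cast h2

lemma sum_chi {p : ℕ} (hp : p.Prime) (G : Finset ℕ) (W : ℕ → ℝ) (hW : ∀ a, |W a| ≤ 1)
    (u v : ℕ → ℕ) (hu : ∀ a ∈ G, ¬ p ∣ u a) (hv : ∀ a ∈ G, ¬ p ∣ v a) :
    ∑ χ : DirichletCharacter ℂ p,
      ‖∑ a ∈ G, (W a : ℂ) * (χ (u a : ZMod p) * conj (χ (v a : ZMod p)))‖ ^ 2 ≤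
      (p : ℝ) * ∑ a ∈ G, ((G.filter (fun b => ((u a * v b : ℕ) : ZMod p) =
        ((v a * u b : ℕ) : ZMod p))).card : ℝ) := by
  classical
  have key : ((∑ χ : DirichletCharacter ℂ p,
      ‖∑ a ∈ G, (W a : ℂ) * (χ (u a : ZMod p) * conj (χ (v a : ZMod p)))‖ ^ 2 : ℝ) : ℂ) =
      ((∑ a ∈ G, ∑ b ∈ G, W a * W b * (if ((u a * v b : ℕ) : ZMod p) =
        ((v a * u b : ℕ) : ZMod p) then ((p - 1 : ℕ) : ℝ) else 0) : ℝ) : ℂ) := by
    rw [Complex.ofReal_sum]
    have h1 : ∀ χ : DirichletCharacter ℂ p,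
        ((‖∑ a ∈ G, (W a : ℂ) * (χ (u a : ZMod p) * conj (χ (v a : ZMod p)))‖ ^ 2 : ℝ) : ℂ) =
        ∑ a ∈ G, ∑ b ∈ G, ((W a : ℂ) * W b) * (χ ((u a * v b : ℕ) : ZMod p) *
          conj (χ ((v a * u b : ℕ) : ZMod p))) := by
      intro χ
      rw [Complex.ofReal_pow, ← Complex.mul_conj', map_sum, Finset.sum_mul_sum]
      refine Finset.sum_congr rfl fun a _ => Finset.sum_congr rfl fun b _ => ?_
      simp only [map_mul, Complex.conj_conj, Complex.conj_ofReal, Nat.cast_mul]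
      ring
    rw [Finset.sum_congr rfl fun χ _ => h1 χ, Finset.sum_comm, Complex.ofReal_sum]
    refine Finset.sum_congr rfl fun a ha => ?_
    rw [Finset.sum_comm, Complex.ofReal_sum]
    refine Finset.sum_congr rfl fun b hb => ?_
    rw [← Finset.mul_sum, orth hp (hp.not_dvd_mul (hu a ha) (hv b hb))
      (hp.not_dvd_mul (hv a ha) (hu b hb))]
    split_ifs <;> simp
  have key2 := Complex.ofReal_injective key
  rw [key2, Finset.mul_sum]
  apply Finset.sum_le_sum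
  intro a _
  rw [Finset.card_filter, Nat.cast_sum, Finset.mul_sum]
  apply Finset.sum_le_sum
  intro b _
  have h1 : W a * W b ≤ 1 := by
    have g1 := abs_le.1 (hW a)
    have g2 := abs_le.1 (hW b)
    have g3 : |W a * W b| ≤ 1 := by
      rw [abs_mul]
      exact mul_le_one₀ (hW a) (abs_nonneg _) (hW b)
    exact (abs_le.1 g3).2
  have h2 : ((p - 1 : ℕ) : ℝ) ≤ p := by exact_mod_cast Nat.sub_le _ _
  have h3 : (0 : ℝ) ≤ ((p - 1 : ℕ) : ℝ) := Nat.cast_nonneg _
  split_ifs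
  · push_cast
    nlinarith
  · simp

lemma DE_eq (g : ℕ → ℂ) (w : ℕ → ℝ) (k : ℕ) (S : Finset (Fin k)) (N h : ℕ) :
    DE g w k S N h = ∑ s ∈ ntr k (Ioc 0 h), (∑ a ∈ Ioc N (2 * N),
      ((if ∀ i, Squarefree (a + s i) then ∏ i, w (a + s i) else 0 : ℝ) : ℂ) *
        ∏ i, mixf g S i (a + s i)) / N := by
  classical
  unfold DE
  rw [← Finset.sum_div, Finset.sum_comm]
  congr 1
  refine Finset.sum_congr rfl fun a _ => ?_
  have h1 : ∑ s ∈ ntr k (Ioc 0 h), ((if ∀ i, Squarefree (a + s i) then ∏ i, w (a + s i)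
      else 0 : ℝ) : ℂ) * ∏ i, mixf g S i (a + s i) =
      ∑ s ∈ (ntr k (Ioc 0 h)).filter (fun s => ∀ i, Squarefree (a + s i)),
        ∏ i, ((w (a + s i) : ℂ) * mixf g S i (a + s i)) := by
    rw [Finset.sum_filter]
    refine Finset.sum_congr rfl fun s _ => ?_
    split_ifs
    · rw [Finset.prod_mul_distrib]
      push_cast
      rfl
    · simp
  rw [h1]
  apply Finset.sum_nbij' (i := fun t j => t j - a) (j := fun s j => a + s j)
  · intro t ht
    unfold ntr at ht ⊢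
    rw [Finset.mem_filter, Fintype.mem_piFinset] at ht
    obtain ⟨ht1, ht2⟩ := ht
    have ht3 : ∀ j, a < t j ∧ t j ≤ a + h ∧ Squarefree (t j) := by
      intro j
      have := ht1 j
      unfold Q at this
      rw [Finset.mem_filter, Finset.mem_Ioc] at this
      exact ⟨this.1.1, this.1.2, this.2⟩
    rw [Finset.mem_filter, Finset.mem_filter, Fintype.mem_piFinset]
    refine ⟨⟨fun j => ?_, ?_⟩, fun j => ?_⟩
    · rw [Finset.mem_Ioc]
      have := ht3 j
      omega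
    · intro hev
      apply ht2
      intro v hv
      unfold Q at hv
      rw [Finset.mem_filter, Finset.mem_Ioc] at hv
      have h2 := hev (v - a) (by rw [Finset.mem_Ioc]; omega)
      convert h2 using 2
      apply Finset.filter_congr
      intro j _
      have := ht3 j
      have h5 : v > a := hv.1.1
      show t j = v ↔ t j - a = v - a
      omega
    · have := ht3 j
      rw [Nat.add_sub_cancel' this.1.le]
      exact this.2.2
  · intro s hs
    rw [Finset.mem_filter] at hs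
    obtain ⟨hs1, hs2⟩ := hs
    unfold ntr at hs1 ⊢
    rw [Finset.mem_filter, Fintype.mem_piFinset] at hs1 ⊢
    obtain ⟨hs3, hs4⟩ := hs1
    refine ⟨fun j => ?_, ?_⟩
    · have := Finset.mem_Ioc.1 (hs3 j)
      unfold Q
      rw [Finset.mem_filter, Finset.mem_Ioc]
      exact ⟨by omega, hs2 j⟩
    · intro hev
      apply hs4
      intro v hv
      by_cases hex : ∃ j, s j = v
      · obtain ⟨j, rfl⟩ := hex
        have := Finset.mem_Ioc.1 (hs3 j)
        have h2 := hev (a + s j) (by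
          unfold Q
          rw [Finset.mem_filter, Finset.mem_Ioc]
          exact ⟨by omega, hs2 j⟩)
        convert h2 using 2
        apply Finset.filter_congr
        intro i _
        show s i = s j ↔ a + s i = a + s j
        omega
      · have : (univ.filter (fun i => s i = v)) = ∅ := by
          rw [Finset.filter_eq_empty_iff]
          intro i _ hi
          exact hex ⟨i, hi⟩
        rw [this]
        simp
  · intro t ht
    funext j
    unfold ntr at ht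
    rw [Finset.mem_filter, Fintype.mem_piFinset] at ht
    have := ht.1 j
    unfold Q at this
    rw [Finset.mem_filter, Finset.mem_Ioc] at this
    simp only
    omega
  · intro s _
    funext j
    simp
  · intro t ht
    unfold ntr at ht
    rw [Finset.mem_filter, Fintype.mem_piFinset] at ht
    refine Finset.prod_congr rfl fun j _ => ?_
    have := ht.1 j
    unfold Q at this
    rw [Finset.mem_filter, Finset.mem_Ioc] at this
    rw [Nat.add_sub_cancel' this.1.1.le]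

lemma norm_xc {p : ℕ} (hp : p.Prime) (χ : DirichletCharacter ℂ p) (n : ℕ) : ‖xc χ n‖ = 1 := by
  unfold xc
  split_ifs with h
  · simp
  · haveI : Fact p.Prime := ⟨hp⟩
    have h1 : (n : ZMod p) ≠ 0 := by
      rwa [Ne, ZMod.natCast_eq_zero_iff]
    exact χ.unit_norm_eq_one (Units.mk0 (n : ZMod p) h1)

lemma norm_mixf {p : ℕ} (hp : p.Prime) (χ : DirichletCharacter ℂ p) (e : ℕ) {k : ℕ}
    (S : Finset (Fin k)) (i : Fin k) (n : ℕ) :
    ‖mixf (fun n => xc χ n ^ e) S i n‖ = 1 := by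
  unfold mixf
  split_ifs <;> simp [norm_xc hp]

lemma prod_mixf {p : ℕ} (χ : DirichletCharacter ℂ p) (e : ℕ) {k : ℕ}
    (S : Finset (Fin k)) (t : Fin k → ℕ) (ht : ∀ i, ¬ p ∣ t i) :
    ∏ i, mixf (fun n => xc χ n ^ e) S i (t i) =
      χ (((∏ i ∈ S, t i) ^ e : ℕ) : ZMod p) * conj (χ (((∏ i ∈ Sᶜ, t i) ^ e : ℕ) : ZMod p)) := by
  classical
  have h1 : ∀ i, mixf (fun n => xc χ n ^ e) S i (t i) =
      if i ∈ S then χ (t i : ZMod p) ^ e else conj (χ (t i : ZMod p) ^ e) := by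
    intro i
    unfold mixf xc
    simp only [if_neg (ht i)]
  simp only [h1]
  rw [Finset.prod_ite]
  have h2 : (univ.filter (fun i => i ∈ S)) = S := by ext; simp
  have h3 : (univ.filter (fun i => i ∉ S)) = Sᶜ := by ext; simp
  rw [h2, h3]
  push_cast
  have e1 : ∏ i ∈ S, χ (t i : ZMod p) ^ e = (χ (∏ i ∈ S, (t i : ZMod p))) ^ e := by
    rw [map_prod, Finset.prod_pow]
  have e2 : ∏ i ∈ Sᶜ, conj (χ (t i : ZMod p) ^ e) = conj ((χ (∏ i ∈ Sᶜ, (t i : ZMod p))) ^ e) := by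
    rw [← map_prod, Finset.prod_pow, map_prod χ]
  rw [e1, e2, map_pow χ, map_pow χ]

lemma card_chi {p : ℕ} (hp : p.Prime) :
    ((Finset.univ : Finset (DirichletCharacter ℂ p)).card : ℝ) ≤ p := by
  have h0 : ¬ p ∣ 1 := fun h => hp.one_lt.ne' (Nat.dvd_one.1 h)
  have h1 := orth hp (u := 1) (v := 1) h0 h0
  simp only [Nat.cast_one, map_one, mul_one, Finset.sum_const, nsmul_eq_mul, if_true] at h1
  have h2 : (Finset.univ : Finset (DirichletCharacter ℂ p)).card = p - 1 := by exact_mod_cast h1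
  rw [h2]
  exact_mod_cast Nat.sub_le _ _

lemma per_s {p : ℕ} (hp : p.Prime) {e : ℕ} (he : 1 ≤ e) (w : ℕ → ℝ) (hw : ∀ n, |w n| ≤ 1)
    {k N h : ℕ} (S : Finset (Fin k)) (hk : 1 ≤ k) (hN : 1 ≤ N) (hh : h < p) (s : Fin k → ℕ)
    (hs : s ∈ ntr k (Ioc 0 h)) :
    ∑ χ : DirichletCharacter ℂ p, ‖(∑ a ∈ Ioc N (2 * N),
      ((if ∀ i, Squarefree (a + s i) then ∏ i, w (a + s i) else 0 : ℝ) : ℂ) *
        ∏ i, mixf (fun n => xc χ n ^ e) S i (a + s i)) / N‖ ^ 2 ≤
      p * ((8 * e * k ^ 2 : ℝ) * (1 / p + 1 / N)) := by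
  classical
  have : Fact p.Prime := ⟨hp⟩
  obtain ⟨W, hWdef⟩ : ∃ W : ℕ → ℝ, W = fun a => if ∀ i, Squarefree (a + s i) then
    ∏ i, w (a + s i) else 0 := ⟨_, rfl⟩
  have hW : ∀ a, |W a| ≤ 1 := by
    intro a
    rw [hWdef]
    simp only
    split_ifs
    · rw [Finset.abs_prod]
      exact Finset.prod_le_one (fun i _ => abs_nonneg _) (fun i _ => hw _)
    · simp
  obtain ⟨G, hG⟩ : ∃ G : Finset ℕ, G = (Ioc N (2 * N)).filter (fun a => ∀ i, ¬ p ∣ a + s i) :=
    ⟨_, rfl⟩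
  obtain ⟨Bd, hBd⟩ : ∃ Bd : Finset ℕ, Bd = (Ioc N (2 * N)).filter
    (fun a => ¬ ∀ i, ¬ p ∣ a + s i) := ⟨_, rfl⟩
  have hNr : (0 : ℝ) < N := by exact_mod_cast hN
  have hpr : (0 : ℝ) < p := by exact_mod_cast hp.pos
  -- the bad ones
  have hB : (Bd.card : ℝ) ≤ k * (N / p + 1) := by
    have h1 : Bd ⊆ (Ioc N (2 * N)).filter (fun b : ℕ => (b : ZMod p) ∈
        (univ : Finset (Fin k)).image (fun i => - (s i : ZMod p))) := by
      intro a ha
      rw [hBd, Finset.mem_filter] at ha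
      obtain ⟨ha1, ha2⟩ := ha
      push Not at ha2
      obtain ⟨i, hi⟩ := ha2
      rw [Finset.mem_filter]
      refine ⟨ha1, Finset.mem_image.2 ⟨i, Finset.mem_univ _, ?_⟩⟩
      rw [← ZMod.natCast_eq_zero_iff] at hi
      push_cast at hi
      linear_combination (-1 : ZMod p) * hi
    calc (Bd.card : ℝ) ≤ _ := by exact_mod_cast Finset.card_le_card h1
      _ ≤ _ := card_set hp.pos N _
      _ ≤ k * (N / p + 1) := by
        apply mul_le_mul_of_nonneg_right _ (by positivity)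
        have := Finset.card_image_le (s := (univ : Finset (Fin k)))
          (f := fun i => - (s i : ZMod p))
        rw [Finset.card_univ, Fintype.card_fin] at this
        exact_mod_cast this
  obtain ⟨u, hu⟩ : ∃ u : ℕ → ℕ, u = fun a => (∏ i ∈ S, (a + s i)) ^ e := ⟨_, rfl⟩
  obtain ⟨v, hv⟩ : ∃ v : ℕ → ℕ, v = fun a => (∏ i ∈ Sᶜ, (a + s i)) ^ e := ⟨_, rfl⟩
  have hnd : ∀ a ∈ G, ∀ T : Finset (Fin k), ¬ p ∣ (∏ i ∈ T, (a + s i)) ^ e := by
    intro a ha T hd
    rw [hG, Finset.mem_filter] at ha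
    obtain ⟨i, _, hi⟩ := (Nat.Prime.prime hp).exists_mem_finset_dvd
      ((Nat.Prime.prime hp).dvd_of_dvd_pow hd)
    exact ha.2 i hi
  have hu1 : ∀ a ∈ G, ¬ p ∣ u a := by intro a ha; rw [hu]; exact hnd a ha S
  have hv1 : ∀ a ∈ G, ¬ p ∣ v a := by intro a ha; rw [hv]; exact hnd a ha Sᶜ
  -- odd value
  have hs' := hs
  unfold ntr at hs'
  rw [Finset.mem_filter, Fintype.mem_piFinset] at hs'
  obtain ⟨hs1, hs2⟩ := hs'
  push Not at hs2
  obtain ⟨v0, hv0, hodd⟩ := hs2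
  have hodd' : ¬ Even ((univ.filter (fun i => (s i : ZMod p) = (v0 : ZMod p))).card) := by
    intro hev
    apply hodd
    convert hev using 2
    apply Finset.filter_congr
    intro i _
    have g1 := Finset.mem_Ioc.1 (hs1 i)
    have g2 := Finset.mem_Ioc.1 hv0
    constructor
    · intro h; rw [h]
    · intro h
      rw [ZMod.natCast_eq_natCast_iff] at h
      exact Nat.ModEq.eq_of_lt_of_lt h (by omega) (by omega)
  -- pairs
  have hpairs : ∑ a ∈ G, ((G.filter (fun b => ((u a * v b : ℕ) : ZMod p) =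
        ((v a * u b : ℕ) : ZMod p))).card : ℝ) ≤ N * ((e * k : ℕ) * (N / p + 1)) := by
    have h1 : ∀ a ∈ G, ((G.filter (fun b => ((u a * v b : ℕ) : ZMod p) =
        ((v a * u b : ℕ) : ZMod p))).card : ℝ) ≤ (e * k : ℕ) * (N / p + 1) := by
      intro a ha
      refine le_trans ?_ (card_b hp he N S s ((v a : ℕ) : ZMod p) ((u a : ℕ) : ZMod p) ?_ ?_
        (v0 : ZMod p) hodd')
      · norm_cast
        apply Finset.card_le_card
        intro b hb
        rw [Finset.mem_filter] at hb ⊢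
        obtain ⟨hb1, hb2⟩ := hb
        rw [hG, Finset.mem_filter] at hb1
        refine ⟨hb1.1, ?_⟩
        have e1 : ((u b : ℕ) : ZMod p) = (∏ i ∈ S, ((b : ZMod p) + s i)) ^ e := by
          rw [hu]; push_cast; rfl
        have e2 : ((v b : ℕ) : ZMod p) = (∏ i ∈ Sᶜ, ((b : ZMod p) + s i)) ^ e := by
          rw [hv]; push_cast; rfl
        rw [Nat.cast_mul, Nat.cast_mul, e1, e2] at hb2
        exact_mod_cast hb2.symm
      · rw [Ne, ZMod.natCast_eq_zero_iff]; exact hv1 a ha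
      · rw [Ne, ZMod.natCast_eq_zero_iff]; exact hu1 a ha
    calc _ ≤ ∑ _a ∈ G, (((e * k : ℕ) : ℝ) * (N / p + 1)) := Finset.sum_le_sum h1
      _ = G.card * (((e * k : ℕ) : ℝ) * (N / p + 1)) := by rw [Finset.sum_const, nsmul_eq_mul]
      _ ≤ N * ((e * k : ℕ) * (N / p + 1)) := by
        apply mul_le_mul_of_nonneg_right _ (by positivity)
        have h2 : G.card ≤ (Ioc N (2 * N)).card := by
          rw [hG]; exact Finset.card_filter_le _ _
        rw [Nat.card_Ioc] at h2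
        have h3 : G.card ≤ N := by omega
        exact_mod_cast h3
  have hchi : ∀ χ : DirichletCharacter ℂ p, ‖(∑ a ∈ Ioc N (2 * N),
      ((if ∀ i, Squarefree (a + s i) then ∏ i, w (a + s i) else 0 : ℝ) : ℂ) *
        ∏ i, mixf (fun n => xc χ n ^ e) S i (a + s i)) / N‖ ^ 2 ≤
      (2 * ‖∑ a ∈ G, (W a : ℂ) * (χ (u a : ZMod p) * conj (χ (v a : ZMod p)))‖ ^ 2 +
        2 * (Bd.card : ℝ) ^ 2) / N ^ 2 := by
    intro χ
    rw [norm_div, div_pow]
    have hn : ‖(N : ℂ)‖ = N := by simp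
    rw [hn]
    apply div_le_div_of_nonneg_right _ (by positivity)
    have h1 : ∑ a ∈ Ioc N (2 * N),
        ((if ∀ i, Squarefree (a + s i) then ∏ i, w (a + s i) else 0 : ℝ) : ℂ) *
          ∏ i, mixf (fun n => xc χ n ^ e) S i (a + s i) =
        ∑ a ∈ G, (W a : ℂ) * (χ (u a : ZMod p) * conj (χ (v a : ZMod p))) +
        ∑ a ∈ Bd, (W a : ℂ) * ∏ i, mixf (fun n => xc χ n ^ e) S i (a + s i) := by
      rw [← Finset.sum_filter_add_sum_filter_not (Ioc N (2 * N)) (fun a => ∀ i, ¬ p ∣ a + s i),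
        ← hG, ← hBd]
      congr 1
      · refine Finset.sum_congr rfl fun a ha => ?_
        rw [hG, Finset.mem_filter] at ha
        rw [prod_mixf χ e S (fun i => a + s i) ha.2, hWdef, hu, hv]
      · refine Finset.sum_congr rfl fun a _ => ?_
        rw [hWdef]
    rw [h1]
    set x := ‖∑ a ∈ G, (W a : ℂ) * (χ (u a : ZMod p) * conj (χ (v a : ZMod p)))‖ with hx
    have h2 : ‖∑ a ∈ Bd, (W a : ℂ) * ∏ i, mixf (fun n => xc χ n ^ e) S i (a + s i)‖ ≤ Bd.card := by
      refine (norm_sum_le _ _).trans ?_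
      calc _ ≤ ∑ _a ∈ Bd, (1 : ℝ) := by
            apply Finset.sum_le_sum
            intro a _
            rw [norm_mul, norm_prod, Finset.prod_eq_one (fun i _ => norm_mixf hp χ e S i _),
              mul_one, Complex.norm_real, Real.norm_eq_abs]
            exact hW a
        _ = Bd.card := by simp
    have h3 := norm_add_le (∑ a ∈ G, (W a : ℂ) * (χ (u a : ZMod p) * conj (χ (v a : ZMod p))))
      (∑ a ∈ Bd, (W a : ℂ) * ∏ i, mixf (fun n => xc χ n ^ e) S i (a + s i))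
    rw [← hx] at h3
    have h4 : ‖∑ a ∈ G, (W a : ℂ) * (χ (u a : ZMod p) * conj (χ (v a : ZMod p))) +
      ∑ a ∈ Bd, (W a : ℂ) * ∏ i, mixf (fun n => xc χ n ^ e) S i (a + s i)‖ ≤ x + Bd.card := by
      linarith
    calc _ ≤ (x + Bd.card) ^ 2 := pow_le_pow_left₀ (norm_nonneg _) h4 2
      _ ≤ 2 * x ^ 2 + 2 * (Bd.card : ℝ) ^ 2 := by nlinarith [sq_nonneg (x - Bd.card)]
  have hsum := sum_chi hp G W hW u v hu1 hv1
  have hcard := card_chi hp
  obtain ⟨y, hy⟩ : ∃ y : ℝ, y = 1 / p + 1 / N := ⟨_, rfl⟩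
  have hyN : (N : ℝ) / p + 1 = N * y := by
    rw [hy]; field_simp
  have hy0 : 0 < y := by rw [hy]; positivity
  have hy1 : y ≤ 3 / 2 := by
    rw [hy]
    have g1 : (1 : ℝ) / p ≤ 1 / 2 := by
      apply one_div_le_one_div_of_le (by norm_num)
      exact_mod_cast hp.two_le
    have g2 : (1 : ℝ) / N ≤ 1 := by
      rw [div_le_one hNr]; exact_mod_cast hN
    linarith
  calc _ ≤ ∑ χ : DirichletCharacter ℂ p,
        (2 * ‖∑ a ∈ G, (W a : ℂ) * (χ (u a : ZMod p) * conj (χ (v a : ZMod p)))‖ ^ 2 +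
        2 * (Bd.card : ℝ) ^ 2) / N ^ 2 := Finset.sum_le_sum fun χ _ => hchi χ
    _ = (2 * ∑ χ : DirichletCharacter ℂ p,
        ‖∑ a ∈ G, (W a : ℂ) * (χ (u a : ZMod p) * conj (χ (v a : ZMod p)))‖ ^ 2 +
        (Finset.univ : Finset (DirichletCharacter ℂ p)).card * (2 * (Bd.card : ℝ) ^ 2)) / N ^ 2 := by
      rw [← Finset.sum_div, Finset.sum_add_distrib, ← Finset.mul_sum, Finset.sum_const,
        nsmul_eq_mul]
    _ ≤ (2 * (p * (N * ((e * k : ℕ) * (N / p + 1)))) +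
        p * (2 * (k * (N / p + 1)) ^ 2)) / N ^ 2 := by
      apply div_le_div_of_nonneg_right _ (by positivity)
      have g1 : ∑ χ : DirichletCharacter ℂ p,
        ‖∑ a ∈ G, (W a : ℂ) * (χ (u a : ZMod p) * conj (χ (v a : ZMod p)))‖ ^ 2 ≤
          p * (N * ((e * k : ℕ) * (N / p + 1))) :=
        hsum.trans (mul_le_mul_of_nonneg_left hpairs hpr.le)
      have g2 : (Bd.card : ℝ) ^ 2 ≤ (k * (N / p + 1)) ^ 2 :=
        pow_le_pow_left₀ (Nat.cast_nonneg _) hB 2
      have g3 : ((Finset.univ : Finset (DirichletCharacter ℂ p)).card : ℝ) *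
          (2 * (Bd.card : ℝ) ^ 2) ≤ p * (2 * (k * (N / p + 1)) ^ 2) :=
        mul_le_mul hcard (by linarith) (by positivity) hpr.le
      linarith
    _ = p * (2 * e * k * y + 2 * k ^ 2 * y ^ 2) := by
      rw [hyN]
      push_cast
      field_simp
    _ ≤ p * ((8 * e * k ^ 2 : ℝ) * y) := by
      apply mul_le_mul_of_nonneg_left _ hpr.le
      have hkr : (1 : ℝ) ≤ k := by exact_mod_cast hk
      have her : (1 : ℝ) ≤ e := by exact_mod_cast he
      have q0 : (k : ℝ) ≤ k ^ 2 := by nlinarith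
      have q1 : (e : ℝ) * k ≤ e * k ^ 2 := mul_le_mul_of_nonneg_left q0 (by linarith)
      have q2 : (k : ℝ) ^ 2 ≤ e * k ^ 2 := by nlinarith
      have q3 : (2 : ℝ) * k ^ 2 * y ^ 2 ≤ 3 * (e * k ^ 2) * y := by
        have : (2 : ℝ) * k ^ 2 * y ^ 2 = (k ^ 2 * (2 * y)) * y := by ring
        rw [this]
        apply mul_le_mul_of_nonneg_right _ hy0.le
        nlinarith
      have q4 : (2 : ℝ) * e * k * y ≤ 2 * (e * k ^ 2) * y := by
        apply mul_le_mul_of_nonneg_right _ hy0.le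
        linarith
      have q5 : (0 : ℝ) ≤ (e * k ^ 2) * y := by positivity
      linarith
    _ = p * ((8 * e * k ^ 2 : ℝ) * (1 / p + 1 / N)) := by rw [hy]

end RootAux

theorem root_bound {p : ℕ} (hp : p.Prime) (e : ℕ) (he : 1 ≤ e) (w : ℕ → ℝ) (hw : ∀ n, |w n| ≤ 1)
    {k N h : ℕ} (S : Finset (Fin k)) (hk : 1 ≤ k) (hN : 1 ≤ N) (hh : h < p) :
    ∑ χ : DirichletCharacter ℂ p, ‖DE (fun n => xc χ n ^ e) w k S N h‖ ^ 2 ≤
      p * ((8 * e * k ^ 2 : ℝ) * (h : ℝ) ^ (2 * k) * (1 / p + 1 / N)) := by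
  classical
  have hpr : (0 : ℝ) < p := by exact_mod_cast hp.pos
  have hNr : (0 : ℝ) < N := by exact_mod_cast hN
  have hcard : ((ntr k (Ioc 0 h)).card : ℝ) ≤ (h : ℝ) ^ k := by
    have h1 : (ntr k (Ioc 0 h)).card ≤ h ^ k := by
      unfold ntr
      refine (Finset.card_filter_le _ _).trans ?_
      rw [Fintype.card_piFinset]
      simp
    exact_mod_cast h1
  have h1 : ∀ χ : DirichletCharacter ℂ p, ‖DE (fun n => xc χ n ^ e) w k S N h‖ ^ 2 ≤
      (ntr k (Ioc 0 h)).card * ∑ s ∈ ntr k (Ioc 0 h), ‖(∑ a ∈ Ioc N (2 * N),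
      ((if ∀ i, Squarefree (a + s i) then ∏ i, w (a + s i) else 0 : ℝ) : ℂ) *
        ∏ i, mixf (fun n => xc χ n ^ e) S i (a + s i)) / N‖ ^ 2 := by
    intro χ
    rw [RootAux.DE_eq]
    refine (pow_le_pow_left₀ (norm_nonneg _) (norm_sum_le _ _) 2).trans ?_
    exact sq_sum_le_card_mul_sum_sq
  calc _ ≤ ∑ χ : DirichletCharacter ℂ p, ((ntr k (Ioc 0 h)).card : ℝ) *
        ∑ s ∈ ntr k (Ioc 0 h), ‖(∑ a ∈ Ioc N (2 * N),
        ((if ∀ i, Squarefree (a + s i) then ∏ i, w (a + s i) else 0 : ℝ) : ℂ) *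
          ∏ i, mixf (fun n => xc χ n ^ e) S i (a + s i)) / N‖ ^ 2 :=
        Finset.sum_le_sum fun χ _ => h1 χ
    _ = ((ntr k (Ioc 0 h)).card : ℝ) * ∑ s ∈ ntr k (Ioc 0 h),
        ∑ χ : DirichletCharacter ℂ p, ‖(∑ a ∈ Ioc N (2 * N),
        ((if ∀ i, Squarefree (a + s i) then ∏ i, w (a + s i) else 0 : ℝ) : ℂ) *
          ∏ i, mixf (fun n => xc χ n ^ e) S i (a + s i)) / N‖ ^ 2 := by
        rw [← Finset.mul_sum, Finset.sum_comm]
    _ ≤ ((ntr k (Ioc 0 h)).card : ℝ) * ∑ _s ∈ ntr k (Ioc 0 h),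
        (p * ((8 * e * k ^ 2 : ℝ) * (1 / p + 1 / N))) := by
        apply mul_le_mul_of_nonneg_left _ (Nat.cast_nonneg _)
        exact Finset.sum_le_sum fun s hs => RootAux.per_s hp he w hw S hk hN hh s hs
    _ = ((ntr k (Ioc 0 h)).card : ℝ) * ((ntr k (Ioc 0 h)).card : ℝ) *
        (p * ((8 * e * k ^ 2 : ℝ) * (1 / p + 1 / N))) := by
        rw [Finset.sum_const, nsmul_eq_mul]
        ring
    _ ≤ (h : ℝ) ^ k * (h : ℝ) ^ k * (p * ((8 * e * k ^ 2 : ℝ) * (1 / p + 1 / N))) := by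
        apply mul_le_mul_of_nonneg_right _ (by positivity)
        exact mul_le_mul hcard hcard (Nat.cast_nonneg _) (by positivity)
    _ = _ := by ring

end Pool.Agent.P4f18dfC
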