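import Pool.Agent.Lib.P4f18dfC.Cmp

/-!
# Few characters are exceptional at a fixed small scale

Module CX.Tail.  Markov's inequality with the `2j`-th moment (`char_mom`), as in `tail_bound` (`Lib/P4f18df/Asym.lean`): the
number of bad `χ` is at most `p av (Dk^(2j)) / (η (√h)^k)^(2j)`, and by `(LD_Dk hh).hyper j` and `var_asymp k q`:
`av (Dk^(2j)) ≤ (h^k N^(-c/2))^j` for large `N` (this is `hmom` in the proof of `tail_bound`).  So the number is at most
`p η^(-2j) N^(-c j / 2) ≤ p N^(-b)` for `j` with `c j / 2 ≥ b + 1` and `N ≥ η^(-2j)`.  `A` with `(3N)^(e k j) < N^A` for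
large `N`: `A = 2 e k j + 1`, `N ≥ 3`.
-/

set_option autoImplicit false

namespace Pool.Agent.P4f18dfC

open Finset Filter Pool.Agent.P4f18df Pool.Agent.P4f18dfT

open Classical in
theorem char_tail (k q b e : ℕ) (hk : 1 ≤ k) (hq : 1 ≤ q) (he : 1 ≤ e) (η : ℝ) (hη : 0 < η) :
    ∃ A : ℕ, ∀ᶠ N : ℕ in atTop, ∀ h : ℕ, 1 ≤ h → (h : ℝ) ≤ (N : ℝ) ^ (1 - 1 / q : ℝ) →
      ∀ p : ℕ, p.Prime → N ^ A ≤ p → ∀ w : ℕ → ℝ, (∀ n, |w n| ≤ 1) → ∀ S : Finset (Fin k),
        ((univ.filter (fun χ : DirichletCharacter ℂ p =>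
          η * (Real.sqrt h) ^ k < ‖DE (fun n => xc χ n ^ e) w k S N h‖)).card : ℝ) ≤
            p * ((N : ℝ) ^ b)⁻¹ := by
  obtain ⟨c, hc, hV⟩ := var_asymp k q hk hq
  obtain ⟨j, hj⟩ := exists_nat_gt (2 * ((b : ℝ) + 1) / c)
  have hj0 : 0 < j := by
    have : (0:ℝ) < j := lt_trans (by positivity) hj
    exact_mod_cast this
  have hjc : (b : ℝ) + 1 ≤ (c / 2) * j := by
    rw [div_lt_iff₀ hc] at hj; linarith
  have hρ : (1:ℝ) ≤ (4 * j : ℝ) ^ k := by
    apply one_le_pow₀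
    have : (1:ℝ) ≤ j := by exact_mod_cast hj0
    linarith
  refine ⟨2 * (e * k * j) + 1, ?_⟩
  filter_upwards [hV, eventually_pow_rN ((4 * j : ℝ) ^ k) hρ (c / 2) (by positivity),
    eventually_ge_atTop 3, tendsto_natCast_atTop_atTop.eventually_ge_atTop ((η ^ (2 * j))⁻¹)]
    with N hV h1 hN hηN h hh1 hh p hp hNp w hw S
  have hNr : (0:ℝ) < N := by exact_mod_cast (by omega : 0 < N)
  have hN1 : (1:ℝ) ≤ N := by exact_mod_cast (by omega : 1 ≤ N)
  have hhN : h ≤ N := by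
    have : (h : ℝ) ≤ (N : ℝ) := by
      refine le_trans hh ?_
      calc (N : ℝ) ^ (1 - 1 / q : ℝ) ≤ (N : ℝ) ^ (1 : ℝ) := by
            apply Real.rpow_le_rpow_of_exponent_le hN1
            have : 0 ≤ (1 / q : ℝ) := by positivity
            linarith
        _ = N := Real.rpow_one _
    exact_mod_cast this
  have hhr : (0:ℝ) < h := by exact_mod_cast hh1
  have hlt : (3 * N) ^ (e * k * j) < p := by
    have h2 : (3 * N) ^ (e * k * j) ≤ (N ^ 2) ^ (e * k * j) := by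
      apply Nat.pow_le_pow_left
      rw [pow_two]
      exact Nat.mul_le_mul_right _ hN
    rw [← pow_mul] at h2
    have h3 : N ^ (2 * (e * k * j)) < N ^ (2 * (e * k * j) + 1) :=
      Nat.pow_lt_pow_right (by omega) (by omega)
    omega
  have hcm := char_mom hp e he w hw S hk hj0 (by omega : 1 ≤ N) hhN hlt
  have hmom : av (PN N) (fun U => (Dk (fU U) k N h) ^ (2 * j)) ≤
      ((h : ℝ) ^ k * (N : ℝ) ^ (-(c / 2))) ^ j := by
    refine le_trans ((LD_Dk (k := k) hhN).hyper j hj0) ?_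
    have hV' := hV h hh
    have h0 : 0 ≤ av (PN N) (fun U => (Dk (fU U) k N h) ^ 2) := av_nonneg (fun U _ => sq_nonneg _)
    apply pow_le_pow_left₀ (by positivity)
    calc (4 * j : ℝ) ^ (k * rN N) * av (PN N) (fun U => (Dk (fU U) k N h) ^ 2)
        ≤ (N : ℝ) ^ (c / 2) * ((h : ℝ) ^ k * (N : ℝ) ^ (-c)) := by
          rw [pow_mul]
          gcongr
      _ = (h : ℝ) ^ k * ((N : ℝ) ^ (c / 2) * (N : ℝ) ^ (-c)) := by ring
      _ = _ := by rw [← Real.rpow_add hNr]; congr 2; ring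
  set lam : ℝ := η * (Real.sqrt h) ^ k with hlam
  have hlam0 : 0 < lam := by
    have : 0 < Real.sqrt h := Real.sqrt_pos.2 hhr
    positivity
  have hlam2 : lam ^ (2 * j) = η ^ (2 * j) * ((h : ℝ) ^ k) ^ j := by
    rw [hlam, mul_pow]
    congr 1
    rw [pow_mul, ← pow_mul (Real.sqrt h) k 2, mul_comm k 2, pow_mul (Real.sqrt h) 2 k,
      Real.sq_sqrt hhr.le]
  have hp0 : (0:ℝ) ≤ p := Nat.cast_nonneg _
  -- Markov
  have hmk : ((univ.filter (fun χ : DirichletCharacter ℂ p =>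
      lam < ‖DE (fun n => xc χ n ^ e) w k S N h‖)).card : ℝ) * lam ^ (2 * j) ≤
      ∑ χ : DirichletCharacter ℂ p, ‖DE (fun n => xc χ n ^ e) w k S N h‖ ^ (2 * j) := by
    rw [← nsmul_eq_mul, ← Finset.sum_const]
    refine le_trans (Finset.sum_le_sum (fun χ hχ => ?_))
      (Finset.sum_le_sum_of_subset_of_nonneg (Finset.filter_subset _ _)
        (fun χ _ _ => by positivity))
    exact pow_le_pow_left₀ hlam0.le (Finset.mem_filter.1 hχ).2.le _
  have hfin : ((univ.filter (fun χ : DirichletCharacter ℂ p =>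
      lam < ‖DE (fun n => xc χ n ^ e) w k S N h‖)).card : ℝ) * lam ^ (2 * j) ≤
      p * ((h : ℝ) ^ k * (N : ℝ) ^ (-(c / 2))) ^ j :=
    hmk.trans (hcm.trans (mul_le_mul_of_nonneg_left hmom hp0))
  rw [hlam2, mul_pow, ← mul_assoc] at hfin
  have hhk : 0 < ((h : ℝ) ^ k) ^ j := by positivity
  have hfin2 : ((univ.filter (fun χ : DirichletCharacter ℂ p =>
      lam < ‖DE (fun n => xc χ n ^ e) w k S N h‖)).card : ℝ) * η ^ (2 * j) ≤
      p * ((N : ℝ) ^ (-(c / 2))) ^ j := by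
    apply le_of_mul_le_mul_right _ hhk
    refine hfin.trans (le_of_eq ?_)
    ring
  have hη2 : 0 < η ^ (2 * j) := by positivity
  rw [← le_div_iff₀ hη2] at hfin2
  refine hfin2.trans ?_
  rw [mul_div_assoc]
  apply mul_le_mul_of_nonneg_left _ hp0
  rw [div_eq_mul_inv]
  have h4 : ((N : ℝ) ^ (-(c / 2))) ^ j ≤ (N : ℝ) ^ (-((b : ℝ) + 1)) := by
    rw [← Real.rpow_natCast, ← Real.rpow_mul hNr.le]
    apply Real.rpow_le_rpow_of_exponent_le hN1
    linarith
  calc ((N : ℝ) ^ (-(c / 2))) ^ j * (η ^ (2 * j))⁻¹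
      ≤ (N : ℝ) ^ (-((b : ℝ) + 1)) * N := by
        apply mul_le_mul h4 hηN (by positivity) (by positivity)
    _ = ((N : ℝ) ^ b)⁻¹ := by
        rw [neg_add, Real.rpow_add hNr, Real.rpow_neg_one, mul_assoc, inv_mul_cancel₀ hNr.ne',
          mul_one, Real.rpow_neg hNr.le, Real.rpow_natCast]

end Pool.Agent.P4f18dfC
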